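import Mathlib
import Pool.Agent.Y90.Gen

/-!
# Real multiplication, imaginary quadratic multiplication, Weil classes and generated classes

The conventions are those of `Pool.Agent.Y90.Stm`: an abelian variety (up to isogeny) is given by
`H = H_1(X, ℚ)`, its tangent space `T` and its period map `per : H → T`; `H^κ(X, ℚ)` is the space
of the alternating forms on `H` in variables indexed by the finite set `κ`, and abelian subvarieties
are rational subspaces `U` of `H` (of dimension `2 dim U`).
-/

namespace Pool.Agent.Y90.S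

open Pool.Agent.H204R3.CM Pool.Agent.Y90.St

variable {H T : Type} [AddCommGroup H] [Module ℚ H] [AddCommGroup T] [Module ℂ T]

/-- `a` is an endomorphism (up to isogeny) of the abelian subvariety `U`. -/
def IsEndo (per : H →+ T) (U : Submodule ℚ H) (a : U →ₗ[ℚ] U) : Prop :=
  ∃ Ψ : T →ₗ[ℂ] T, ∀ u : U, Ψ (per u) = per (a u)

/-- The abelian subvariety `U` has real multiplication with relative dimension `h`: there is a
space `A` of endomorphisms of `U` which are self-adjoint for some polarization, such that an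
endomorphism belongs to `A` if and only if it commutes with all elements of `A`, and
`dim U = h dim A`. (If `U` is simple then `A` is a totally real field, and this says that the
endomorphism algebra is `A`, or an indefinite quaternion algebra in which `A` is a maximal
subfield.) -/
def HasRealMult (per : H →+ T) (U : Submodule ℚ H) (h : ℕ) : Prop :=
  ∃ (E : H → H → ℚ) (A : Submodule ℚ (U →ₗ[ℚ] U)), IsPolarization per E ∧
    (∀ a ∈ A, IsEndo per U a ∧ ∀ u v : U, E (a u) v = E u (a v)) ∧
    (∀ b, IsEndo per U b → (b ∈ A ↔ ∀ a ∈ A, a ∘ₗ b = b ∘ₗ a)) ∧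
    Module.finrank ℚ U = 2 * h * Module.finrank ℚ A

/-- The endomorphism algebra of the abelian subvariety `U` is the imaginary quadratic field
generated by `φ = √-d`, which has the eigenvalues `i √d` and `-i √d` on the tangent space of `U`
with the multiplicities `p` and `q`. -/
def HasQuadMult (per : H →+ T) (U : Submodule ℚ H) (p q : ℕ) : Prop :=
  ∃ (d : ℚ) (φ : U →ₗ[ℚ] U) (Ψ : T →ₗ[ℂ] T), 0 < d ∧ (∀ u : U, Ψ (per u) = per (φ u)) ∧
    (∀ u, φ (φ u) = -(d • u)) ∧
    (∀ b, IsEndo per U b → ∃ x y : ℚ, ∀ u, b u = x • u + y • φ u) ∧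
    Module.finrank ℂ (Submodule.span ℂ (per '' U) ⊓
      LinearMap.ker (Ψ - (((Real.sqrt d : ℝ) : ℂ) * Complex.I) • LinearMap.id) :
        Submodule ℂ T) = p ∧
    Module.finrank ℂ (Submodule.span ℂ (per '' U) ⊓
      LinearMap.ker (Ψ + (((Real.sqrt d : ℝ) : ℂ) * Complex.I) • LinearMap.id) :
        Submodule ℂ T) = q

/-- The condition on the simple abelian subvarieties `U` of `X`: those with complex multiplication
have dimension at most `m`, and each of the others has dimension at most three, or real
multiplication with relative dimension odd or two, or its endomorphism algebra is an imaginary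
quadratic field with coprime multiplicities `p, q ≤ w` (or with `p = q = 2`). -/
def Admissible (m w : ℕ) (per : H →+ T) : Prop :=
  ∀ U : Submodule ℚ H, IsSimpleSub per U →
    (IsCMSub per U → Module.finrank ℚ U ≤ 2 * m) ∧
    (IsCMSub per U ∨ Module.finrank ℚ U ≤ 6 ∨ (∃ h, (Odd h ∨ h = 2) ∧ HasRealMult per U h) ∨
      ∃ p q, HasQuadMult per U p q ∧ p ≤ w ∧ q ≤ w ∧ (Nat.Coprime p q ∨ (p = 2 ∧ q = 2)))

/-- The abelian variety `Y` of dimension `n` with the endomorphism `h = √-d` has trivial
discriminant: for some polarization `E` with `E (h v) w = -E v (h w)` the determinant of the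
Hermitian form `E v (h w) + √-d E v w` on the vector space `H_1(Y, ℚ)` over `K = ℚ(√-d)`, with
respect to some vectors `v 1, ..., v n` (a basis over `K`), is `(-1)^(n/2)` times the norm of a
nonzero element of `K`. Here `s = √-d` is one of the square roots of `-d` in `ℂ`. -/
def TrivialDisc (per : H →+ T) (n : ℕ) (d : ℚ) (h : H →ₗ[ℚ] H) : Prop :=
  ∃ (s : ℂ) (E : H → H → ℚ) (v : Fin n → H) (x y : ℚ), s * s = -(d : ℂ) ∧
    IsPolarization per E ∧ (∀ v w, E (h v) w = -E v (h w)) ∧ (x ≠ 0 ∨ y ≠ 0) ∧
    (Matrix.of fun i j => ((E (v i) (h (v j)) : ℚ) : ℂ) + s * ((E (v i) (v j) : ℚ) : ℂ)).det =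
      (-1) ^ (n / 2) * ((x ^ 2 + d * y ^ 2 : ℚ) : ℂ)

/-- `f ∈ H^n(Y, ℚ)` is a Weil class of an imaginary quadratic field on the abelian variety `Y` of
dimension `n`: `f` is a Hodge class, and there are a positive rational number `d` and an
endomorphism `h = √-d` of `Y` such that `h` may be moved in `f` from each variable to each other
variable (so `f` lies in the line `Λ^n_K H¹(Y, ℚ)` over the field `K = ℚ(√-d)`). If `n ≠ 4` then
the discriminant of `Y` is moreover trivial. -/
def IsWeil (per : H →+ T) (n : ℕ) (f : H [⋀^Fin n]→ₗ[ℚ] ℚ) : Prop :=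
  Module.finrank ℚ H = 2 * n ∧ IsHodge per f ∧
    ∃ (d : ℚ) (h : H →ₗ[ℚ] H), 0 < d ∧ IsHom per per h ∧ (∀ w, h (h w) = -(d • w)) ∧
      (∀ (v : Fin n → H) (k l : Fin n),
        f (Function.update v k (h (v k))) = f (Function.update v l (h (v l)))) ∧
      (n ≠ 4 → TrivialDisc per n d h)

/-- The smallest system of cohomology classes on abelian varieties which contains the classes of
degree zero, the Hodge classes of degree two, the Weil classes of imaginary quadratic fields on
abelian varieties of dimension at least four and at most `2w` (with trivial discriminant if the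
dimension is not four) and the Hodge classes on abelian varieties whose simple abelian subvarieties
have complex multiplication and dimension at most `m`, and which is stable under linear
combinations, cup products, pull-backs along homomorphisms of abelian varieties and push-forwards
along the projections `X × Y → X`. -/
inductive Generated (m w : ℕ) : ∀ {H T : Type} [AddCommGroup H] [Module ℚ H] [AddCommGroup T]
    [Module ℂ T] (_ : H →+ T) (κ : Type), (H [⋀^κ]→ₗ[ℚ] ℚ) → Prop
  /-- classes of degree zero -/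
  | unit {H T : Type} [AddCommGroup H] [Module ℚ H] [AddCommGroup T] [Module ℂ T] {per : H →+ T}
      (hX : IsAV per) {κ : Type} [IsEmpty κ] (f : H [⋀^κ]→ₗ[ℚ] ℚ) : Generated m w per κ f
  /-- Hodge classes of degree two -/
  | divisor {H T : Type} [AddCommGroup H] [Module ℚ H] [AddCommGroup T] [Module ℂ T]
      {per : H →+ T} (hX : IsAV per) {κ : Type} (hκ : Nat.card κ = 2) (f : H [⋀^κ]→ₗ[ℚ] ℚ)
      (hf : IsHodge per f) : Generated m w per κ f
  /-- Weil classes on abelian varieties of dimension at most `2w` -/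
  | weil {H T : Type} [AddCommGroup H] [Module ℚ H] [AddCommGroup T] [Module ℂ T]
      {per : H →+ T} (hX : IsAV per) {n : ℕ} (h4 : 4 ≤ n) (hn : n ≤ 2 * w)
      (f : H [⋀^Fin n]→ₗ[ℚ] ℚ) (hf : IsWeil per n f) : Generated m w per (Fin n) f
  /-- Hodge classes on abelian varieties with complex multiplication -/
  | cm {H T : Type} [AddCommGroup H] [Module ℚ H] [AddCommGroup T] [Module ℂ T] {per : H →+ T}
      (hX : IsAV per) (hm : CMSimple m per) {κ : Type} (f : H [⋀^κ]→ₗ[ℚ] ℚ)
      (hf : IsHodge per f) : Generated m w per κ f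
  /-- sums -/
  | add {H T : Type} [AddCommGroup H] [Module ℚ H] [AddCommGroup T] [Module ℂ T] {per : H →+ T}
      {κ : Type} (f g : H [⋀^κ]→ₗ[ℚ] ℚ) (hf : Generated m w per κ f)
      (hg : Generated m w per κ g) : Generated m w per κ (f + g)
  /-- rational multiples -/
  | smul {H T : Type} [AddCommGroup H] [Module ℚ H] [AddCommGroup T] [Module ℂ T] {per : H →+ T}
      {κ : Type} (a : ℚ) (f : H [⋀^κ]→ₗ[ℚ] ℚ) (hf : Generated m w per κ f) :
      Generated m w per κ (a • f)
  /-- the zero class -/
  | zero {H T : Type} [AddCommGroup H] [Module ℚ H] [AddCommGroup T] [Module ℂ T] {per : H →+ T}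
      (hX : IsAV per) (κ : Type) : Generated m w per κ 0
  /-- renaming of the variables -/
  | reindex {H T : Type} [AddCommGroup H] [Module ℚ H] [AddCommGroup T] [Module ℂ T]
      {per : H →+ T} {κ κ' : Type} (e : κ ≃ κ') (f : H [⋀^κ]→ₗ[ℚ] ℚ)
      (hf : Generated m w per κ f) : Generated m w per κ' (f.domDomCongr e)
  /-- cup products (up to a factor) -/
  | cup {H T : Type} [AddCommGroup H] [Module ℚ H] [AddCommGroup T] [Module ℂ T] {per : H →+ T}
      {κ κ' : Type} [Fintype κ] [DecidableEq κ] [Fintype κ'] [DecidableEq κ']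
      (f : H [⋀^κ]→ₗ[ℚ] ℚ) (g : H [⋀^κ']→ₗ[ℚ] ℚ) (hf : Generated m w per κ f)
      (hg : Generated m w per κ' g) (h : H [⋀^κ ⊕ κ']→ₗ[ℚ] ℚ)
      (hh : ∀ v : κ ⊕ κ' → H, h v = ∑ σ : Equiv.Perm (κ ⊕ κ'), ((Equiv.Perm.sign σ : ℤ) : ℚ) *
        (f (fun k => v (σ (Sum.inl k))) * g (fun k => v (σ (Sum.inr k))))) :
      Generated m w per (κ ⊕ κ') h
  /-- pull-backs along homomorphisms `X → Y` -/
  | pull {H T H' T' : Type} [AddCommGroup H] [Module ℚ H] [AddCommGroup T] [Module ℂ T]
      [AddCommGroup H'] [Module ℚ H'] [AddCommGroup T'] [Module ℂ T'] {per : H →+ T}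
      {per' : H' →+ T'} (hX : IsAV per) {κ : Type} (f : H' [⋀^κ]→ₗ[ℚ] ℚ)
      (hf : Generated m w per' κ f) (h : H →ₗ[ℚ] H') (hh : IsHom per per' h) :
      Generated m w per κ (f.compLinearMap h)
  /-- push-forwards along the projections `X × Y → X` (integration over the fibres: the last
  variables are replaced by a basis of `H_1(Y, ℚ)`) -/
  | push {H T H' T' : Type} [AddCommGroup H] [Module ℚ H] [AddCommGroup T] [Module ℂ T]
      [AddCommGroup H'] [Module ℚ H'] [AddCommGroup T'] [Module ℂ T'] {per : H →+ T}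
      {per' : H' →+ T'} (hX : IsAV per) (hY : IsAV per') {κ : Type} {n : ℕ}
      (e : Module.Basis (Fin n) ℚ H') (f : (H × H') [⋀^κ ⊕ Fin n]→ₗ[ℚ] ℚ)
      (hf : Generated m w (perProd per per') (κ ⊕ Fin n) f) (g : H [⋀^κ]→ₗ[ℚ] ℚ)
      (hg : ∀ v : κ → H, g v = f (Sum.elim (fun k => (v k, 0)) (fun j => (0, e j)))) :
      Generated m w per κ g

end Pool.Agent.Y90.S
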