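import Mathlib
import Pool.Agent.Y90.Tori
import Pool.Agent.Y90.Clo
import Pool.Agent.Y90.Ring
import Pool.Agent.Y90.S.Stm

/-!
# The complex span of the generated classes
-/

set_option linter.unusedSectionVars false

namespace Pool.Agent.Y90.S

open Matrix Module Pool.Agent.W437.HC Pool.Agent.W437.HD Pool.Agent.W548.Odd Pool.Agent.TH504.CB
open Pool.Agent.H204R3.CM (IsHodge)

noncomputable section

section rc

variable {H T : Type} [AddCommGroup H] [Module ℚ H] [AddCommGroup T] [Module ℂ T] {m w : ℕ}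
  {per : H →+ T}

/-- The complex span of the generated classes. -/
def RG' (m w : ℕ) (per : H →+ T) (κ : Type) : Submodule ℂ ((κ → H) → ℂ) :=
  Submodule.span ℂ {g | ∃ r, Generated m w per κ r ∧ g = fun v => ((r v : ℚ) : ℂ)}

theorem RG_of {κ : Type} {r : H [⋀^κ]→ₗ[ℚ] ℚ} (h : Generated m w per κ r) :
    (fun v => ((r v : ℚ) : ℂ)) ∈ RG' m w per κ := Submodule.subset_span ⟨r, h, rfl⟩

theorem RG_reindex {κ κ' : Type} (e : κ ≃ κ') {g : (κ → H) → ℂ} (hg : g ∈ RG' m w per κ) :
    (fun v => g (fun k => v (e k))) ∈ RG' m w per κ' := by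
  unfold RG' at hg
  induction hg using Submodule.span_induction with
  | mem g hg =>
    obtain ⟨r, hr, rfl⟩ := hg
    exact RG_of (Generated.reindex e r hr)
  | zero => exact Submodule.zero_mem _
  | add x y _ _ hx hy => exact Submodule.add_mem _ hx hy
  | smul c x _ hx => exact Submodule.smul_mem _ c hx

/-- Products. -/
def mulG {κ κ' : Type} [Fintype κ] [DecidableEq κ] [Fintype κ'] [DecidableEq κ']
    (g : (κ → H) → ℂ) (g' : (κ' → H) → ℂ) (v : κ ⊕ κ' → H) : ℂ :=
  ∑ σ : Equiv.Perm (κ ⊕ κ'), ((Equiv.Perm.sign σ : ℤ) : ℂ) *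
    (g (fun k => v (σ (Sum.inl k))) * g' (fun k => v (σ (Sum.inr k))))

theorem RG_mul {κ κ' : Type} [Fintype κ] [DecidableEq κ] [Fintype κ'] [DecidableEq κ']
    {g : (κ → H) → ℂ} {g' : (κ' → H) → ℂ} (hg : g ∈ RG' m w per κ) (hg' : g' ∈ RG' m w per κ') :
    mulG g g' ∈ RG' m w per (κ ⊕ κ') := by
  unfold RG' at hg
  induction hg using Submodule.span_induction with
  | mem g hg =>
    obtain ⟨r, hr, rfl⟩ := hg
    unfold RG' at hg'
    induction hg' using Submodule.span_induction with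
    | mem g' hg' =>
      obtain ⟨r', hr', rfl⟩ := hg'
      let h : H [⋀^κ ⊕ κ']→ₗ[ℚ] ℚ := MultilinearMap.alternatization
        (prd r.toMultilinearMap r'.toMultilinearMap)
      have hh : ∀ v : κ ⊕ κ' → H, h v = ∑ σ : Equiv.Perm (κ ⊕ κ'),
          ((Equiv.Perm.sign σ : ℤ) : ℚ) *
            (r (fun k => v (σ (Sum.inl k))) * r' (fun k => v (σ (Sum.inr k)))) := by
        intro v
        rw [MultilinearMap.alternatization_apply]
        refine Finset.sum_congr rfl fun σ _ => ?_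
        rw [MultilinearMap.domDomCongr_apply, prd_apply, Units.smul_def, zsmul_eq_mul]
        rfl
      have h1 := RG_of (Generated.cup r r' hr hr' h hh)
      have h2 : (fun v => ((h v : ℚ) : ℂ)) =
          mulG (fun v => ((r v : ℚ) : ℂ)) (fun v => ((r' v : ℚ) : ℂ)) := by
        funext v
        rw [hh]
        unfold mulG
        push_cast
        rfl
      rwa [h2] at h1
    | zero =>
      have h2 : mulG (fun v => ((r v : ℚ) : ℂ)) (0 : (κ' → H) → ℂ) = 0 := by
        funext v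
        simp [mulG]
      rw [h2]
      exact Submodule.zero_mem _
    | add x y _ _ hx hy =>
      have h2 : mulG (fun v => ((r v : ℚ) : ℂ)) (x + y) = mulG (fun v => ((r v : ℚ) : ℂ)) x +
          mulG (fun v => ((r v : ℚ) : ℂ)) y := by
        funext v
        simp only [mulG, Pi.add_apply, mul_add, Finset.sum_add_distrib]
      rw [h2]
      exact Submodule.add_mem _ hx hy
    | smul c x _ hx =>
      have h2 : mulG (fun v => ((r v : ℚ) : ℂ)) (c • x) =
          c • mulG (fun v => ((r v : ℚ) : ℂ)) x := by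
        funext v
        simp only [mulG, Pi.smul_apply, smul_eq_mul, Finset.mul_sum]
        refine Finset.sum_congr rfl fun σ _ => by ring
      rw [h2]
      exact Submodule.smul_mem _ _ hx
  | zero =>
    have h2 : mulG (0 : (κ → H) → ℂ) g' = 0 := by
      funext v
      simp [mulG]
    rw [h2]
    exact Submodule.zero_mem _
  | add x y _ _ hx hy =>
    have h2 : mulG (x + y) g' = mulG x g' + mulG y g' := by
      funext v
      simp only [mulG, Pi.add_apply, add_mul, mul_add, Finset.sum_add_distrib]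
    rw [h2]
    exact Submodule.add_mem _ hx hy
  | smul c x _ hx =>
    have h2 : mulG (c • x) g' = c • mulG x g' := by
      funext v
      simp only [mulG, Pi.smul_apply, smul_eq_mul, Finset.mul_sum]
      refine Finset.sum_congr rfl fun σ _ => by ring
    rw [h2]
    exact Submodule.smul_mem _ _ hx

theorem RG_lam (hX : St.IsAV per) {κ : Type} {g : (κ → H) → ℂ} (hg : g ∈ RG' m w per κ) :
    ∀ l : ℂ →ₗ[ℚ] ℚ, ∃ r, Generated m w per κ r ∧ ∀ v, l (g v) = r v := by
  unfold RG' at hg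
  induction hg using Submodule.span_induction with
  | mem g hg =>
    obtain ⟨r, hr, rfl⟩ := hg
    intro l
    refine ⟨l 1 • r, hr.smul _ _, fun v => ?_⟩
    have h1 : ((r v : ℚ) : ℂ) = r v • (1 : ℂ) := by rw [Rat.smul_def, mul_one]
    beta_reduce
    rw [h1, map_smul, AlternatingMap.smul_apply, smul_eq_mul, smul_eq_mul, mul_comm]
  | zero =>
    intro l
    refine ⟨0, Generated.zero hX κ, fun v => ?_⟩
    rw [Pi.zero_apply, map_zero]
    rfl
  | add x y _ _ hx hy =>
    intro l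
    obtain ⟨r, hr, h1⟩ := hx l
    obtain ⟨r', hr', h2⟩ := hy l
    refine ⟨r + r', hr.add _ _ hr', fun v => ?_⟩
    rw [Pi.add_apply, map_add, h1, h2]
    rfl
  | smul c x _ hx =>
    intro l
    obtain ⟨r, hr, h1⟩ := hx (l.comp ((LinearMap.mulLeft ℂ c).restrictScalars ℚ))
    exact ⟨r, hr, h1⟩

/-- Rational forms in the complex span belong to the ring. -/
theorem RG_descent (hX : St.IsAV per) {κ : Type} {f : H [⋀^κ]→ₗ[ℚ] ℚ}
    (hf : (fun v => ((f v : ℚ) : ℂ)) ∈ RG' m w per κ) : Generated m w per κ f := by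
  obtain ⟨l, hl⟩ := exists_lam
  obtain ⟨r, hr, h1⟩ := RG_lam hX hf l
  have h2 : r = f := by
    ext v
    rw [← h1]
    have h3 : ((f v : ℚ) : ℂ) = f v • (1 : ℂ) := by rw [Rat.smul_def, mul_one]
    rw [h3, map_smul, hl, smul_eq_mul, mul_one]
  rw [← h2]
  exact hr

end rc

section alt

variable {B : Type} [Fintype B] [DecidableEq B] {T : Type} [AddCommGroup T] [Module ℂ T] (m w : ℕ)
  (per : (B → ℚ) →+ T)

/-- The system of the forms whose alternations belong to the complex span. -/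
def NG (κ : Type) [Finite κ] :
    Submodule ℂ (MultilinearMap ℂ (fun _ : κ => B → ℂ) ℂ) where
  carrier := {F | ∀ (_ : Fintype κ) (_ : DecidableEq κ), altQ F ∈ RG' m w per κ}
  add_mem' := by
    intro F F' hF hF' i1 i2
    have h1 : altQ (F + F') = altQ F + altQ F' := by
      funext v
      simp only [altQ, _root_.add_apply, mul_add, Finset.sum_add_distrib, Pi.add_apply]
    rw [h1]
    exact Submodule.add_mem _ (hF i1 i2) (hF' i1 i2)
  zero_mem' := by
    intro i1 i2
    have h1 : altQ (0 : MultilinearMap ℂ (fun _ : κ => B → ℂ) ℂ) = 0 := by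
      funext v
      simp only [altQ, _root_.zero_apply, mul_zero, Finset.sum_const_zero, Pi.zero_apply]
    rw [h1]
    exact Submodule.zero_mem _
  smul_mem' := by
    intro c F hF i1 i2
    have h1 : altQ (c • F) = c • altQ F := by
      funext v
      simp only [altQ, _root_.smul_apply, smul_eq_mul, Pi.smul_apply, Finset.mul_sum]
      refine Finset.sum_congr rfl fun σ _ => by ring
    rw [h1]
    exact Submodule.smul_mem _ _ (hF i1 i2)

variable {m w per}
variable {κ κ' : Type} [Fintype κ] [DecidableEq κ] [Fintype κ'] [DecidableEq κ']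

theorem mulG_altQ (φ : MultilinearMap ℂ (fun _ : κ => B → ℂ) ℂ)
    (φ' : MultilinearMap ℂ (fun _ : κ' => B → ℂ) ℂ) (v : κ ⊕ κ' → B → ℚ) :
    mulG (altQ φ) (altQ φ') v =
      ((Fintype.card (Equiv.Perm κ) : ℂ) * (Fintype.card (Equiv.Perm κ') : ℂ)) *
        ∑ σ : Equiv.Perm (κ ⊕ κ'), ((Equiv.Perm.sign σ : ℤ) : ℂ) *
          (φ (fun k => cv (v (σ (Sum.inl k)))) * φ' (fun k => cv (v (σ (Sum.inr k))))) := by
  have h1 : mulG (altQ φ) (altQ φ') v =
      ∑ σ : Equiv.Perm (κ ⊕ κ'), ∑ ρ : Equiv.Perm κ, ∑ ρ' : Equiv.Perm κ',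
        ((Equiv.Perm.sign σ : ℤ) : ℂ) * (((Equiv.Perm.sign ρ : ℤ) : ℂ) *
          ((Equiv.Perm.sign ρ' : ℤ) : ℂ)) * (φ (fun k => cv (v (σ (Sum.inl (ρ k))))) *
            φ' (fun k => cv (v (σ (Sum.inr (ρ' k)))))) := by
    unfold mulG altQ
    refine Finset.sum_congr rfl fun σ _ => ?_
    rw [Finset.sum_mul_sum, Finset.mul_sum]
    refine Finset.sum_congr rfl fun ρ _ => ?_
    rw [Finset.mul_sum]
    refine Finset.sum_congr rfl fun ρ' _ => ?_
    ring
  rw [h1, Finset.sum_comm]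
  have h2 : ∀ ρ : Equiv.Perm κ, ∑ σ : Equiv.Perm (κ ⊕ κ'), ∑ ρ' : Equiv.Perm κ',
        ((Equiv.Perm.sign σ : ℤ) : ℂ) * (((Equiv.Perm.sign ρ : ℤ) : ℂ) *
          ((Equiv.Perm.sign ρ' : ℤ) : ℂ)) * (φ (fun k => cv (v (σ (Sum.inl (ρ k))))) *
            φ' (fun k => cv (v (σ (Sum.inr (ρ' k)))))) =
      (Fintype.card (Equiv.Perm κ') : ℂ) *
        ∑ σ : Equiv.Perm (κ ⊕ κ'), ((Equiv.Perm.sign σ : ℤ) : ℂ) *
          (φ (fun k => cv (v (σ (Sum.inl k)))) * φ' (fun k => cv (v (σ (Sum.inr k))))) := by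
    intro ρ
    rw [Finset.sum_comm]
    have h3 : ∀ ρ' : Equiv.Perm κ', ∑ σ : Equiv.Perm (κ ⊕ κ'),
        ((Equiv.Perm.sign σ : ℤ) : ℂ) * (((Equiv.Perm.sign ρ : ℤ) : ℂ) *
          ((Equiv.Perm.sign ρ' : ℤ) : ℂ)) * (φ (fun k => cv (v (σ (Sum.inl (ρ k))))) *
            φ' (fun k => cv (v (σ (Sum.inr (ρ' k)))))) =
        ∑ σ : Equiv.Perm (κ ⊕ κ'), ((Equiv.Perm.sign σ : ℤ) : ℂ) *
          (φ (fun k => cv (v (σ (Sum.inl k)))) * φ' (fun k => cv (v (σ (Sum.inr k))))) := by
      intro ρ'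
      rw [← Equiv.sum_comp (Equiv.mulRight (Equiv.Perm.sumCongr ρ ρ'))
        (fun σ : Equiv.Perm (κ ⊕ κ') => ((Equiv.Perm.sign σ : ℤ) : ℂ) *
          (φ (fun k => cv (v (σ (Sum.inl k)))) * φ' (fun k => cv (v (σ (Sum.inr k))))))]
      refine Finset.sum_congr rfl fun σ _ => ?_
      have h4 : (Equiv.mulRight (Equiv.Perm.sumCongr ρ ρ')) σ = σ * Equiv.Perm.sumCongr ρ ρ' := rfl
      rw [h4, Equiv.Perm.sign_mul, Equiv.Perm.sign_sumCongr]
      push_cast
      rfl
    rw [Finset.sum_congr rfl fun ρ' _ => h3 ρ', Finset.sum_const, nsmul_eq_mul, Finset.card_univ]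
  rw [Finset.sum_congr rfl fun ρ _ => h2 ρ, Finset.sum_const, nsmul_eq_mul, Finset.card_univ]
  ring

theorem clo_NG (hX : St.IsAV per) : Clo (NG m w per) := by
  constructor
  · intro κ _ _ F i1 i2
    have h1 : altQ F = F 0 • (fun _ => (((1 : ℚ)) : ℂ)) := by
      funext v
      unfold altQ
      rw [Fintype.sum_unique, Pi.smul_apply, smul_eq_mul]
      have h2 : (fun k => cv (v ((default : Equiv.Perm κ) k))) = (0 : κ → B → ℂ) := by
        funext k
        exact isEmptyElim k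
      rw [h2, Subsingleton.elim (default : Equiv.Perm κ) 1, Equiv.Perm.sign_one]
      push_cast
      ring
    rw [h1]
    refine Submodule.smul_mem _ _ ?_
    exact RG_of (Generated.unit hX (AlternatingMap.constOfIsEmpty ℚ (B → ℚ) κ 1))
  · intro κ κ' κ'' _ _ _ e φ φ' ψ hφ hφ' hψ i1 i2
    let j1 : Fintype κ := Fintype.ofFinite κ
    let j2 : Fintype κ' := Fintype.ofFinite κ'
    let k1 : DecidableEq κ := Classical.decEq κ
    let k2 : DecidableEq κ' := Classical.decEq κ'
    have h1 := RG_reindex e (RG_mul (hφ j1 k1) (hφ' j2 k2))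
    have h2 : altQ ψ = ((Fintype.card (Equiv.Perm κ) : ℂ) *
        (Fintype.card (Equiv.Perm κ') : ℂ))⁻¹ •
        fun v : κ'' → B → ℚ => mulG (altQ φ) (altQ φ') (fun k => v (e k)) := by
      funext v
      rw [Pi.smul_apply, smul_eq_mul, mulG_altQ, ← mul_assoc, inv_mul_cancel₀, one_mul]
      · unfold altQ
        rw [← Equiv.sum_comp (Equiv.permCongr e) (fun σ : Equiv.Perm κ'' =>
          ((Equiv.Perm.sign σ : ℤ) : ℂ) * ψ (fun k => cv (v (σ k))))]
        refine Finset.sum_congr rfl fun σ _ => ?_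
        rw [Equiv.Perm.sign_permCongr, hψ]
        simp only [Equiv.permCongr_apply, Equiv.symm_apply_apply]
      · refine mul_ne_zero ?_ ?_ <;> exact_mod_cast Fintype.card_ne_zero
    rw [h2]
    exact Submodule.smul_mem _ _ h1

end alt

end

end Pool.Agent.Y90.S
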