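import Mathlib
import Pool.Agent.Y90.S.NRing
import Pool.Agent.Y90.NEll

/-!
# The complex multiplication lemma and the push-forward lemma
-/

set_option linter.unusedSectionVars false

namespace Pool.Agent.Y90.S

open Matrix Module Pool.Agent.W437.HC Pool.Agent.W437.HD Pool.Agent.W548.Odd Pool.Agent.TH504.CB
open Pool.Agent.H204R3.CM (IsHodge)
open Pool.Agent.H204R3.SP (Kills)
open Pool.Agent.W437.HP (cK cK_mul cK_one)

noncomputable section

section fam

variable {L : Type} [iL : Fintype L] [dL : DecidableEq L] {a : L → ℕ}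
  {Zf : ∀ b, Matrix (Fin (a b)) (Fin (a b)) ℂ} (hZ : ∀ b, PM (Zf b))
  (lam : ∀ b, (Fin (a b) ⊕ Fin (a b) → ℂ) →ₗ[ℂ] ℂ)
  (ε : L → (ℂ ≃+* ℂ) → ℂ)
  (hε : ∀ b σ w, lam b (DS (Zf b) σ *ᵥ w) = ε b σ * lam b w) (hsum : ∀ σ, ∑ b, ε b σ = 0)

variable (hs : ∀ b, IsSimpleAV (Zf b)) (hcm : ∀ b, HasCM (Zf b)) {m w : ℕ} (hm : ∀ b, a b ≤ m)

variable {B : Type} [Fintype B] [DecidableEq B] {T : Type} [AddCommGroup T] [Module ℂ T]
  {per : (B → ℚ) →+ T} {J : Matrix B B ℝ} (h : Cht per J) (hX : St.IsAV per)

include hZ hε hsum hs hcm hm h hX in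
theorem QL_pull (R : Matrix (BS a) B ℚ) (hR : cK ℂ R * DJ J = DJ (JS Zf) * cK ℂ R) :
    (fun v : L → B → ℚ => altQ (QL lam) (fun k => R *ᵥ v k)) ∈ RG' m w per L := by
  obtain ⟨n, c, l, hl⟩ := altQ_expand (QL lam)
  obtain ⟨Ψ, hΨ⟩ := h.hom (chtS hZ) hR
  have h1 : (fun v : L → B → ℚ => altQ (QL lam) (fun k => R *ᵥ v k)) =
      ∑ j, c j • fun v : L → B → ℚ => ((((ratA (QL lam) (l j)).compLinearMap
        (Matrix.toLin' R)) v : ℚ) : ℂ) := by
    funext v
    rw [hl, Finset.sum_apply]
    rfl
  rw [h1]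
  refine Submodule.sum_mem _ fun j _ => Submodule.smul_mem _ _ ?_
  refine RG_of ?_
  refine Generated.pull hX _ (Generated.cm (isAV_S hZ) (cmSimple_S hZ hs hcm hm) _
    (QL_hodge hZ lam ε hε hsum (l j))) _ ⟨Ψ, fun v => ?_⟩
  rw [toLin'_apply]
  exact hΨ v

include hZ hε hsum hs hcm hm h hX in
/-- **The complex multiplication lemma.** -/
theorem cm_memG (μ : L → (B → ℂ) →ₗ[ℂ] ℂ)
    (hμ : ∀ b, μ b ∈ Submodule.span ℂ (TF (Zf := Zf) (J := J) lam b))
    (ψ : MultilinearMap ℂ (fun _ : L => B → ℂ) ℂ) (hψ : ∀ v, ψ v = ∏ b, μ b (v b)) :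
    ψ ∈ NG m w per L := by
  intro i1 i2
  obtain rfl : i1 = iL := Subsingleton.elim _ _
  obtain rfl : i2 = dL := Subsingleton.elim _ _
  have h1 : altQ ψ = PF μ := by
    funext v
    rw [PF_apply]
    unfold altQ
    refine Finset.sum_congr rfl fun σ _ => ?_
    rw [hψ]
  rw [h1]
  refine multi_span' PF (RG' m w per L) (TF (Zf := Zf) (J := J) lam) (fun μ hμ => ?_) μ hμ
  choose R hR hμR using hμ
  choose R' hR' hcomm using hR
  have h2 := QL_pull (m := m) (w := w) hZ lam ε hε hsum hs hcm hm h hX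
    (Matrix.of fun i j => R' i.1 i.2 j) (by
      ext ⟨b, i⟩ j
      have e1 := congrFun (congrFun (hcomm b) i) j
      have e2 : (cK ℂ (Matrix.of fun (i : BS a) j => R' i.1 i.2 j) * DJ J) ⟨b, i⟩ j =
          (cK ℂ (R' b) * DJ J) i j := rfl
      rw [e2, e1, DJ_S]
      have e3 : (DD Zf (RingEquiv.refl ℂ) * cK ℂ (Matrix.of fun (i : BS a) j => R' i.1 i.2 j))
          ⟨b, i⟩ j = (DD Zf (RingEquiv.refl ℂ) *ᵥ fun i : BS a => ((R' i.1 i.2 j : ℚ) : ℂ))
            ⟨b, i⟩ := rfl
      rw [e3]
      unfold DD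
      rw [bd_mulVec]
      rfl)
  have h3 : PF μ = fun v : L → B → ℚ => altQ (QL lam)
      (fun k => (Matrix.of fun (i : BS a) j => R' i.1 i.2 j) *ᵥ v k) := by
    funext v
    rw [PF_apply]
    unfold altQ
    refine Finset.sum_congr rfl fun σ _ => ?_
    rw [QL_apply]
    congr 1
    refine Finset.prod_congr rfl fun b _ => ?_
    rw [hμR, LinearMap.comp_apply, mulVecLin_apply, hR']
    congr 1
    funext i
    simp [cv, mulVec, dotProduct, cK]
  rw [h3]
  exact h2

end fam

section push

variable {B B' : Type} [Fintype B] [DecidableEq B] [Fintype B'] [DecidableEq B']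
  {T T' : Type} [AddCommGroup T] [Module ℂ T] [AddCommGroup T'] [Module ℂ T']
  {per : (B → ℚ) →+ T} {per' : (B' → ℚ) →+ T'} {m w : ℕ}

theorem RG_push (hX : St.IsAV per) (hY : St.IsAV per') {κ : Type} {n : ℕ}
    (e : Basis (Fin n) ℚ (B' → ℚ)) {G : (κ ⊕ Fin n → (B ⊕ B' → ℚ)) → ℂ}
    (hG : G ∈ RG' m w (perP per per') (κ ⊕ Fin n)) :
    (fun v : κ → B → ℚ => G (Sum.elim (fun k => Sum.elim (v k) 0) (fun j => Sum.elim 0 (e j)))) ∈
      RG' m w per κ := by
  unfold RG' at hG
  induction hG using Submodule.span_induction with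
  | mem G hG =>
    obtain ⟨r, hr, rfl⟩ := hG
    have h1 : Generated m w (St.perProd per per') (κ ⊕ Fin n)
        (r.compLinearMap (AE B B').symm.toLinearMap) :=
      Generated.pull (isAV_prod hX hY) r hr _ ⟨LinearMap.id, fun v => rfl⟩
    let g : (B → ℚ) [⋀^κ]→ₗ[ℚ] ℚ :=
      { toFun := fun v => (r.compLinearMap (AE B B').symm.toLinearMap)
          (Sum.elim (fun k => (v k, 0)) (fun j => (0, e j)))
        map_update_add' := by
          intro dκ v k x y
          classical
          have e1 : ∀ z : B → ℚ, (Sum.elim (fun k' => ((Function.update v k z k', 0) :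
              (B → ℚ) × (B' → ℚ))) (fun j => (0, e j)) : κ ⊕ Fin n → (B → ℚ) × (B' → ℚ)) =
              Function.update (Sum.elim (fun k => (v k, 0)) (fun j => (0, e j))) (Sum.inl k)
                (z, 0) := by
            intro z
            funext k'
            rcases k' with k' | j
            · by_cases hk : k' = k
              · subst hk
                simp
              · rw [Function.update_of_ne (fun h => hk (Sum.inl.inj h))]
                simp [Function.update_of_ne hk]
            · rw [Function.update_of_ne (by simp)]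
              rfl
          rw [e1, e1, e1]
          have e2 : ((x + y, 0) : (B → ℚ) × (B' → ℚ)) = (x, 0) + (y, 0) := by
            rw [Prod.mk_add_mk, add_zero]
          rw [e2, AlternatingMap.map_update_add]
        map_update_smul' := by
          intro dκ v k c x
          classical
          have e1 : ∀ z : B → ℚ, (Sum.elim (fun k' => ((Function.update v k z k', 0) :
              (B → ℚ) × (B' → ℚ))) (fun j => (0, e j)) : κ ⊕ Fin n → (B → ℚ) × (B' → ℚ)) =
              Function.update (Sum.elim (fun k => (v k, 0)) (fun j => (0, e j))) (Sum.inl k)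
                (z, 0) := by
            intro z
            funext k'
            rcases k' with k' | j
            · by_cases hk : k' = k
              · subst hk
                simp
              · rw [Function.update_of_ne (fun h => hk (Sum.inl.inj h))]
                simp [Function.update_of_ne hk]
            · rw [Function.update_of_ne (by simp)]
              rfl
          rw [e1, e1]
          have e2 : ((c • x, 0) : (B → ℚ) × (B' → ℚ)) = c • (x, 0) := by
            rw [Prod.smul_mk, smul_zero]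
          rw [e2, AlternatingMap.map_update_smul]
        map_eq_zero_of_eq' := by
          intro v i j hv hij
          refine AlternatingMap.map_eq_zero_of_eq _ _ (i := Sum.inl i) (j := Sum.inl j) ?_
            (fun h => hij (Sum.inl.inj h))
          rw [Sum.elim_inl, Sum.elim_inl, hv] }
    have h2 : Generated m w per κ g :=
      Generated.push hX hY e _ h1 g fun v => rfl
    have h3 := RG_of h2
    have h4 : (fun v : κ → B → ℚ => ((r (Sum.elim (fun k => Sum.elim (v k) 0)
        (fun j => Sum.elim 0 (e j))) : ℚ) : ℂ)) = fun v => ((g v : ℚ) : ℂ) := by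
      funext v
      congr 1
      change r _ = r _
      congr 1
      funext k
      rcases k with k | k <;> rfl
    rw [h4]
    exact h3
  | zero => exact Submodule.zero_mem _
  | add x y _ _ hx hy => exact Submodule.add_mem _ hx hy
  | smul c x _ hx => exact Submodule.smul_mem _ c hx

variable {κ κ' : Type} [iκ : Fintype κ] [dκ : DecidableEq κ] [Fintype κ'] [DecidableEq κ']

/-- **The push-forward lemma.** -/
theorem push_memG (hX : St.IsAV per) (hY : St.IsAV per') {n : ℕ}
    (e : Basis (Fin n) ℚ (B' → ℚ)) {F : MultilinearMap ℂ (fun _ : κ ⊕ Fin n => B ⊕ B' → ℂ) ℂ}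
    {ψ : MultilinearMap ℂ (fun _ : κ => B → ℂ) ℂ}
    {θ : MultilinearMap ℂ (fun _ : Fin n => B' → ℂ) ℂ}
    (hF : ∀ w, F w = ψ (fun k i => w (Sum.inl k) (Sum.inl i)) *
      θ (fun k i => w (Sum.inr k) (Sum.inr i)))
    (hG : F ∈ NG m w (perP per per') (κ ⊕ Fin n)) (hθ : altQ θ (fun j => e j) ≠ 0) :
    ψ ∈ NG m w per κ := by
  intro i1 i2
  obtain rfl : i1 = iκ := Subsingleton.elim _ _
  obtain rfl : i2 = dκ := Subsingleton.elim _ _
  have h1 := RG_push (m := m) (w := w) hX hY e (hG inferInstance inferInstance)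
  have h2 : altQ ψ = (altQ θ (fun j => e j))⁻¹ • fun v : κ → B → ℚ => altQ F
      (Sum.elim (fun k => Sum.elim (v k) 0) (fun j => Sum.elim 0 (e j))) := by
    funext v
    rw [Pi.smul_apply, altQ_push hF, smul_eq_mul, mul_comm, mul_assoc, mul_inv_cancel₀ hθ, mul_one]
  rw [h2]
  exact Submodule.smul_mem _ _ h1

end push

end

end Pool.Agent.Y90.S
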