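import Mathlib
import Pool.Agent.Y90.NEll
import Pool.Agent.Y90.S.NRing

/-!
# Eigenspaces of imaginary quadratic multiplications
-/

set_option linter.unusedSectionVars false

namespace Pool.Agent.Y90.S

open Matrix Module Pool.Agent.W437.HC Pool.Agent.W437.HD Pool.Agent.W548.Odd Pool.Agent.TH504.CB
open Pool.Agent.H204R3.CM (IsHodge)
open Pool.Agent.H204R3.SP (Kills)
open Pool.Agent.W437.HP (cK cK_mul cK_one)

noncomputable section

variable {a : ℕ} {Z : Matrix (Fin a) (Fin a) ℂ} {U : Submodule ℂ (Fin a ⊕ Fin a → ℂ)}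
  {φ : Matrix (Fin a ⊕ Fin a) (Fin a ⊕ Fin a) ℚ} {α : ℂ} {d : ℚ}

/-- The eigenspace of a rational matrix. -/
def EG {B : Type*} [Fintype B] [DecidableEq B] (φ : Matrix B B ℚ) (α : ℂ) :
    Submodule ℂ (B → ℂ) := LinearMap.ker (mulVecLin (qm φ) - α • LinearMap.id)

theorem mem_EG {B : Type*} [Fintype B] [DecidableEq B] {φ : Matrix B B ℚ} {α : ℂ} {v : B → ℂ} :
    v ∈ EG φ α ↔ qm φ *ᵥ v = α • v := by
  rw [EG, LinearMap.mem_ker, LinearMap.sub_apply, sub_eq_zero]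
  rfl

/-- The eigenspace `U` (with the eigenvalue `α`) of a multiplication `φ` by an imaginary quadratic
number. -/
structure KW (Z : Matrix (Fin a) (Fin a) ℂ) (U : Submodule ℂ (Fin a ⊕ Fin a → ℂ))
    (φ : Matrix (Fin a ⊕ Fin a) (Fin a ⊕ Fin a) ℚ) (α : ℂ) (d : ℚ) : Prop where
  dim : finrank ℂ U = a
  comm : ∀ X ∈ LZ Z, X * qm φ = qm φ * X
  pos : 0 < d
  sq : φ * φ = -(d • (1 : Matrix (Fin a ⊕ Fin a) (Fin a ⊕ Fin a) ℚ))
  al : α * α = -(d : ℂ)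
  mem : ∀ v, v ∈ U ↔ qm φ *ᵥ v = α • v
  iso : ∀ u ∈ U, ∀ v ∈ U, om a u v = 0

theorem KW.stab (h : KW Z U φ α d) : Stab (LZ Z) U := by
  intro X hX u hu
  rw [h.mem] at hu ⊢
  rw [mulVec_mulVec, ← h.comm X hX, ← mulVec_mulVec, hu, mulVec_smul]

theorem _root_.Pool.Agent.Y90.KT.toKW (hZ : PM Z) (h : KT Z U φ α d) : KW Z U φ α d :=
  ⟨h.dim, h.comm, h.pos, h.sq, h.al, h.mem, fun _ hu _ hv => h.iso hZ hu hv⟩

theorem KW.cj (h : KW Z U φ α d) (τ : ℂ ≃+* ℂ) (v : Fin a ⊕ Fin a → ℂ) :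
    v ∈ cjS τ U ↔ qm φ *ᵥ v = τ α • v := by
  rw [mem_cjS, h.mem]
  have hq : (qm φ).map τ = qm φ := cK_aut τ φ
  have hq' : (qm φ).map τ.symm = qm φ := cK_aut τ.symm φ
  constructor
  · intro h1
    have h2 := map_mulVec_aut τ (qm φ) (fun i => τ.symm (v i))
    rw [h1, hq] at h2
    have h3 : (fun i => τ (τ.symm (v i))) = v := by
      funext i
      simp
    rw [h3] at h2
    rw [← h2]
    funext i
    simp
  · intro h1
    have h2 := map_mulVec_aut τ.symm (qm φ) v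
    rw [h1, hq'] at h2
    rw [← h2]
    funext i
    simp

theorem KW.cc_al (h : KW Z U φ α d) : cc α = -α := by
  rcases aut_pm h.al cc with h1 | h1
  · exfalso
    have h2 : α * (starRingEnd ℂ) α = (Complex.normSq α : ℂ) := Complex.mul_conj α
    have h3 : (starRingEnd ℂ) α = α := h1
    rw [h3, h.al] at h2
    have h4 : (-(d : ℝ)) = Complex.normSq α := by exact_mod_cast h2
    have h5 : (0 : ℝ) < d := by exact_mod_cast h.pos
    have h6 := Complex.normSq_nonneg α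
    linarith
  · exact h1

theorem KW.tr_cj (h : KW Z U φ α d) (τ : ℂ ≃+* ℂ) :
    (τ α = α ∧ tr Z (cjS τ U) = tr Z U) ∨ (τ α = -α ∧ tr Z (cjS τ U) = -tr Z U) := by
  rcases aut_pm h.al τ with h1 | h1
  · left
    refine ⟨h1, ?_⟩
    have h2 : cjS τ U = U := by
      ext v
      rw [h.cj, h1, h.mem]
    rw [h2]
  · right
    refine ⟨h1, ?_⟩
    have h2 : cjS τ U = cjS cc U := by
      ext v
      rw [h.cj, h.cj, h1, h.cc_al]
    rw [h2]
    unfold tr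
    rw [pd_cc, qd_cc]
    ring

theorem KW.al_ne (h : KW Z U φ α d) : α ≠ 0 := by
  rintro rfl
  have h1 := h.al
  rw [mul_zero, eq_comm, neg_eq_zero] at h1
  have h2 : d = 0 := by exact_mod_cast h1
  exact h.pos.ne' h2

theorem KW.sqv (h : KW Z U φ α d) (v : Fin a ⊕ Fin a → ℂ) :
    qm φ *ᵥ (qm φ *ᵥ v) = (α * α) • v := by
  rw [mulVec_mulVec, ← qm_mul, h.sq, h.al]
  have h1 : qm (-(d • (1 : Matrix (Fin a ⊕ Fin a) (Fin a ⊕ Fin a) ℚ))) = (-(d : ℂ)) • 1 := by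
    ext i j
    simp only [Matrix.map_apply, Matrix.neg_apply, Matrix.smul_apply, Matrix.one_apply, smul_eq_mul]
    split_ifs <;> simp
  rw [h1, smul_mulVec, one_mulVec]

theorem KW.pj_mem (h : KW Z U φ α d) (v : Fin a ⊕ Fin a → ℂ) : pj φ α v ∈ U := by
  rw [h.mem, pj_apply, mulVec_smul, mulVec_add, h.sqv, mulVec_smul]
  module

theorem KW.pj_of_mem (h : KW Z U φ α d) {v : Fin a ⊕ Fin a → ℂ} (hv : v ∈ U) : pj φ α v = v := by
  have h0 := h.al_ne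
  rw [pj_apply, (h.mem v).1 hv, ← two_smul ℂ (α • v), smul_smul, smul_smul]
  have h1 : (2 * α)⁻¹ * (2 * α) = 1 := inv_mul_cancel₀ (mul_ne_zero two_ne_zero h0)
  rw [mul_assoc, h1, one_smul]

/-- The projection to the eigenspace. -/
def KW.pU (h : KW Z U φ α d) : (Fin a ⊕ Fin a → ℂ) →ₗ[ℂ] U := (pj φ α).codRestrict U h.pj_mem

theorem KW.pU_coe (h : KW Z U φ α d) (v : Fin a ⊕ Fin a → ℂ) :
    (h.pU v : Fin a ⊕ Fin a → ℂ) = pj φ α v := rfl

theorem KW.pU_phi (h : KW Z U φ α d) (v : Fin a ⊕ Fin a → ℂ) : h.pU (qm φ *ᵥ v) = α • h.pU v := by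
  apply Subtype.ext
  change pj φ α _ = α • pj φ α v
  rw [pj_apply, pj_apply, h.sqv]
  module

theorem KW.pU_comm (h : KW Z U φ α d) {X : Matrix (Fin a ⊕ Fin a) (Fin a ⊕ Fin a) ℂ}
    (hX : X ∈ LZ Z) (v : Fin a ⊕ Fin a → ℂ) :
    (h.pU (X *ᵥ v) : Fin a ⊕ Fin a → ℂ) = X *ᵥ (h.pU v : Fin a ⊕ Fin a → ℂ) := by
  rw [h.pU_coe, h.pU_coe, pj_apply, pj_apply, mulVec_smul, mulVec_add, mulVec_smul, mulVec_mulVec,
    mulVec_mulVec, h.comm X hX]

theorem KW.pU_of_mem (h : KW Z U φ α d) {v : Fin a ⊕ Fin a → ℂ} (hv : v ∈ U) :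
    h.pU v = ⟨v, hv⟩ := Subtype.ext (h.pj_of_mem hv)

/-- The determinant form. -/
def KW.dl (h : KW Z U φ α d) {ι : Type} [Fintype ι] [DecidableEq ι] (f : Basis ι ℂ U) :
    MultilinearMap ℂ (fun _ : ι => Fin a ⊕ Fin a → ℂ) ℂ :=
  f.det.toMultilinearMap.compLinearMap (fun _ => h.pU)

theorem KW.dl_apply (h : KW Z U φ α d) {ι : Type} [Fintype ι] [DecidableEq ι] (f : Basis ι ℂ U)
    (v : ι → Fin a ⊕ Fin a → ℂ) : h.dl f v = f.det (fun y => h.pU (v y)) := rfl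

theorem KW.dl_phi (h : KW Z U φ α d) {ι : Type} [Fintype ι] [DecidableEq ι] (f : Basis ι ℂ U)
    (v : ι → Fin a ⊕ Fin a → ℂ) (y : ι) :
    h.dl f (Function.update v y (qm φ *ᵥ v y)) = α * h.dl f v := by
  rw [h.dl_apply, h.dl_apply]
  have h1 : (fun k => h.pU (Function.update v y (qm φ *ᵥ v y) k)) =
      Function.update (fun k => h.pU (v k)) y (α • h.pU (v y)) := by
    funext k
    by_cases hk : k = y
    · subst hk
      rw [Function.update_self, Function.update_self, h.pU_phi]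
    · rw [Function.update_of_ne hk, Function.update_of_ne hk]
  rw [h1, AlternatingMap.map_update_smul, Function.update_eq_self, smul_eq_mul]

theorem KW.dl_tor (hZ : PM Z) (h : KW Z U φ α d) {ι : Type} [Fintype ι] [DecidableEq ι]
    (f : Basis ι ℂ U) (σ : ℂ ≃+* ℂ) (v : ι → Fin a ⊕ Fin a → ℂ) :
    h.dl f (fun y => torE (ph _ (DS Z σ)) two (v y)) =
      (2 : ℂ) ^ tr Z (cjS σ.symm U) * h.dl f v := by
  have hst := rz_stable hZ h.stab (gs hZ σ)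
  rw [h.dl_apply, h.dl_apply, ← det_gs hZ h.stab σ hst, ← Basis.det_comp]
  congr 1
  funext y
  apply Subtype.ext
  change (h.pU (torE (ph _ (DS Z σ)) two (v y)) : Fin a ⊕ Fin a → ℂ) =
    torE (ph _ (DS Z σ)) two (h.pU (v y))
  rw [torE_two, torE_two, map_add, map_smul, map_smul]
  change (5 / 4 : ℂ) • (h.pU (v y) : Fin a ⊕ Fin a → ℂ) +
    (3 / 4 : ℂ) • (h.pU (DS Z σ *ᵥ v y) : Fin a ⊕ Fin a → ℂ) = _
  rw [h.pU_comm (DS_mem σ)]
  rfl

end

end Pool.Agent.Y90.S
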