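import Mathlib
import Pool.Agent.Y90.S.W3
import Pool.Agent.Y90.S.NPush
import Pool.Agent.Y90.NCore

/-!
# Definitions: real multiplication of a period matrix, powers of elliptic curves, blocks
-/

set_option linter.unusedSectionVars false

namespace Pool.Agent.Y90.S

open Matrix Module Pool.Agent.W437.HC Pool.Agent.W437.HD Pool.Agent.W548.Odd Pool.Agent.TH504.CB
open Pool.Agent.H204R3.CM (IsHodge)
open Pool.Agent.W437.HP (cK cK_mul cK_one)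

noncomputable section

/-- Real multiplication: a space `A` of endomorphisms of the period matrix `Z` which are
self-adjoint for the polarization `M`, and which is its own centralizer. -/
structure RMA {g : ℕ} (Z : Matrix (Fin g) (Fin g) ℂ) (M : Matrix (Fin g ⊕ Fin g) (Fin g ⊕ Fin g) ℚ)
    (A : Submodule ℚ (Matrix (Fin g ⊕ Fin g) (Fin g ⊕ Fin g) ℚ)) : Prop where
  skew : Mᵀ = -M
  inv : (DZ Z)ᵀ * qm M + qm M * DZ Z = 0
  pos : ∀ x : Fin g ⊕ Fin g → ℝ, x ≠ 0 → 0 < (JR Z *ᵥ x) ⬝ᵥ (cK ℝ M *ᵥ x)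
  comm : ∀ a ∈ A, qm a * DZ Z = DZ Z * qm a
  self : ∀ a ∈ A, aᵀ * M = M * a
  cent : ∀ b, qm b * DZ Z = DZ Z * qm b → (b ∈ A ↔ ∀ a ∈ A, a * b = b * a)

/-- The endomorphism algebra of the period matrix is the imaginary quadratic field generated by
`φ = √-d`. -/
structure IQ {g : ℕ} (Z : Matrix (Fin g) (Fin g) ℂ)
    (φ : Matrix (Fin g ⊕ Fin g) (Fin g ⊕ Fin g) ℚ) (d : ℚ) : Prop where
  pos : 0 < d
  sq : φ * φ = -(d • (1 : Matrix (Fin g ⊕ Fin g) (Fin g ⊕ Fin g) ℚ))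
  comm : qm φ * DZ Z = DZ Z * qm φ
  full : ∀ b, qm b * DZ Z = DZ Z * qm b → ∃ x y : ℚ, b = x • 1 + y • φ

/-- The period matrix of a power of an elliptic curve. -/
def ZT (t : ℕ) (d : ℚ) : Matrix (Fin t) (Fin t) ℂ := dE d • 1

/-- The endomorphism. -/
def phT (t : ℕ) (d : ℚ) : Matrix (Fin t ⊕ Fin t) (Fin t ⊕ Fin t) ℚ := fromBlocks 0 (-(d • 1)) 1 0

/-- A multilinear form `M` which belongs to the system after multiplication with `t` functionals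
given by homomorphisms to the elliptic curve `ZE d`. -/
def Blk (m w : ℕ) {B : Type} [Fintype B] [DecidableEq B] (J : Matrix B B ℝ) {ι : Type}
    [Fintype ι] [DecidableEq ι] (M : MultilinearMap ℂ (fun _ : ι => B → ℂ) ℂ)
    (ε : (ℂ ≃+* ℂ) → ℂ) : Prop :=
  ∃ (t : ℕ) (d : ℚ) (β : ℂ), 0 < d ∧ β ≠ 0 ∧ β * β = -(d : ℂ) ∧
    (∀ σ : ℂ ≃+* ℂ, ε σ = t * ((σ (dE d))⁻¹ * (-β))) ∧
    ∀ {B' : Type} [Fintype B'] [DecidableEq B'] {T' : Type} [AddCommGroup T'] [Module ℂ T']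
      {per' : (B' → ℚ) →+ T'} {J' : Matrix B' B' ℝ} (_ : Cht per' J') (_ : St.IsAV per')
      (P : Matrix B B' ℚ) (_ : cK ℂ P * DJ J' = DJ J * cK ℂ P)
      (R : Fin t → Matrix (Fin 1 ⊕ Fin 1) B' ℚ)
      (_ : ∀ j, cK ℂ (R j) * DJ J' = DZ (ZE d) * cK ℂ (R j))
      (F : MultilinearMap ℂ (fun _ : ι ⊕ Fin t => B' → ℂ) ℂ)
      (_ : ∀ v, F v = M (fun y => cK ℂ P *ᵥ v (Sum.inl y)) *
        ∏ j, lamE β (cK ℂ (R j) *ᵥ v (Sum.inr j))), F ∈ NG m w per' (ι ⊕ Fin t)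

end

end Pool.Agent.Y90.S
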