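import Mathlib
import Pool.Agent.Y90.S.Defs
import Pool.Agent.Y90.NAb

/-!
# Statements

`JRM`, `JRMdim`, `JOdd`, `JTwo`, `JCop`, `JTwoTwo`, `JIQ`: irreducible submodules of the complexified Hodge
Lie algebra `LZ Z`. `JTransR`, `JTransQ`: from abstract abelian subvarieties to period matrices.
`JDisc`: discriminants. `JCore`: balanced products of blocks.
-/

namespace Pool.Agent.Y90.S

open Matrix Module Pool.Agent.W437.HC Pool.Agent.W437.HD Pool.Agent.W548.Odd Pool.Agent.TH504.CB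
open Pool.Agent.H204R3.CM (IsHodge)
open Pool.Agent.W437.HP (cK cK_mul cK_one)

noncomputable section

/-- Irreducible submodules in the case of real multiplication: they are isomorphic to submodules on
which the polarization is nondegenerate. -/
def JRM : Prop :=
  ∀ (g : ℕ) (Z : Matrix (Fin g) (Fin g) ℂ) (_h : PM Z)
    (M : Matrix (Fin g ⊕ Fin g) (Fin g ⊕ Fin g) ℚ)
    (A : Submodule ℚ (Matrix (Fin g ⊕ Fin g) (Fin g ⊕ Fin g) ℚ)) (_r : RMA Z M A)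
    (U : Submodule ℂ (Fin g ⊕ Fin g → ℂ)) (_hU : IrS (LZ Z) U),
    ∃ S : (Fin g ⊕ Fin g → ℂ) →ₗ[ℂ] (Fin g ⊕ Fin g → ℂ),
      (∀ X ∈ LZ Z, ∀ v, S (X *ᵥ v) = X *ᵥ S v) ∧ (∀ u ∈ U, S u = 0 → u = 0) ∧
      ∀ u ∈ U.map S, (∀ v ∈ U.map S, u ⬝ᵥ (qm M *ᵥ v) = 0) → u = 0

/-- The dimension of the irreducible submodules in the case of real multiplication. -/
def JRMdim : Prop :=
  ∀ (g : ℕ) (Z : Matrix (Fin g) (Fin g) ℂ) (_h : PM Z) (_hs : IsSimpleAV Z)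
    (M : Matrix (Fin g ⊕ Fin g) (Fin g ⊕ Fin g) ℚ)
    (A : Submodule ℚ (Matrix (Fin g ⊕ Fin g) (Fin g ⊕ Fin g) ℚ)) (_r : RMA Z M A)
    (U : Submodule ℂ (Fin g ⊕ Fin g → ℂ)) (_hU : IrS (LZ Z) U),
    finrank ℂ U * finrank ℚ A = 2 * g

/-- Rank one elements: symplectic submodules of dimension `2k` with `k` odd. -/
def JOdd : Prop :=
  ∀ (g : ℕ) (Z : Matrix (Fin g) (Fin g) ℂ) (_h : PM Z)
    (M : Matrix (Fin g ⊕ Fin g) (Fin g ⊕ Fin g) ℂ) (_hM : Mᵀ = -M)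
    (_hinv : ∀ X ∈ LZ Z, Xᵀ * M + M * X = 0) (W : Submodule ℂ (Fin g ⊕ Fin g → ℂ))
    (_hW : IrS (LZ Z) W) (_hnd : ∀ u ∈ W, (∀ v ∈ W, u ⬝ᵥ (M *ᵥ v) = 0) → u = 0)
    (k : ℕ) (_hk : Odd k) (_hd : finrank ℂ W = 2 * k), Rk1 Z W

/-- Rank one elements: symplectic submodules of dimension four. -/
def JTwo : Prop :=
  ∀ (g : ℕ) (Z : Matrix (Fin g) (Fin g) ℂ) (_h : PM Z)
    (M : Matrix (Fin g ⊕ Fin g) (Fin g ⊕ Fin g) ℂ) (_hM : Mᵀ = -M)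
    (_hinv : ∀ X ∈ LZ Z, Xᵀ * M + M * X = 0) (W : Submodule ℂ (Fin g ⊕ Fin g → ℂ))
    (_hW : IrS (LZ Z) W) (_hnd : ∀ u ∈ W, (∀ v ∈ W, u ⬝ᵥ (M *ᵥ v) = 0) → u = 0)
    (_hd : finrank ℂ W = 4), Rk1 Z W

/-- Rank one elements: submodules on which the complex structure has eigenvalues with coprime
multiplicities. -/
def JCop : Prop :=
  ∀ (g : ℕ) (Z : Matrix (Fin g) (Fin g) ℂ) (_h : PM Z) (W : Submodule ℂ (Fin g ⊕ Fin g → ℂ))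
    (_hW : IrS (LZ Z) W) (_hp : 0 < pd Z W) (_hq : 0 < qd Z W)
    (_hc : Nat.Coprime (pd Z W) (qd Z W)), Rk1 Z W

/-- Rank one elements: submodules of dimension four which are not self-dual. -/
def JTwoTwo : Prop :=
  ∀ (g : ℕ) (Z : Matrix (Fin g) (Fin g) ℂ) (_h : PM Z) (W : Submodule ℂ (Fin g ⊕ Fin g → ℂ))
    (_hW : IrS (LZ Z) W) (_hd : finrank ℂ W = 4)
    (_hp : ∀ σ : ℂ ≃+* ℂ, pd Z (cjS σ W) = 2) (_hn : ¬SDu Z W), Rk1 Z W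

/-- Irreducible submodules if the endomorphism algebra is an imaginary quadratic field. -/
def JIQ : Prop :=
  ∀ (g : ℕ) (Z : Matrix (Fin g) (Fin g) ℂ) (_h : PM Z) (_hg : 0 < g)
    (φ : Matrix (Fin g ⊕ Fin g) (Fin g ⊕ Fin g) ℚ) (d : ℚ) (_q : IQ Z φ d) (α : ℂ)
    (_hα : α * α = -(d : ℂ)),
    KW Z (EG φ α) φ α d ∧ IrS (LZ Z) (EG φ α) ∧ ¬SDu Z (EG φ α) ∧
      ∀ U, IrS (LZ Z) U → U = EG φ α ∨ U = EG φ (-α)

/-- Real multiplication of abelian subvarieties and of period matrices. -/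
def JTransR : Prop :=
  ∀ (H T : Type) [AddCommGroup H] [Module ℚ H] [AddCommGroup T] [Module ℂ T] (per : H →+ T)
    (a : ℕ) (Z : Matrix (Fin a) (Fin a) ℂ) (_h : PM Z) (ι : (Fin a ⊕ Fin a → ℚ) →ₗ[ℚ] H)
    (π : H →ₗ[ℚ] (Fin a ⊕ Fin a → ℚ)) (Ψ₁ : (Fin a → ℂ) →ₗ[ℂ] T) (Ψ₂ : T →ₗ[ℂ] (Fin a → ℂ))
    (_hπι : ∀ y, π (ι y) = y) (_g₁ : ∀ y, Ψ₁ (perOne Z y) = per (ι y))
    (_g₂ : ∀ v, Ψ₂ (per v) = perOne Z (π v)) (k : ℕ)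
    (_hr : HasRealMult per (LinearMap.range ι) k),
    ∃ (M : Matrix (Fin a ⊕ Fin a) (Fin a ⊕ Fin a) ℚ)
      (A : Submodule ℚ (Matrix (Fin a ⊕ Fin a) (Fin a ⊕ Fin a) ℚ)), RMA Z M A ∧
      2 * a = 2 * k * finrank ℚ A

/-- Imaginary quadratic multiplication of abelian subvarieties and of period matrices. -/
def JTransQ : Prop :=
  ∀ (H T : Type) [AddCommGroup H] [Module ℚ H] [AddCommGroup T] [Module ℂ T] (per : H →+ T)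
    (a : ℕ) (Z : Matrix (Fin a) (Fin a) ℂ) (_h : PM Z) (ι : (Fin a ⊕ Fin a → ℚ) →ₗ[ℚ] H)
    (π : H →ₗ[ℚ] (Fin a ⊕ Fin a → ℚ)) (Ψ₁ : (Fin a → ℂ) →ₗ[ℂ] T) (Ψ₂ : T →ₗ[ℂ] (Fin a → ℂ))
    (_hπι : ∀ y, π (ι y) = y) (_g₁ : ∀ y, Ψ₁ (perOne Z y) = per (ι y))
    (_g₂ : ∀ v, Ψ₂ (per v) = perOne Z (π v)) (p q : ℕ)
    (_hr : HasQuadMult per (LinearMap.range ι) p q),
    ∃ (d : ℚ) (φ : Matrix (Fin a ⊕ Fin a) (Fin a ⊕ Fin a) ℚ), IQ Z φ d ∧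
      ((pd Z (EG φ (dE d)) = p ∧ qd Z (EG φ (dE d)) = q) ∨
        (pd Z (EG φ (dE d)) = q ∧ qd Z (EG φ (dE d)) = p))

/-- The discriminant of the product with a power of an elliptic curve is trivial for a suitable
polarization. -/
def JDisc : Prop :=
  ∀ (a : ℕ) (Z : Matrix (Fin a) (Fin a) ℂ) (_h : PM Z) (U : Submodule ℂ (Fin a ⊕ Fin a → ℂ))
    (φ : Matrix (Fin a ⊕ Fin a) (Fin a ⊕ Fin a) ℚ) (α : ℂ) (d : ℚ) (_k : KW Z U φ α d)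
    (t : ℕ) (_ht : 1 ≤ t) (s : ℚ) (_hs : s * s = 1)
    (_htr : tr Z U + tr (ZT t d) (EG (s • phT t d) α) = 0),
    TrivialDisc (perP (perOne Z) (perOne (ZT t d))) (a + t) d
      (Matrix.toLin' (PH φ (s • phT t d)))

/-- Balanced products of blocks and lines belong to the system. -/
def JCore : Prop :=
  ∀ (m w : ℕ) (_hm : 1 ≤ m) (n : ℕ) (B : Type) [Fintype B] [DecidableEq B] (T : Type)
    [AddCommGroup T] [Module ℂ T] (per : (B → ℚ) →+ T) (J : Matrix B B ℝ) (_h : Cht per J)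
    (_hX : St.IsAV per) (ι : Fin n → Type) [∀ q, Fintype (ι q)] [∀ q, DecidableEq (ι q)]
    (M : ∀ q, MultilinearMap ℂ (fun _ : ι q => B → ℂ) ℂ) (εM : Fin n → (ℂ ≃+* ℂ) → ℂ)
    (_hM : ∀ q, Blk m w J (M q) (εM q)) (L : Type) [Fintype L] [DecidableEq L]
    (μ : L → (B → ℂ) →ₗ[ℂ] ℂ) (εL : L → (ℂ ≃+* ℂ) → ℂ) (_hL : ∀ b, LineG m J (μ b) (εL b))
    (_hsum : ∀ σ, ∑ q, εM q σ + ∑ b, εL b σ = 0)
    (ψ : MultilinearMap ℂ (fun _ : (Σ q, ι q) ⊕ L => B → ℂ) ℂ)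
    (_hψ : ∀ v, ψ v = (∏ q, M q (fun y => v (Sum.inl ⟨q, y⟩))) * ∏ b, μ b (v (Sum.inr b))),
    ψ ∈ NG m w per ((Σ q, ι q) ⊕ L)

end

end Pool.Agent.Y90.S
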