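import Mathlib
import Pool.Agent.Y90.S.W1

/-!
# Weil classes on products and their pull-backs
-/

set_option linter.unusedSectionVars false

namespace Pool.Agent.Y90.S

open Matrix Module Pool.Agent.W437.HC Pool.Agent.W437.HD Pool.Agent.W548.Odd Pool.Agent.TH504.CB
open Pool.Agent.H204R3.CM (IsHodge)
open Pool.Agent.H204R3.SP (Kills)
open Pool.Agent.W437.HP (cK cK_mul cK_one)

noncomputable section

variable {a₁ a₂ : ℕ} {Z₁ : Matrix (Fin a₁) (Fin a₁) ℂ} {Z₂ : Matrix (Fin a₂) (Fin a₂) ℂ}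
  (h₁ : PM Z₁) (h₂ : PM Z₂)
  {U₁ : Submodule ℂ (Fin a₁ ⊕ Fin a₁ → ℂ)} {U₂ : Submodule ℂ (Fin a₂ ⊕ Fin a₂ → ℂ)}
  {φ₁ : Matrix (Fin a₁ ⊕ Fin a₁) (Fin a₁ ⊕ Fin a₁) ℚ}
  {φ₂ : Matrix (Fin a₂ ⊕ Fin a₂) (Fin a₂ ⊕ Fin a₂) ℚ} {α : ℂ} {d : ℚ}
  (k₁ : KW Z₁ U₁ φ₁ α d) (k₂ : KW Z₂ U₂ φ₂ α d)
  {ι ι' : Type} [Fintype ι] [DecidableEq ι] [Fintype ι'] [DecidableEq ι']
  (f₁ : Basis ι ℂ U₁) (f₂ : Basis ι' ℂ U₂)

/-- The form defining the Weil classes. -/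
def GY : MultilinearMap ℂ (fun _ : ι ⊕ ι' => (Fin a₁ ⊕ Fin a₁) ⊕ (Fin a₂ ⊕ Fin a₂) → ℂ) ℂ :=
  prd ((k₁.dl f₁).compLinearMap (fun _ => LinearMap.funLeft ℂ ℂ Sum.inl))
    ((k₂.dl f₂).compLinearMap (fun _ => LinearMap.funLeft ℂ ℂ Sum.inr))

theorem GY_apply (w : ι ⊕ ι' → (Fin a₁ ⊕ Fin a₁) ⊕ (Fin a₂ ⊕ Fin a₂) → ℂ) :
    GY k₁ k₂ f₁ f₂ w = k₁.dl f₁ (fun y i => w (Sum.inl y) (Sum.inl i)) *
      k₂.dl f₂ (fun y i => w (Sum.inr y) (Sum.inr i)) := rfl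

/-- The endomorphism may be moved. -/
theorem GY_PH (w : ι ⊕ ι' → (Fin a₁ ⊕ Fin a₁) ⊕ (Fin a₂ ⊕ Fin a₂) → ℂ) (k : ι ⊕ ι') :
    GY k₁ k₂ f₁ f₂ (Function.update w k (qm (PH φ₁ φ₂) *ᵥ w k)) = α * GY k₁ k₂ f₁ f₂ w := by
  rw [GY_apply, GY_apply]
  rcases k with k | k
  · have e1 : (fun (y : ι) i => Function.update w (Sum.inl k) (qm (PH φ₁ φ₂) *ᵥ w (Sum.inl k))
        (Sum.inl y) (Sum.inl i)) = Function.update (fun (y : ι) i => w (Sum.inl y) (Sum.inl i)) k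
          (qm φ₁ *ᵥ fun i => w (Sum.inl k) (Sum.inl i)) := by
      funext y
      by_cases hy : y = k
      · subst hy
        rw [Function.update_self, Function.update_self, ← PH_l (φ₂ := φ₂)]
      · rw [Function.update_of_ne hy, Function.update_of_ne (fun h => hy (Sum.inl_injective h))]
    have e2 : (fun (y : ι') i => Function.update w (Sum.inl k) (qm (PH φ₁ φ₂) *ᵥ w (Sum.inl k))
        (Sum.inr y) (Sum.inr i)) = fun y i => w (Sum.inr y) (Sum.inr i) := by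
      funext y
      rw [Function.update_of_ne (by simp)]
    have e3 := k₁.dl_phi f₁ (fun y i => w (Sum.inl y) (Sum.inl i)) k
    rw [e1, e2, e3, mul_assoc]
  · have e1 : (fun (y : ι') i => Function.update w (Sum.inr k) (qm (PH φ₁ φ₂) *ᵥ w (Sum.inr k))
        (Sum.inr y) (Sum.inr i)) = Function.update (fun (y : ι') i => w (Sum.inr y) (Sum.inr i)) k
          (qm φ₂ *ᵥ fun i => w (Sum.inr k) (Sum.inr i)) := by
      funext y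
      by_cases hy : y = k
      · subst hy
        rw [Function.update_self, Function.update_self, ← PH_r (φ₁ := φ₁)]
      · rw [Function.update_of_ne hy, Function.update_of_ne (fun h => hy (Sum.inr_injective h))]
    have e2 : (fun (y : ι) i => Function.update w (Sum.inr k) (qm (PH φ₁ φ₂) *ᵥ w (Sum.inr k))
        (Sum.inl y) (Sum.inl i)) = fun y i => w (Sum.inl y) (Sum.inl i) := by
      funext y
      rw [Function.update_of_ne (by simp)]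
    have e3 := k₂.dl_phi f₂ (fun y i => w (Sum.inr y) (Sum.inr i)) k
    rw [e1, e2, e3]
    ring

variable (t : tr Z₁ U₁ + tr Z₂ U₂ = 0)

include k₁ k₂ t in
theorem tr_sum (τ : ℂ ≃+* ℂ) : tr Z₁ (cjS τ U₁) + tr Z₂ (cjS τ U₂) = 0 := by
  have h0 := k₁.al_ne
  have h1 : (2 : ℂ) * α ≠ 0 := mul_ne_zero two_ne_zero h0
  rcases k₁.tr_cj τ with ⟨h2, h3⟩ | ⟨h2, h3⟩ <;> rcases k₂.tr_cj τ with ⟨h4, h5⟩ | ⟨h4, h5⟩
  · rw [h3, h5, t]
  · exfalso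
    apply h1
    linear_combination h4 - h2
  · exfalso
    apply h1
    linear_combination h2 - h4
  · rw [h3, h5, ← neg_add, t, neg_zero]

include h₁ h₂ t in
theorem GY_kill : ∀ X ∈ LP Z₁ Z₂, act X (CF (GY k₁ k₂ f₁ f₂)) = 0 := by
  have h1 : LP Z₁ Z₂ ≤ LinearMap.ker (actL (CF (GY k₁ k₂ f₁ f₂))) := by
    refine Submodule.span_le.2 ?_
    rintro _ ⟨σ, rfl⟩
    rw [SetLike.mem_coe, LinearMap.mem_ker, actL_apply]
    refine kill_of_inv (DP_sq h₁ h₂ σ) fun w => ?_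
    rw [GY_apply, GY_apply]
    have e1 := k₁.dl_tor h₁ f₁ σ (fun y i => w (Sum.inl y) (Sum.inl i))
    have e2 := k₂.dl_tor h₂ f₂ σ (fun y i => w (Sum.inr y) (Sum.inr i))
    have e3 : (fun (y : ι) i => torE (ph _ (DP Z₁ Z₂ σ)) two (w (Sum.inl y)) (Sum.inl i)) =
        fun y => torE (ph _ (DS Z₁ σ)) two fun i => w (Sum.inl y) (Sum.inl i) := by
      funext y
      exact torP_l σ (w (Sum.inl y))
    have e4 : (fun (y : ι') i => torE (ph _ (DP Z₁ Z₂ σ)) two (w (Sum.inr y)) (Sum.inr i)) =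
        fun y => torE (ph _ (DS Z₂ σ)) two fun i => w (Sum.inr y) (Sum.inr i) := by
      funext y
      exact torP_r σ (w (Sum.inr y))
    rw [e3, e4, e1, e2, mul_mul_mul_comm, ← zpow_add₀ two_ne_zero,
      tr_sum k₁ k₂ t σ.symm, zpow_zero, one_mul]
  intro X hX
  have h2 := h1 hX
  rwa [LinearMap.mem_ker, actL_apply] at h2

include h₁ h₂ t in
/-- The rational parts are Hodge classes. -/
theorem GY_hodge (l : ℂ →ₗ[ℚ] ℚ) :
    IsHodge (perP (perOne Z₁) (perOne Z₂)) (ratA (GY k₁ k₂ f₁ f₂) l) := by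
  refine (h₁.cht.prod h₂.cht).hodge_rat gal_LP ?_ (GY_kill h₁ h₂ k₁ k₂ f₁ f₂ t) l
  rw [DJ_prod]
  exact Submodule.subset_span ⟨_, rfl⟩

/-- The endomorphism may be moved in the rational parts. -/
theorem ratA_move (l : ℂ →ₗ[ℚ] ℚ) (v : ι ⊕ ι' → (Fin a₁ ⊕ Fin a₁) ⊕ (Fin a₂ ⊕ Fin a₂) → ℚ)
    (k : ι ⊕ ι') : ratA (GY k₁ k₂ f₁ f₂) l (Function.update v k (PH φ₁ φ₂ *ᵥ v k)) =
      ∑ σ : Equiv.Perm (ι ⊕ ι'), ((Equiv.Perm.sign σ : ℤ) : ℚ) *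
        l (α * GY k₁ k₂ f₁ f₂ (fun k => cv (v (σ k)))) := by
  rw [ratA_apply]
  refine Finset.sum_congr rfl fun σ _ => ?_
  congr 2
  rw [← GY_PH k₁ k₂ f₁ f₂ _ (σ.symm k)]
  congr 1
  funext j
  by_cases hj : j = σ.symm k
  · subst hj
    rw [Function.update_self, Equiv.apply_symm_apply, Function.update_self]
    funext i
    simp [cv, mulVec, dotProduct]
  · rw [Function.update_of_ne hj, Function.update_of_ne]
    intro h
    exact hj (by rw [← h, Equiv.symm_apply_apply])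

include k₁ k₂ f₁ f₂ in
theorem card_idx : Fintype.card (ι ⊕ ι') = a₁ + a₂ := by
  rw [Fintype.card_sum, ← finrank_eq_card_basis f₁, ← finrank_eq_card_basis f₂, k₁.dim, k₂.dim]

include k₁ k₂ in
theorem PH_comm : cK ℂ (PH φ₁ φ₂) * DJ (fromBlocks (JR Z₁) 0 0 (JR Z₂)) =
    DJ (fromBlocks (JR Z₁) 0 0 (JR Z₂)) * cK ℂ (PH φ₁ φ₂) := by
  have h1 : cK ℂ (PH φ₁ φ₂) = fromBlocks (qm φ₁) 0 0 (qm φ₂) := qm_PH
  rw [DJ_prod, h1]
  unfold DP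
  rw [fromBlocks_multiply, fromBlocks_multiply, k₁.comm _ (DS_mem _), k₂.comm _ (DS_mem _)]
  simp only [Matrix.mul_zero, Matrix.zero_mul, add_zero, zero_add]

include k₁ k₂ in
theorem PH_sq (w : (Fin a₁ ⊕ Fin a₁) ⊕ (Fin a₂ ⊕ Fin a₂) → ℚ) :
    PH φ₁ φ₂ *ᵥ (PH φ₁ φ₂ *ᵥ w) = -(d • w) := by
  have h1 : PH φ₁ φ₂ * PH φ₁ φ₂ = -(d • 1) := by
    have h2 : (-(d • 1) : Matrix ((Fin a₁ ⊕ Fin a₁) ⊕ (Fin a₂ ⊕ Fin a₂))
        ((Fin a₁ ⊕ Fin a₁) ⊕ (Fin a₂ ⊕ Fin a₂)) ℚ) = fromBlocks (-(d • 1)) 0 0 (-(d • 1)) := by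
      rw [show (1 : Matrix ((Fin a₁ ⊕ Fin a₁) ⊕ (Fin a₂ ⊕ Fin a₂))
        ((Fin a₁ ⊕ Fin a₁) ⊕ (Fin a₂ ⊕ Fin a₂)) ℚ) = fromBlocks 1 0 0 1 from fromBlocks_one.symm,
        fromBlocks_smul, fromBlocks_neg, smul_zero, smul_zero, neg_zero, neg_zero]
    rw [h2]
    unfold PH
    rw [fromBlocks_multiply, k₁.sq, k₂.sq]
    simp only [Matrix.mul_zero, Matrix.zero_mul, add_zero, zero_add]
  rw [mulVec_mulVec, h1, neg_mulVec, smul_mulVec, one_mulVec]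

variable (hdisc : a₁ + a₂ ≠ 4 → TrivialDisc (perP (perOne Z₁) (perOne Z₂)) (a₁ + a₂) d
  (Matrix.toLin' (PH φ₁ φ₂)))

include t hdisc h₁ h₂ in
theorem weil_class (l : ℂ →ₗ[ℚ] ℚ) {n : ℕ}
    (e : ι ⊕ ι' ≃ Fin n) :
    IsWeil (perP (perOne Z₁) (perOne Z₂)) n ((ratA (GY k₁ k₂ f₁ f₂) l).domDomCongr e) := by
  have hn : n = a₁ + a₂ := by
    rw [← card_idx k₁ k₂ f₁ f₂, Fintype.card_congr e, Fintype.card_fin]
  refine ⟨?_, isHodge_congr e (GY_hodge h₁ h₂ k₁ k₂ f₁ f₂ t l), d, Matrix.toLin' (PH φ₁ φ₂),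
    k₁.pos, ?_, fun w => ?_, fun v k k' => ?_, fun h6 => ?_⟩
  · change finrank ℚ ((Fin a₁ ⊕ Fin a₁) ⊕ (Fin a₂ ⊕ Fin a₂) → ℚ) = 2 * n
    rw [finrank_fintype_fun_eq_card]
    simp only [Fintype.card_sum, Fintype.card_fin]
    omega
  · obtain ⟨Ψ, hΨ⟩ := (h₁.cht.prod h₂.cht).hom (h₁.cht.prod h₂.cht) (PH_comm k₁ k₂)
    exact ⟨Ψ, fun v => by rw [toLin'_apply]; exact hΨ v⟩
  · rw [toLin'_apply, toLin'_apply]
    exact PH_sq k₁ k₂ w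
  · have key : ∀ k, (ratA (GY k₁ k₂ f₁ f₂) l).domDomCongr e
        (Function.update v k (Matrix.toLin' (PH φ₁ φ₂) (v k))) =
        ∑ σ : Equiv.Perm (ι ⊕ ι'), ((Equiv.Perm.sign σ : ℤ) : ℚ) *
          l (α * GY k₁ k₂ f₁ f₂ (fun k => cv (v (e (σ k))))) := by
      intro k
      rw [AlternatingMap.domDomCongr_apply, toLin'_apply]
      have h1 := ratA_move k₁ k₂ f₁ f₂ l (fun j => v (e j)) (e.symm k)
      rw [Equiv.apply_symm_apply] at h1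
      rw [← h1]
      congr 1
      funext j
      rw [Function.comp_apply]
      by_cases hj : j = e.symm k
      · subst hj
        rw [Equiv.apply_symm_apply, Function.update_self, Function.update_self]
      · rw [Function.update_of_ne hj, Function.update_of_ne]
        intro h
        exact hj (by rw [← h, Equiv.symm_apply_apply])
    rw [key k, key k']
  · subst hn
    exact hdisc h6

/-- The alternating form. -/
def KW.altF {a : ℕ} {Z : Matrix (Fin a) (Fin a) ℂ} {U : Submodule ℂ (Fin a ⊕ Fin a → ℂ)}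
    {φ : Matrix (Fin a ⊕ Fin a) (Fin a ⊕ Fin a) ℚ} {α : ℂ} {d : ℚ} (k : KW Z U φ α d)
    {ι : Type} [Fintype ι] [DecidableEq ι] (f : Basis ι ℂ U) :
    (Fin a ⊕ Fin a → ℂ) [⋀^ι]→ₗ[ℂ] ℂ := f.det.compLinearMap k.pU

variable {B : Type} [Fintype B] [DecidableEq B] {T : Type} [AddCommGroup T] [Module ℂ T]
  {per : (B → ℚ) →+ T} {J : Matrix B B ℝ} (h : Cht per J) (hX : St.IsAV per) {m w : ℕ}
  (o4 : 4 ≤ a₁ + a₂) (ow : a₁ + a₂ ≤ 2 * w)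

section pull

variable {R₁ : Matrix (Fin a₁ ⊕ Fin a₁) B ℚ} {R₂ : Matrix (Fin a₂ ⊕ Fin a₂) B ℚ}
  (c₁ : cK ℂ R₁ * DJ J = DZ Z₁ * cK ℂ R₁) (c₂ : cK ℂ R₂ * DJ J = DZ Z₂ * cK ℂ R₂)

include h₁ h₂ t c₁ c₂ h hX hdisc o4 ow in
theorem pull_memG (l : ℂ →ₗ[ℚ] ℚ) : Generated m w per (ι ⊕ ι')
      ((ratA (GY k₁ k₂ f₁ f₂) l).compLinearMap (Matrix.toLin' (fromRows R₁ R₂))) := by
  obtain ⟨Ψ, hΨ⟩ := h.hom (h₁.cht.prod h₂.cht) (rows_commG c₁ c₂)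
  have hΨ' : ∀ v, Ψ (per v) = perP (perOne Z₁) (perOne Z₂)
      (Matrix.toLin' (fromRows R₁ R₂) v) := fun v => by
    rw [toLin'_apply]
    exact hΨ v
  have hc := card_idx k₁ k₂ f₁ f₂
  let e : ι ⊕ ι' ≃ Fin (a₁ + a₂) := Fintype.equivFinOfCardEq hc
  have h3 : Generated m w (AVP h₁ h₂).per (Fin (a₁ + a₂))
      ((ratA (GY k₁ k₂ f₁ f₂) l).domDomCongr e) :=
    Generated.weil (isAV_AV _) o4 ow _ (weil_class h₁ h₂ k₁ k₂ f₁ f₂ t hdisc l e)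
  have h4 := Generated.reindex e.symm _
    (Generated.pull (per := per) hX _ h3 (Matrix.toLin' (fromRows R₁ R₂)) ⟨Ψ, hΨ'⟩)
  have h5 : ((((ratA (GY k₁ k₂ f₁ f₂) l).domDomCongr e).compLinearMap
      (Matrix.toLin' (fromRows R₁ R₂))).domDomCongr e.symm) =
      (ratA (GY k₁ k₂ f₁ f₂) l).compLinearMap (Matrix.toLin' (fromRows R₁ R₂)) := by
    ext v
    rw [AlternatingMap.domDomCongr_apply, AlternatingMap.compLinearMap_apply,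
      AlternatingMap.domDomCongr_apply, AlternatingMap.compLinearMap_apply]
    congr 1
    funext k
    simp
  rw [← h5]
  exact h4

include h₁ h₂ t c₁ c₂ h hX hdisc o4 ow in
theorem diag_memG :
    (fun v : ι ⊕ ι' → B → ℚ =>
      altQ (GY k₁ k₂ f₁ f₂) (fun k => fromRows R₁ R₂ *ᵥ v k)) ∈ RG' m w per (ι ⊕ ι') := by
  obtain ⟨n, c, l, hl⟩ := altQ_expand (GY k₁ k₂ f₁ f₂)
  have h1 : (fun v : ι ⊕ ι' → B → ℚ =>
      altQ (GY k₁ k₂ f₁ f₂) (fun k => fromRows R₁ R₂ *ᵥ v k)) =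
      ∑ j, c j • fun v : ι ⊕ ι' → B → ℚ => ((((ratA (GY k₁ k₂ f₁ f₂) (l j)).compLinearMap
        (Matrix.toLin' (fromRows R₁ R₂))) v : ℚ) : ℂ) := by
    funext v
    rw [hl, Finset.sum_apply]
    rfl
  rw [h1]
  refine Submodule.sum_mem _ fun j _ => Submodule.smul_mem _ _ ?_
  exact RG_of (pull_memG h₁ h₂ k₁ k₂ f₁ f₂ t hdisc h hX o4 ow c₁ c₂ (l j))

end pull

include h₁ h₂ t h hX hdisc o4 ow in
/-- The product of the two determinants belongs to the system. -/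
theorem pair_memG (R : ι → Matrix (Fin a₁ ⊕ Fin a₁) B ℂ) (R' : ι' → Matrix (Fin a₂ ⊕ Fin a₂) B ℂ)
    (hR : ∀ y, R y ∈ Submodule.span ℂ (TJ (DJ J) (DZ Z₁) : Set (Matrix (Fin a₁ ⊕ Fin a₁) B ℂ)))
    (hR' : ∀ y, R' y ∈ Submodule.span ℂ (TJ (DJ J) (DZ Z₂) : Set (Matrix (Fin a₂ ⊕ Fin a₂) B ℂ)))
    (ψ : MultilinearMap ℂ (fun _ : ι ⊕ ι' => B → ℂ) ℂ)
    (hψ : ∀ v, ψ v = k₁.altF f₁ (fun y => R y *ᵥ v (Sum.inl y)) *
      k₂.altF f₂ (fun y => R' y *ᵥ v (Sum.inr y))) : ψ ∈ NG m w per (ι ⊕ ι') := by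
  intro i1 i2
  obtain rfl : i1 = instFintypeSum ι ι' := Subsingleton.elim _ _
  obtain rfl : i2 = instDecidableEqSum := Subsingleton.elim _ _
  have h1 : altQ ψ = NN (k₁.altF f₁) (k₂.altF f₂) R R' := by
    funext v
    unfold altQ NN
    refine Finset.sum_congr rfl fun σ _ => ?_
    rw [hψ]
  rw [h1]
  refine NN_mem (k₁.altF f₁) (k₂.altF f₂) (RG' m w per (ι ⊕ ι')) (TJ (DJ J) (DZ Z₁))
    (TJ (DJ J) (DZ Z₂)) ?_ _ _ hR hR'
  rintro _ ⟨R, rfl, hR⟩ _ ⟨R', rfl, hR'⟩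
  have h2 := diag_memG (m := m) (w := w) h₁ h₂ k₁ k₂ f₁ f₂ t hdisc h hX o4 ow hR hR'
  have h3 : NN (k₁.altF f₁) (k₂.altF f₂) (fun _ => cK ℂ R) (fun _ => cK ℂ R') =
      fun v : ι ⊕ ι' → B → ℚ => altQ (GY k₁ k₂ f₁ f₂)
        (fun k => fromRows R R' *ᵥ v k) := by
    funext v
    unfold altQ NN
    refine Finset.sum_congr rfl fun σ _ => ?_
    rw [GY_apply]
    have h4 : (fun y => k₁.pU (cK ℂ R *ᵥ cv (v (σ (Sum.inl y))))) =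
        fun y => k₁.pU (fun j => cv (fromRows R R' *ᵥ v (σ (Sum.inl y))) (Sum.inl j)) := by
      funext y
      exact congrArg k₁.pU (cv_rows_l R R' (v (σ (Sum.inl y)))).symm
    have h5 : (fun y => k₂.pU (cK ℂ R' *ᵥ cv (v (σ (Sum.inr y))))) =
        fun y => k₂.pU (fun j => cv (fromRows R R' *ᵥ v (σ (Sum.inr y))) (Sum.inr j)) := by
      funext y
      exact congrArg k₂.pU (cv_rows_r R R' (v (σ (Sum.inr y)))).symm
    exact congrArg (fun x : ℂ => ((Equiv.Perm.sign σ : ℤ) : ℂ) * x) (congrArg₂ (· * ·)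
      (congrArg f₁.det h4) (congrArg f₂.det h5))
  rw [h3]
  exact h2

end

end Pool.Agent.Y90.S
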