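import Mathlib
import Pool.Agent.Y90.S.W6
import Pool.Agent.Y90.S.Defs

/-!
# Powers of elliptic curves
-/

set_option linter.unusedSectionVars false

namespace Pool.Agent.Y90.S

open Matrix Module Pool.Agent.W437.HC Pool.Agent.W437.HD Pool.Agent.W548.Odd Pool.Agent.TH504.CB
open Pool.Agent.H204R3.CM (IsHodge)
open Pool.Agent.W437.HP (cK cK_mul cK_one)

noncomputable section

variable {d : ℚ} (hd : 0 < d) (t : ℕ)

theorem reZT : reM (ZT t d) = 0 := by
  ext i j
  simp only [reM, ZT, Matrix.map_apply, Matrix.smul_apply, Matrix.one_apply, smul_eq_mul,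
    Matrix.zero_apply]
  split_ifs <;> simp [dE]

theorem imZT : imM (ZT t d) = Real.sqrt d • (1 : Matrix (Fin t) (Fin t) ℝ) := by
  ext i j
  simp only [imM, ZT, Matrix.map_apply, Matrix.smul_apply, Matrix.one_apply, smul_eq_mul]
  split_ifs <;> simp [dE]

include hd

theorem pmT : PM (ZT t d) := by
  refine ⟨?_, ?_⟩
  · unfold ZT
    rw [transpose_smul, transpose_one]
  · rw [imZT]
    exact PosDef.smul PosDef.one (sqrt_pos hd)

theorem JRT : JR (ZT t d) = (Real.sqrt d)⁻¹ • cK ℝ (phT t d) := by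
  have h1 := sqrt_pos hd
  have h2 : (imM (ZT t d))⁻¹ = (Real.sqrt d)⁻¹ • (1 : Matrix (Fin t) (Fin t) ℝ) := by
    rw [imZT]
    refine Matrix.inv_eq_right_inv ?_
    rw [smul_mul_smul_comm, mul_inv_cancel₀ h1.ne', one_smul, Matrix.one_mul]
  have h3 : Real.sqrt d = (Real.sqrt d)⁻¹ * d := by
    have h4 : Real.sqrt d * Real.sqrt d = d := Real.mul_self_sqrt (by exact_mod_cast hd.le)
    rw [eq_inv_mul_iff_mul_eq₀ h1.ne', h4]
  unfold JR
  rw [h2, reZT, imZT]
  ext i j
  rcases i with i | i <;> rcases j with j | j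
  · simp [phT, cK]
  · by_cases hij : i = j
    · subst hij
      simp only [Matrix.zero_mul, Matrix.mul_zero, sub_zero, fromBlocks_apply₁₂, Matrix.neg_apply,
        Matrix.smul_apply, Matrix.one_apply_eq, smul_eq_mul, mul_one, phT, cK, Matrix.map_apply,
        Rat.cast_neg, mul_neg]
      rw [← h3]
    · simp [phT, cK, hij]
  · by_cases hij : i = j
    · subst hij
      simp [phT, cK]
    · simp [phT, cK, hij]
  · simp [phT, cK]

theorem DZT : DZ (ZT t d) = (dE d)⁻¹ • qm (phT t d) := by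
  have h2 : (dE d)⁻¹ = -Complex.I * ((Real.sqrt d : ℝ) : ℂ)⁻¹ := by
    unfold dE
    rw [mul_inv, Complex.inv_I, mul_comm]
  unfold DZ
  rw [JRT hd, h2, mul_smul]
  congr 1
  ext i j
  simp [cK, qm]

theorem DST (σ : ℂ ≃+* ℂ) : DS (ZT t d) σ = (σ (dE d))⁻¹ • qm (phT t d) := by
  unfold DS
  rw [DZT hd]
  ext i j
  simp [qm]

theorem LZT {X : Matrix (Fin t ⊕ Fin t) (Fin t ⊕ Fin t) ℂ} (hX : X ∈ LZ (ZT t d)) :
    ∃ c : ℂ, X = c • qm (phT t d) := by
  have h1 : LZ (ZT t d) ≤ Submodule.span ℂ {qm (phT t d)} := by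
    refine LZ_le (fun σ => ?_) fun A hA C hC => ?_
    · rw [DST hd]
      exact Submodule.smul_mem _ _ (Submodule.mem_span_singleton_self _)
    · rw [Submodule.mem_span_singleton] at hA hC
      obtain ⟨a, rfl⟩ := hA
      obtain ⟨c, rfl⟩ := hC
      have h2 : a • qm (phT t d) * c • qm (phT t d) - c • qm (phT t d) * a • qm (phT t d) = 0 := by
        rw [smul_mul_smul_comm, smul_mul_smul_comm, mul_comm a c, sub_self]
      rw [h2]
      exact Submodule.zero_mem _
  obtain ⟨c, hc⟩ := Submodule.mem_span_singleton.1 (h1 hX)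
  exact ⟨c, hc.symm⟩

omit hd in
theorem phT_mulVec (v : Fin t ⊕ Fin t → ℂ) :
    qm (phT t d) *ᵥ v = Sum.elim (fun j => -(d : ℂ) * v (Sum.inr j)) (fun j => v (Sum.inl j)) := by
  have h1 : qm (phT t d) = fromBlocks 0 (-((d : ℂ) • 1)) 1 0 := by
    ext i j
    rcases i with i | i <;> rcases j with j | j <;>
      simp only [phT, Matrix.map_apply, fromBlocks_apply₁₁, fromBlocks_apply₁₂,
        fromBlocks_apply₂₁, fromBlocks_apply₂₂, Matrix.zero_apply, Matrix.neg_apply,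
        Matrix.smul_apply, Matrix.one_apply, smul_eq_mul] <;> first | (split_ifs <;> simp) | simp
  rw [h1, fromBlocks_mulVec]
  funext i
  rcases i with i | i
  · simp [neg_mulVec, smul_mulVec]
  · simp

variable {t}

omit hd in
/-- The eigenspace. -/
theorem mem_EGT {α : ℂ} (hα : α * α = -(d : ℂ)) {s : ℚ} (hs : s * s = 1)
    (v : Fin t ⊕ Fin t → ℂ) :
    v ∈ EG (s • phT t d) α ↔ ∀ j, v (Sum.inl j) = s * α * v (Sum.inr j) := by
  have hs' : (s : ℂ) * s = 1 := by exact_mod_cast hs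
  rw [mem_EG, qm_smul, smul_mulVec, phT_mulVec]
  constructor
  · intro h j
    have h1 := congrFun h (Sum.inr j)
    simp only [Pi.smul_apply, Sum.elim_inr, smul_eq_mul] at h1
    linear_combination (s : ℂ) * h1 - v (Sum.inl j) * hs'
  · intro h
    funext i
    rcases i with i | i
    · simp only [Pi.smul_apply, Sum.elim_inl, smul_eq_mul]
      rw [h i]
      linear_combination (-(s : ℂ) * v (Sum.inr i)) * hα
    · simp only [Pi.smul_apply, Sum.elim_inr, smul_eq_mul]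
      rw [h i]
      linear_combination (α * v (Sum.inr i)) * hs'

omit hd in
/-- Coordinates on the eigenspace. -/
def eqT {α : ℂ} (hα : α * α = -(d : ℂ)) {s : ℚ} (hs : s * s = 1) :
    EG (s • phT t d) α ≃ₗ[ℂ] (Fin t → ℂ) where
  toFun v j := (v : Fin t ⊕ Fin t → ℂ) (Sum.inr j)
  map_add' _ _ := rfl
  map_smul' _ _ := rfl
  invFun x := ⟨Sum.elim (fun j => s * α * x j) x, (mem_EGT hα hs _).2 fun _ => rfl⟩
  left_inv v := by
    apply Subtype.ext
    funext i
    rcases i with i | i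
    · exact ((mem_EGT hα hs _).1 v.2 i).symm
    · rfl
  right_inv x := rfl

omit hd in
theorem finrank_EGT {α : ℂ} (hα : α * α = -(d : ℂ)) {s : ℚ} (hs : s * s = 1) :
    finrank ℂ (EG (s • phT t d) α) = t := by
  rw [(eqT (t := t) hα hs).finrank_eq, finrank_fin_fun]

/-- The data of the power of an elliptic curve. -/
theorem kwT {α : ℂ} (hα : α * α = -(d : ℂ)) {s : ℚ} (hs : s * s = 1) :
    KW (ZT t d) (EG (s • phT t d) α) (s • phT t d) α d := by
  refine ⟨finrank_EGT hα hs, fun X hX => ?_, hd, ?_, hα, fun v => mem_EG, fun u hu v hv => ?_⟩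
  · obtain ⟨c, rfl⟩ := LZT hd t hX
    rw [qm_smul, smul_mul_smul_comm, smul_mul_smul_comm, mul_comm c]
  · rw [smul_mul_smul_comm, hs, one_smul]
    unfold phT
    rw [fromBlocks_multiply]
    rw [show (1 : Matrix (Fin t ⊕ Fin t) (Fin t ⊕ Fin t) ℚ) = fromBlocks 1 0 0 1 from
      fromBlocks_one.symm, fromBlocks_smul, fromBlocks_neg]
    simp
  · rw [mem_EGT hα hs] at hu hv
    rw [om_apply]
    have h1 : Om t ℂ = fromBlocks 0 1 (-1) 0 := rfl
    rw [h1, fromBlocks_mulVec, dotProduct, Fintype.sum_sum_type]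
    simp only [zero_mulVec, one_mulVec, neg_mulVec, zero_add, add_zero, Sum.elim_inl, Sum.elim_inr,
      Function.comp_apply, Pi.neg_apply, Pi.add_apply, Pi.zero_apply]
    rw [← Finset.sum_add_distrib]
    refine Finset.sum_eq_zero fun j _ => ?_
    rw [hu j, hv j]
    ring

/-- The trace. -/
theorem trT {α : ℂ} (hα : α * α = -(d : ℂ)) {s : ℚ} (hs : s * s = 1) (s' : ℤ)
    (hs' : s' = 1 ∨ s' = -1) (h : (s : ℂ) * α = s' * dE d) :
    tr (ZT t d) (EG (s • phT t d) α) = s' * t := by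
  have hss : (s : ℂ) * s = 1 := by exact_mod_cast hs
  have h1 : ∀ u ∈ EG (s • phT t d) α, DZ (ZT t d) *ᵥ u = (s' : ℂ) • u := by
    intro u hu
    rw [mem_EG, qm_smul, smul_mulVec] at hu
    have h2 : qm (phT t d) *ᵥ u = (s' * dE d : ℂ) • u := by
      have h3 := congrArg (fun x => (s : ℂ) • x) hu
      beta_reduce at h3
      rwa [smul_smul, smul_smul, hss, one_smul, h] at h3
    rw [DZT hd, smul_mulVec, h2, smul_smul, mul_comm (s' : ℂ), ← mul_assoc,
      inv_mul_cancel₀ (dE_ne hd), one_mul]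
  have h2 : EG (s • phT t d) α ≤ eig (ZT t d) (s' : ℂ) := h1
  have h3 : EG (s • phT t d) α ⊓ eig (ZT t d) (s' : ℂ) = EG (s • phT t d) α := inf_eq_left.2 h2
  have h4 : ∀ c : ℂ, (s' : ℂ) ≠ c → EG (s • phT t d) α ⊓ eig (ZT t d) c = ⊥ := by
    intro c hc
    rw [eq_bot_iff, ← eig_inf (s' : ℂ) c hc]
    exact inf_le_inf h2 le_rfl
  have h6 := finrank_EGT (t := t) hα hs
  unfold tr pd qd
  rcases hs' with rfl | rfl
  · have h5 := h3
    rw [Int.cast_one] at h5
    rw [h5, h4 (-1) (by norm_num), h6, finrank_bot]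
    ring
  · have h5 := h3
    rw [Int.cast_neg, Int.cast_one] at h5
    rw [h5, h4 1 (by norm_num), h6, finrank_bot]
    push_cast
    ring

/-- The inclusion of the `j`-th factor. -/
def inj (t : ℕ) (j : Fin t) : Matrix (Fin t ⊕ Fin t) (Fin 1 ⊕ Fin 1) ℚ :=
  fromBlocks (Matrix.of fun i _ => if i = j then 1 else 0) 0 0
    (Matrix.of fun i _ => if i = j then 1 else 0)

omit hd in
theorem inj_mulVec (j : Fin t) (x : Fin 1 ⊕ Fin 1 → ℂ) :
    cK ℂ (inj t j) *ᵥ x = Sum.elim (fun i => if i = j then x (Sum.inl 0) else 0)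
      (fun i => if i = j then x (Sum.inr 0) else 0) := by
  funext i
  rcases i with i | i <;>
    simp [inj, cK, mulVec, dotProduct, Fintype.sum_sum_type] <;> split_ifs <;> simp

omit hd in
theorem inj_ph (j : Fin t) : cK ℂ (inj t j) * qm (phE d) = qm (phT t d) * cK ℂ (inj t j) := by
  apply Matrix.toLin'.injective
  apply LinearMap.ext
  intro x
  rw [toLin'_apply, toLin'_apply, ← mulVec_mulVec, ← mulVec_mulVec, inj_mulVec, phE_mulVec,
    phT_mulVec, inj_mulVec]
  funext i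
  rcases i with i | i <;> simp

theorem inj_comm (j : Fin t) :
    cK ℂ (inj t j) * DZ (ZE d) = DZ (ZT t d) * cK ℂ (inj t j) := by
  rw [DZE hd, DZT hd, Matrix.mul_smul, Matrix.smul_mul, inj_ph]

/-- The determinant form on vectors of the factors. -/
theorem altF_T {α : ℂ} (hα : α * α = -(d : ℂ)) {s : ℚ} (hs : s * s = 1)
    (k : KW (ZT t d) (EG (s • phT t d) α) (s • phT t d) α d) :
    ∃ (c : ℂ) (f : Basis (Fin t) ℂ (EG (s • phT t d) α)), c ≠ 0 ∧
      ∀ x : Fin t → Fin 1 ⊕ Fin 1 → ℂ,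
        k.altF f (fun j => cK ℂ (inj t j) *ᵥ x j) = c * ∏ j, lamE (s * α) (x j) := by
  have hs' : (s : ℂ) * s = 1 := by exact_mod_cast hs
  have hα0 : α ≠ 0 := k.al_ne
  have hs0 : (s : ℂ) ≠ 0 := fun h => by rw [h, mul_zero] at hs'; exact zero_ne_one hs'
  refine ⟨((2 * α)⁻¹ * s) ^ t, Basis.ofEquivFun (eqT hα hs),
    pow_ne_zero _ (mul_ne_zero (inv_ne_zero (mul_ne_zero two_ne_zero hα0)) hs0), fun x => ?_⟩
  have h1 : k.altF (Basis.ofEquivFun (eqT hα hs)) (fun j => cK ℂ (inj t j) *ᵥ x j) =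
      Matrix.det (Matrix.of fun i j : Fin t =>
        (k.pU (cK ℂ (inj t j) *ᵥ x j) : Fin t ⊕ Fin t → ℂ) (Sum.inr i)) := by
    change (Basis.ofEquivFun (eqT hα hs)).det (fun j => k.pU (cK ℂ (inj t j) *ᵥ x j)) = _
    rw [Basis.det_apply]
    congr 1
  have h2 : ∀ i j : Fin t, (k.pU (cK ℂ (inj t j) *ᵥ x j) : Fin t ⊕ Fin t → ℂ) (Sum.inr i) =
      if i = j then (2 * α)⁻¹ * s * lamE (s * α) (x j) else 0 := by
    intro i j
    rw [k.pU_coe, pj_apply, qm_smul, smul_mulVec, phT_mulVec, inj_mulVec, lamE_apply]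
    simp only [Pi.smul_apply, Pi.add_apply, Sum.elim_inl, Sum.elim_inr, smul_eq_mul]
    split_ifs with hij
    · linear_combination (-(2 * α)⁻¹ * α * x j (Sum.inr 0)) * hs'
    · ring
  have h3 : (Matrix.of fun i j : Fin t =>
        (k.pU (cK ℂ (inj t j) *ᵥ x j) : Fin t ⊕ Fin t → ℂ) (Sum.inr i)) =
      Matrix.diagonal fun j => (2 * α)⁻¹ * s * lamE (s * α) (x j) := by
    ext i j
    rw [Matrix.of_apply, h2, Matrix.diagonal_apply]
    split_ifs with hij
    · rw [hij]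
    · rfl
  rw [h1, h3, Matrix.det_diagonal, Finset.prod_mul_distrib, Finset.prod_const, Finset.card_univ,
    Fintype.card_fin]

end

end Pool.Agent.Y90.S
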