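import Mathlib
import Pool.Agent.Y90.S.W6
import Pool.Agent.Y90.S.ZT
import Pool.Agent.Y90.S.Jobs

/-!
# Blocks given by Weil classes
-/

set_option linter.unusedSectionVars false

namespace Pool.Agent.Y90.S

open Matrix Module Pool.Agent.W437.HC Pool.Agent.W437.HD Pool.Agent.W548.Odd Pool.Agent.TH504.CB
open Pool.Agent.H204R3.CM (IsHodge)
open Pool.Agent.W437.HP (cK cK_mul cK_one)

noncomputable section

variable {a : ℕ} {Z : Matrix (Fin a) (Fin a) ℂ} {U : Submodule ℂ (Fin a ⊕ Fin a → ℂ)}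
  {φ : Matrix (Fin a ⊕ Fin a) (Fin a ⊕ Fin a) ℚ} {α : ℂ} {d : ℚ}

/-- The choice of the signs. -/
theorem exists_sign (k : KW Z U φ α d) : ∃ (s : ℚ) (s' : ℤ), s * s = 1 ∧ (s' = 1 ∨ s' = -1) ∧
    (s : ℂ) * α = s' * dE d ∧ tr Z U + s' * ((tr Z U).natAbs : ℤ) = 0 := by
  obtain ⟨s', hs', h1⟩ : ∃ s' : ℤ, (s' = 1 ∨ s' = -1) ∧
      tr Z U + s' * ((tr Z U).natAbs : ℤ) = 0 := by
    rcases le_total 0 (tr Z U) with h2 | h2
    · exact ⟨-1, Or.inr rfl, by rw [Int.natAbs_of_nonneg h2]; ring⟩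
    · refine ⟨1, Or.inl rfl, ?_⟩
      rw [Int.ofNat_natAbs_of_nonpos h2]
      ring
  have h3 : (α - dE d) * (α + dE d) = 0 := by
    linear_combination k.al - dE_sq k.pos
  rcases mul_eq_zero.1 h3 with h4 | h4
  · refine ⟨s', s', ?_, hs', ?_, h1⟩
    · rcases hs' with rfl | rfl <;> norm_num
    · rw [sub_eq_zero.1 h4]
      push_cast
      rfl
  · refine ⟨-s', s', ?_, hs', ?_, h1⟩
    · rcases hs' with rfl | rfl <;> norm_num
    · rw [eq_neg_of_add_eq_zero_left h4]
      push_cast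
      ring

/-- Determinants on eigenspaces of imaginary quadratic multiplications are blocks. -/
theorem weil_blk (hJ : JDisc) {m w : ℕ} (hZ : PM Z) (k : KW Z U φ α d) {ι : Type} [Fintype ι]
    [DecidableEq ι] (f : Basis ι ℂ U) {B : Type} [Fintype B] [DecidableEq B] {J : Matrix B B ℝ}
    (R : ι → Matrix (Fin a ⊕ Fin a) B ℂ)
    (hR : ∀ y, R y ∈ Submodule.span ℂ (TJ (DJ J) (DZ Z) : Set (Matrix (Fin a ⊕ Fin a) B ℂ)))
    (h4 : 4 ≤ a + (tr Z U).natAbs) (hw : a + (tr Z U).natAbs ≤ 2 * w)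
    (h0 : tr Z U = 0 → a = 4) (M : MultilinearMap ℂ (fun _ : ι => B → ℂ) ℂ)
    (hM : ∀ v, M v = k.altF f (fun y => R y *ᵥ v y)) :
    Blk m w J M (fun σ => (tr Z (cjS σ.symm U) : ℂ)) := by
  obtain ⟨s, s', hs, hs', hsα, hsum⟩ := exists_sign k
  have hd := k.pos
  have hss : (s : ℂ) * s = 1 := by exact_mod_cast hs
  have hs0 : (s : ℂ) ≠ 0 := fun h => by rw [h, mul_zero] at hss; exact zero_ne_one hss
  set t := (tr Z U).natAbs with ht
  have k₂ := kwT (t := t) hd k.al hs
  have htr : tr Z U + tr (ZT t d) (EG (s • phT t d) α) = 0 := by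
    rw [trT hd k.al hs s' hs' hsα]
    exact hsum
  obtain ⟨c, f₂, hc, hf₂⟩ := altF_T hd k.al hs k₂
  refine ⟨t, d, s * α, hd, mul_ne_zero hs0 k.al_ne, ?_, fun σ => ?_, ?_⟩
  · linear_combination (α * α) * hss + k.al
  · have h1 : σ (dE d) ≠ 0 := by
      rw [ne_eq, map_eq_zero_iff σ σ.injective]
      exact dE_ne hd
    have h2 : (tr Z U : ℂ) = -(s' * t) := by
      have h3 : ((tr Z U + s' * (t : ℤ) : ℤ) : ℂ) = 0 := by
        rw [ht, hsum, Int.cast_zero]
      push_cast at h3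
      linear_combination h3
    have hsσ : σ.symm (s : ℂ) = s := by simp
    have hs'σ : σ.symm ((s' : ℤ) : ℂ) = s' := by simp
    have h5 : σ.symm (σ (dE d)) = dE d := σ.symm_apply_apply _
    -- the eigenvalue of the transported period
    rcases k.tr_cj σ.symm with ⟨h3, h4'⟩ | ⟨h3, h4'⟩
    · have h6 : σ (dE d) = dE d := by
        have h7 : σ.symm (dE d) = dE d := by
          have h8 := congrArg σ.symm hsα
          rw [map_mul, map_mul, hsσ, hs'σ, h3, hsα] at h8
          have h9 : (s' : ℂ) ≠ 0 := by rcases hs' with rfl | rfl <;> norm_num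
          exact (mul_left_cancel₀ h9 h8).symm
        rw [← h7, RingEquiv.apply_symm_apply, h7]
      beta_reduce
      have h8 := dE_ne hd
      rw [h4', h6, h2, hsα]
      field_simp
    · have h6 : σ (dE d) = -dE d := by
        have h7 : σ.symm (dE d) = -dE d := by
          have h8 := congrArg σ.symm hsα
          rw [map_mul, map_mul, hsσ, hs'σ, h3, mul_neg, hsα] at h8
          have h9 : (s' : ℂ) ≠ 0 := by rcases hs' with rfl | rfl <;> norm_num
          apply mul_left_cancel₀ h9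
          rw [← h8, mul_neg]
        have h8 := congrArg σ h7
        rw [RingEquiv.apply_symm_apply, map_neg] at h8
        exact (neg_eq_iff_eq_neg.2 h8).symm
      beta_reduce
      have h8 := dE_ne hd
      rw [h4', h6, hsα]
      push_cast
      rw [h2]
      field_simp
  · intro B' _ _ T' _ _ per' J' h hX P hP R' hR' F hF
    have hdisc : a + t ≠ 4 → TrivialDisc (perP (perOne Z) (perOne (ZT t d))) (a + t) d
        (Matrix.toLin' (PH φ (s • phT t d))) := by
      intro hne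
      refine hJ a Z hZ U φ α d k t ?_ s hs htr
      rw [Nat.one_le_iff_ne_zero]
      intro ht0
      apply hne
      rw [ht0, add_zero]
      exact h0 (Int.natAbs_eq_zero.1 ht0)
    have h1 : (c • F) ∈ NG m w per' (ι ⊕ Fin t) := by
      refine pair_memG hZ (pmT hd t) k k₂ f f₂ htr hdisc h hX h4 hw (fun y => R y * cK ℂ P)
        (fun j => cK ℂ (inj t j) * cK ℂ (R' j)) (fun y => TJ_comp hP (hR y)) (fun j => ?_) _
        fun v => ?_
      · refine Submodule.subset_span ⟨inj t j * R' j, (cK_mul ℂ _ _).symm, ?_⟩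
        rw [cK_mul, Matrix.mul_assoc, hR', ← Matrix.mul_assoc, inj_comm hd, Matrix.mul_assoc]
      · rw [_root_.smul_apply, hF, hM, smul_eq_mul]
        have e1 : (fun y => (R y * cK ℂ P) *ᵥ v (Sum.inl y)) =
            fun y => R y *ᵥ (cK ℂ P *ᵥ v (Sum.inl y)) := by
          funext y
          rw [mulVec_mulVec]
        have e2 : (fun j => (cK ℂ (inj t j) * cK ℂ (R' j)) *ᵥ v (Sum.inr j)) =
            fun j => cK ℂ (inj t j) *ᵥ (cK ℂ (R' j) *ᵥ v (Sum.inr j)) := by
          funext j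
          rw [mulVec_mulVec]
        rw [e1, e2, hf₂]
        ring
    have h2 : F = c⁻¹ • (c • F) := by
      rw [smul_smul, inv_mul_cancel₀ hc, one_smul]
    rw [h2]
    exact Submodule.smul_mem _ _ h1

end

end Pool.Agent.Y90.S
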