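import Mathlib
import Pool.Agent.Y90.S.Jobs

/-!
# The irreducible submodules for simple abelian varieties
-/

set_option linter.unusedSectionVars false

namespace Pool.Agent.Y90.S

open Matrix Module Pool.Agent.W437.HC Pool.Agent.W437.HD Pool.Agent.W548.Odd Pool.Agent.TH504.CB
open Pool.Agent.H204R3.CM (IsHodge)
open Pool.Agent.W437.HP (cK cK_mul cK_one)

noncomputable section

variable {g : ℕ} {Z : Matrix (Fin g) (Fin g) ℂ}

/-- The complex structure and its conjugates do not act by scalars. -/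
theorem nonscalar_of (h : PM Z) {U : Submodule ℂ (Fin g ⊕ Fin g → ℂ)} (hU : IrS (LZ Z) U)
    (H : ∀ F : Submodule ℂ (Fin g ⊕ Fin g → ℂ), IrS (LZ Z) F → finrank ℂ F = finrank ℂ U →
      ∀ ε : ℂ, (ε = 1 ∨ ε = -1) → ¬∀ u ∈ F, DZ Z *ᵥ u = ε • u)
    (σ : ℂ ≃+* ℂ) (c : ℂ) : ∃ u ∈ U, DS Z σ *ᵥ u ≠ c • u := by
  by_contra hcon
  push Not at hcon
  obtain ⟨F, hF, hFn, ε, hε⟩ : ∃ F : Submodule ℂ (Fin g ⊕ Fin g → ℂ), IrS (LZ Z) F ∧
      finrank ℂ F = finrank ℂ U ∧ ∃ ε : ℂ, ∀ u ∈ F, DZ Z *ᵥ u = ε • u := by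
    refine ⟨cjS σ.symm U, hU.cj gal_LZ _, finrank_cjS _ _, σ.symm c, fun u hu => ?_⟩
    rw [mem_cjS] at hu
    have h1 := hcon _ hu
    have h2 : (fun i => σ.symm ((DS Z σ *ᵥ fun i => σ.symm.symm (u i)) i)) =
        fun i => σ.symm ((c • fun i => σ.symm.symm (u i)) i) := by rw [h1]
    rw [map_mulVec_aut σ.symm] at h2
    have h3 : (DS Z σ).map σ.symm = DZ Z := by
      ext i j
      simp [DS]
    rw [h3] at h2
    have h4 : (fun i => σ.symm (σ.symm.symm (u i))) = u := by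
      funext i
      simp
    rw [h4] at h2
    rw [h2]
    funext i
    simp
  have hε1 : ε = 1 ∨ ε = -1 := by
    obtain ⟨v, hv, hv0⟩ := Submodule.exists_mem_ne_zero_of_ne_bot hF.1
    have h2 : DZ Z *ᵥ (DZ Z *ᵥ v) = v := by rw [mulVec_mulVec, DZ_sq h.det, one_mulVec]
    rw [hε v hv, mulVec_smul, hε v hv, smul_smul] at h2
    have h3 : (ε * ε - 1) • v = 0 := by rw [sub_smul, h2, one_smul, sub_self]
    have h4 := (smul_eq_zero.1 h3).resolve_right hv0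
    have h5 : (ε - 1) * (ε + 1) = 0 := by linear_combination h4
    rcases mul_eq_zero.1 h5 with h6 | h6
    · exact Or.inl (sub_eq_zero.1 h6)
    · exact Or.inr (eq_neg_of_add_eq_zero_left h6)
  exact H F hF hFn ε hε1 hε

theorem qm_map (a : Matrix (Fin g ⊕ Fin g) (Fin g ⊕ Fin g) ℚ) (σ : ℂ ≃+* ℂ) :
    (qm a).map σ = qm a := by
  ext i j
  simp [qm]

/-- Endomorphisms commute with the Lie algebra. -/
theorem comm_LZ {a : Matrix (Fin g ⊕ Fin g) (Fin g ⊕ Fin g) ℚ} (ha : qm a * DZ Z = DZ Z * qm a) :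
    ∀ X ∈ LZ Z, X * qm a = qm a * X := by
  let L : Submodule ℂ (Matrix (Fin g ⊕ Fin g) (Fin g ⊕ Fin g) ℂ) :=
    { carrier := {X | X * qm a = qm a * X}
      zero_mem' := by
        change (0 : Matrix (Fin g ⊕ Fin g) (Fin g ⊕ Fin g) ℂ) * qm a = qm a * 0
        rw [Matrix.zero_mul, Matrix.mul_zero]
      add_mem' := by
        intro x y hx hy
        change (x + y) * qm a = qm a * (x + y)
        rw [Matrix.add_mul, Matrix.mul_add, hx, hy]
      smul_mem' := by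
        intro c x hx
        change (c • x) * qm a = qm a * (c • x)
        rw [Matrix.smul_mul, Matrix.mul_smul, hx] }
  have h1 : LZ Z ≤ L := by
    refine LZ_le (fun σ => ?_) fun A hA C hC => ?_
    · change DS Z σ * qm a = qm a * DS Z σ
      have h2 := congrArg (fun M => M.map (σ : ℂ → ℂ)) ha
      have h3 : ∀ M N : Matrix (Fin g ⊕ Fin g) (Fin g ⊕ Fin g) ℂ,
          (M * N).map (σ : ℂ → ℂ) = M.map σ * N.map σ := fun M N =>
        Matrix.map_mul (f := (σ : ℂ →+* ℂ))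
      beta_reduce at h2
      rw [h3, h3, qm_map] at h2
      exact h2.symm
    · change (A * C - C * A) * qm a = qm a * (A * C - C * A)
      have hA' : A * qm a = qm a * A := hA
      have hC' : C * qm a = qm a * C := hC
      rw [Matrix.sub_mul, Matrix.mul_sub, Matrix.mul_assoc, hC', ← Matrix.mul_assoc, hA',
        Matrix.mul_assoc C, hA', ← Matrix.mul_assoc C, hC', Matrix.mul_assoc, Matrix.mul_assoc]
  exact fun X hX => h1 hX

/-- Rational forms which are invariant under the complex structure are invariant under the Lie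
algebra. -/
theorem inv_LZ {M : Matrix (Fin g ⊕ Fin g) (Fin g ⊕ Fin g) ℚ}
    (hM : (DZ Z)ᵀ * qm M + qm M * DZ Z = 0) : ∀ X ∈ LZ Z, Xᵀ * qm M + qm M * X = 0 := by
  let L : Submodule ℂ (Matrix (Fin g ⊕ Fin g) (Fin g ⊕ Fin g) ℂ) :=
    { carrier := {X | Xᵀ * qm M + qm M * X = 0}
      zero_mem' := by
        change (0 : Matrix (Fin g ⊕ Fin g) (Fin g ⊕ Fin g) ℂ)ᵀ * qm M + qm M * 0 = 0
        rw [transpose_zero, Matrix.zero_mul, Matrix.mul_zero, add_zero]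
      add_mem' := by
        intro x y hx hy
        change (x + y)ᵀ * qm M + qm M * (x + y) = 0
        have hx' : xᵀ * qm M + qm M * x = 0 := hx
        have hy' : yᵀ * qm M + qm M * y = 0 := hy
        rw [transpose_add, Matrix.add_mul, Matrix.mul_add]
        rw [add_add_add_comm, hx', hy', add_zero]
      smul_mem' := by
        intro c x hx
        change (c • x)ᵀ * qm M + qm M * (c • x) = 0
        have hx' : xᵀ * qm M + qm M * x = 0 := hx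
        rw [transpose_smul, Matrix.smul_mul, Matrix.mul_smul, ← smul_add, hx', smul_zero] }
  have h1 : LZ Z ≤ L := by
    refine LZ_le (fun σ => ?_) fun A hA C hC => ?_
    · change (DS Z σ)ᵀ * qm M + qm M * DS Z σ = 0
      have h2 := congrArg (fun M => M.map (σ : ℂ → ℂ)) hM
      have h3 : ∀ M N : Matrix (Fin g ⊕ Fin g) (Fin g ⊕ Fin g) ℂ,
          (M * N).map (σ : ℂ → ℂ) = M.map σ * N.map σ := fun M N =>
        Matrix.map_mul (f := (σ : ℂ →+* ℂ))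
      have h4 : ∀ M N : Matrix (Fin g ⊕ Fin g) (Fin g ⊕ Fin g) ℂ,
          (M + N).map (σ : ℂ → ℂ) = M.map σ + N.map σ := fun M N => by
        ext i j
        simp
      beta_reduce at h2
      rw [h4, h3, h3, qm_map] at h2
      have h5 : (0 : Matrix (Fin g ⊕ Fin g) (Fin g ⊕ Fin g) ℂ).map (σ : ℂ → ℂ) = 0 := by
        ext i j
        simp
      rw [h5] at h2
      exact h2
    · change (A * C - C * A)ᵀ * qm M + qm M * (A * C - C * A) = 0
      have hA' : Aᵀ * qm M = -(qm M * A) := eq_neg_of_add_eq_zero_left hA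
      have hC' : Cᵀ * qm M = -(qm M * C) := eq_neg_of_add_eq_zero_left hC
      rw [transpose_sub, transpose_mul, transpose_mul, Matrix.sub_mul, Matrix.mul_sub,
        Matrix.mul_assoc, hA', Matrix.mul_assoc Aᵀ, hC', Matrix.mul_neg, Matrix.mul_neg,
        ← Matrix.mul_assoc, hC', ← Matrix.mul_assoc, hA', Matrix.neg_mul, Matrix.neg_mul,
        Matrix.mul_assoc, Matrix.mul_assoc]
      abel
  exact fun X hX => h1 hX

/-- Images of irreducible submodules. -/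
theorem irr_map {U : Submodule ℂ (Fin g ⊕ Fin g → ℂ)} (hU : IrS (LZ Z) U)
    {S : (Fin g ⊕ Fin g → ℂ) →ₗ[ℂ] (Fin g ⊕ Fin g → ℂ)}
    (hS : ∀ X ∈ LZ Z, ∀ v, S (X *ᵥ v) = X *ᵥ S v) (hi : ∀ u ∈ U, S u = 0 → u = 0) :
    IrS (LZ Z) (U.map S) := by
  refine ⟨?_, stab_map hU.2.1 fun X hX u _ => hS X hX u, fun W hW hs => ?_⟩
  · intro h0
    apply hU.1
    rw [Submodule.eq_bot_iff]
    intro u hu
    apply hi u hu
    have h1 : S u ∈ U.map S := Submodule.mem_map_of_mem hu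
    rwa [h0, Submodule.mem_bot] at h1
  · have h1 : Stab (LZ Z) (U ⊓ W.comap S) := by
      rintro X hX u ⟨hu, hu'⟩
      refine ⟨hU.2.1 X hX u hu, ?_⟩
      change S (X *ᵥ u) ∈ W
      rw [hS X hX]
      exact hs X hX _ hu'
    rcases hU.2.2 _ inf_le_left h1 with h2 | h2
    · left
      rw [Submodule.eq_bot_iff]
      intro w hw
      obtain ⟨u, hu, rfl⟩ := hW hw
      have h3 : u ∈ U ⊓ W.comap S := ⟨hu, hw⟩
      rw [h2, Submodule.mem_bot] at h3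
      rw [h3, map_zero]
    · right
      refine le_antisymm hW ?_
      rintro _ ⟨u, hu, rfl⟩
      have h3 : u ∈ U ⊓ W.comap S := by rw [h2]; exact hu
      exact h3.2

/-- Rank one elements and isomorphisms. -/
theorem rk1_of_map {U : Submodule ℂ (Fin g ⊕ Fin g → ℂ)} (hU : Stab (LZ Z) U)
    {S : (Fin g ⊕ Fin g → ℂ) →ₗ[ℂ] (Fin g ⊕ Fin g → ℂ)}
    (hS : ∀ X ∈ LZ Z, ∀ v, S (X *ᵥ v) = X *ᵥ S v) (hi : ∀ u ∈ U, S u = 0 → u = 0)
    (h1 : Rk1 Z (U.map S)) : Rk1 Z U := by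
  obtain ⟨D, hD, N, hN, h2, h3, h4⟩ := h1
  refine ⟨D, hD, N, hN, h2, h3, ?_⟩
  have h5 : U.map (mulVecLin N) ≤ U := by
    rintro _ ⟨u, hu, rfl⟩
    exact hU N hN u hu
  have h6 : (U.map S).map (mulVecLin N) = (U.map (mulVecLin N)).map S := by
    rw [← Submodule.map_comp, ← Submodule.map_comp]
    congr 1
    exact LinearMap.ext fun v => (hS N hN v).symm
  rw [h6, finrank_map_of_inj (fun u hu => hi u (h5 hu))] at h4
  exact h4

section cm

/-- The Lie algebra is commutative in the case of complex multiplication. -/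
theorem comm_of_cm (h : PM Z) (hs : IsSimpleAV Z) (hg : 0 < g) (hcm : HasCM Z) :
    ∀ X ∈ LZ Z, ∀ Y ∈ LZ Z, X * Y = Y * X := by
  obtain ⟨A, hAA, hr, hD⟩ := hcm
  have hAC : ∀ a ∈ A, ∀ X ∈ LZ Z, X * qm a = qm a * X := fun a ha => comm_LZ (hD a ha)
  -- the evaluation at a vector
  let v0 : Fin g ⊕ Fin g → ℚ := Pi.single (Sum.inl ⟨0, hg⟩) 1
  have hv0 : v0 ≠ 0 := by
    intro h0
    have h1 := congrFun h0 (Sum.inl ⟨0, hg⟩)
    simp [v0] at h1
  let ev : A →ₗ[ℚ] (Fin g ⊕ Fin g → ℚ) :=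
    { toFun := fun a => (a : Matrix (Fin g ⊕ Fin g) (Fin g ⊕ Fin g) ℚ) *ᵥ v0
      map_add' := fun a b => add_mulVec _ _ _
      map_smul' := fun c a => smul_mulVec _ _ _ }
  have hinj : Function.Injective ev := by
    rw [injective_iff_map_eq_zero]
    intro a ha
    have ha' : (a : Matrix (Fin g ⊕ Fin g) (Fin g ⊕ Fin g) ℚ) *ᵥ v0 = 0 := ha
    rcases hdivZ h.isPer (Set.mem_singleton Z) hs a.1 (by
      intro X hX
      rw [← img_eq] at hX
      exact (hAC a.1 a.2 X hX).symm) with h1 | h1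
    · exact Subtype.ext h1
    · exfalso
      have h2 := qm_mulVec a.1 v0
      rw [ha'] at h2
      have h3 : (fun i => (((0 : Fin g ⊕ Fin g → ℚ) i : ℚ) : ℂ)) = qm a.1 *ᵥ 0 := by
        rw [mulVec_zero]
        funext i
        simp
      rw [h3] at h2
      have h4 := (Matrix.mulVec_injective_iff_isUnit.2 h1) h2
      apply hv0
      funext i
      have h5 : ((v0 i : ℚ) : ℂ) = 0 := congrFun h4 i
      rw [Pi.zero_apply]
      exact_mod_cast h5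
  have hfin : FiniteDimensional ℚ A := FiniteDimensional.of_injective ev hinj
  have hsurj : Function.Surjective ev := by
    refine (LinearMap.injective_iff_surjective_of_finrank_eq_finrank ?_).1 hinj
    rw [hr, Module.finrank_fintype_fun_eq_card, Fintype.card_sum, Fintype.card_fin]
    ring
  choose a ha using fun i => hsurj (Pi.single i 1)
  let C : (Fin g ⊕ Fin g → ℂ) → Matrix (Fin g ⊕ Fin g) (Fin g ⊕ Fin g) ℂ :=
    fun w => ∑ i, w i • qm (a i).1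
  let v : Fin g ⊕ Fin g → ℂ := fun i => ((v0 i : ℚ) : ℂ)
  have hCv : ∀ w, C w *ᵥ v = w := by
    intro w
    change (∑ i, w i • qm (a i).1) *ᵥ v = w
    rw [sum_mulVec]
    have h1 : ∀ i, (w i • qm (a i).1) *ᵥ v = w i • Pi.single i 1 := by
      intro i
      rw [smul_mulVec, qm_mulVec]
      congr 1
      have h2 : (a i).1 *ᵥ v0 = Pi.single i 1 := ha i
      rw [h2]
      funext j
      by_cases hj : j = i
      · subst hj
        simp
      · simp [Pi.single_eq_of_ne hj]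
    rw [Finset.sum_congr rfl fun i _ => h1 i]
    funext j
    rw [Finset.sum_apply]
    simp [Pi.single_apply]
  have hCX : ∀ w, ∀ X ∈ LZ Z, X * C w = C w * X := by
    intro w X hX
    change X * ∑ i, w i • qm (a i).1 = (∑ i, w i • qm (a i).1) * X
    rw [Finset.mul_sum, Finset.sum_mul]
    refine Finset.sum_congr rfl fun i _ => ?_
    rw [Matrix.mul_smul, Matrix.smul_mul, hAC _ (a i).2 X hX]
  have hCC : ∀ w w', C w * C w' = C w' * C w := by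
    intro w w'
    change (∑ i, w i • qm (a i).1) * (∑ i, w' i • qm (a i).1) =
      (∑ i, w' i • qm (a i).1) * ∑ i, w i • qm (a i).1
    rw [Finset.sum_mul_sum, Finset.sum_mul_sum, Finset.sum_comm]
    refine Finset.sum_congr rfl fun i _ => Finset.sum_congr rfl fun j _ => ?_
    rw [smul_mul_smul_comm, smul_mul_smul_comm, ← qm_mul, ← qm_mul,
      hAA _ (a j).2 _ (a i).2, mul_comm (w j)]
  intro X hX Y hY
  -- the values at the vector
  have hXY : X *ᵥ (Y *ᵥ v) = Y *ᵥ (X *ᵥ v) := by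
    have h1 : X *ᵥ (Y *ᵥ v) = C (Y *ᵥ v) *ᵥ (C (X *ᵥ v) *ᵥ v) := by
      conv_lhs => rw [← hCv (Y *ᵥ v)]
      rw [mulVec_mulVec, hCX _ X hX, ← mulVec_mulVec, hCv (X *ᵥ v)]
    have h2 : Y *ᵥ (X *ᵥ v) = C (X *ᵥ v) *ᵥ (C (Y *ᵥ v) *ᵥ v) := by
      conv_lhs => rw [← hCv (X *ᵥ v)]
      rw [mulVec_mulVec, hCX _ Y hY, ← mulVec_mulVec, hCv (Y *ᵥ v)]
    rw [h1, h2, mulVec_mulVec, mulVec_mulVec, hCC]
  apply Matrix.toLin'.injective
  refine LinearMap.ext fun w => ?_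
  rw [toLin'_apply, toLin'_apply, ← hCv w, mulVec_mulVec, mulVec_mulVec, Matrix.mul_assoc,
    hCX w Y hY, ← Matrix.mul_assoc, hCX w X hX, Matrix.mul_assoc, Matrix.mul_assoc Y,
    hCX w X hX, ← Matrix.mul_assoc Y, hCX w Y hY, Matrix.mul_assoc, ← mulVec_mulVec,
    ← mulVec_mulVec, ← mulVec_mulVec, ← mulVec_mulVec, hXY]

/-- The irreducible submodules are lines in the case of complex multiplication. -/
theorem cm_lines (h : PM Z) (hs : IsSimpleAV Z) (hg : 0 < g) (hcm : HasCM Z)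
    {U : Submodule ℂ (Fin g ⊕ Fin g → ℂ)} (hU : IrS (LZ Z) U) : finrank ℂ U = 1 :=
  finrank_one_of_comm (comm_of_cm h hs hg hcm) hU

end cm

section rm

variable {M : Matrix (Fin g ⊕ Fin g) (Fin g ⊕ Fin g) ℚ}
  {A : Submodule ℚ (Matrix (Fin g ⊕ Fin g) (Fin g ⊕ Fin g) ℚ)}

theorem form_inv {N : Matrix (Fin g ⊕ Fin g) (Fin g ⊕ Fin g) ℂ}
    {X : Matrix (Fin g ⊕ Fin g) (Fin g ⊕ Fin g) ℂ} (hX : Xᵀ * N + N * X = 0)
    (u v : Fin g ⊕ Fin g → ℂ) : (X *ᵥ u) ⬝ᵥ (N *ᵥ v) + u ⬝ᵥ (N *ᵥ (X *ᵥ v)) = 0 := by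
  have h1 : (X *ᵥ u) ⬝ᵥ (N *ᵥ v) = u ⬝ᵥ ((Xᵀ * N) *ᵥ v) := by
    rw [← mulVec_mulVec, dotProduct_mulVec u, vecMul_transpose]
  rw [h1, mulVec_mulVec, ← dotProduct_add, ← add_mulVec, hX, zero_mulVec, dotProduct_zero]

theorem not_scalar_rm (r : RMA Z M A) {W : Submodule ℂ (Fin g ⊕ Fin g → ℂ)} (hW : W ≠ ⊥)
    (hnd : ∀ u ∈ W, (∀ v ∈ W, u ⬝ᵥ (qm M *ᵥ v) = 0) → u = 0) {ε : ℂ} (hε : ε = 1 ∨ ε = -1) :
    ¬∀ u ∈ W, DZ Z *ᵥ u = ε • u := by
  intro hs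
  apply hW
  rw [Submodule.eq_bot_iff]
  intro u hu
  refine hnd u hu fun v hv => ?_
  have h1 := form_inv r.inv u v
  rw [hs u hu, hs v hv, smul_dotProduct, mulVec_smul, dotProduct_smul, smul_eq_mul] at h1
  rcases hε with rfl | rfl
  · linear_combination (1 / 2 : ℂ) * h1
  · linear_combination (-1 / 2 : ℂ) * h1

/-- The irreducible submodules in the case of real multiplication. -/
theorem cls_rm (j1 : JRM) (j2 : JRMdim) (j3 : JOdd) (j4 : JTwo) (h : PM Z) (hs : IsSimpleAV Z)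
    (hg : 0 < g) (r : RMA Z M A) {k : ℕ} (hk : Odd k ∨ k = 2) (hA : 2 * g = 2 * k * finrank ℚ A)
    {U : Submodule ℂ (Fin g ⊕ Fin g → ℂ)} (hU : IrS (LZ Z) U) :
    Rk1 Z U ∧ (∀ (σ : ℂ ≃+* ℂ) (c : ℂ), ∃ u ∈ U, DS Z σ *ᵥ u ≠ c • u) ∧ SDu Z U ∧
      2 ≤ finrank ℂ U := by
  have hA0 : 0 < finrank ℚ A := by
    rw [Nat.pos_iff_ne_zero]
    intro h0
    rw [h0, mul_zero] at hA
    omega
  have hk0 : 0 < k := by
    rw [Nat.pos_iff_ne_zero]
    rintro rfl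
    rw [mul_zero, zero_mul] at hA
    omega
  have hdim : ∀ {U : Submodule ℂ (Fin g ⊕ Fin g → ℂ)}, IrS (LZ Z) U → finrank ℂ U = 2 * k := by
    intro U hU
    have h1 := j2 g Z h hs M A r U hU
    rw [hA] at h1
    exact Nat.eq_of_mul_eq_mul_right hA0 h1
  refine ⟨?_, nonscalar_of h hU fun F hF _ ε hε hsc => ?_, ?_, ?_⟩
  · obtain ⟨S, hS, hi, hnd⟩ := j1 g Z h M A r U hU
    have hW := irr_map hU hS hi
    have hinv := inv_LZ r.inv
    have hM : (qm M)ᵀ = -qm M := by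
      have h1 := congrArg qm r.skew
      ext i j
      have h2 := congrFun (congrFun h1 i) j
      simp only [Matrix.map_apply, transpose_apply, Matrix.neg_apply, Rat.cast_neg] at h2 ⊢
      exact h2
    refine rk1_of_map hU.2.1 hS hi ?_
    rcases hk with hk | rfl
    · exact j3 g Z h (qm M) hM hinv _ hW hnd k hk (hdim hW)
    · exact j4 g Z h (qm M) hM hinv _ hW hnd (hdim hW)
  · obtain ⟨S, hS, hi, hnd⟩ := j1 g Z h M A r F hF
    refine not_scalar_rm r (irr_map hF hS hi).1 hnd hε ?_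
    rintro _ ⟨u, hu, rfl⟩
    rw [← hS _ DZ_mem, hsc u hu, map_smul]
  · obtain ⟨S, hS, hi, hnd⟩ := j1 g Z h M A r U hU
    have hW := irr_map hU hS hi
    have hinv := inv_LZ r.inv
    obtain ⟨_, ⟨u, hu, rfl⟩, hu0⟩ := Submodule.exists_mem_ne_zero_of_ne_bot hW.1
    have h1 : ∃ v ∈ U.map S, (S u) ⬝ᵥ (qm M *ᵥ v) ≠ 0 := by
      by_contra hcon
      push Not at hcon
      exact hu0 (hnd _ ⟨u, hu, rfl⟩ hcon)
    obtain ⟨_, ⟨v, hv, rfl⟩, hv0⟩ := h1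
    refine ⟨(wwL (qm M)).compl₁₂ S S, ⟨u, hu, v, hv, hv0⟩, fun X hX u hu v hv => ?_⟩
    rw [LinearMap.compl₁₂_apply, LinearMap.compl₁₂_apply, hS X hX, hS X hX]
    exact form_inv (hinv X hX) (S u) (S v)
  · rw [hdim hU]
    omega

end rm

section iq

variable {φ : Matrix (Fin g ⊕ Fin g) (Fin g ⊕ Fin g) ℚ} {d : ℚ}

theorem pd_EG {α : ℂ} (k : KW Z (EG φ α) φ α d) :
    pd Z (EG φ (-α)) = qd Z (EG φ α) ∧ qd Z (EG φ (-α)) = pd Z (EG φ α) := by
  have h1 : cjS cc (EG φ α) = EG φ (-α) := by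
    ext v
    rw [k.cj, k.cc_al, mem_EG]
  rw [← h1]
  exact ⟨pd_cc _, qd_cc _⟩

/-- The irreducible submodules in the case of an imaginary quadratic field. -/
theorem cls_iq (j5 : JCop) (j6 : JTwoTwo) (j7 : JIQ) (h : PM Z) (h4 : 4 ≤ g) (hq : IQ Z φ d)
    {w p q : ℕ} (hpq : (pd Z (EG φ (dE d)) = p ∧ qd Z (EG φ (dE d)) = q) ∨
      (pd Z (EG φ (dE d)) = q ∧ qd Z (EG φ (dE d)) = p)) (hpw : p ≤ w) (hqw : q ≤ w)
    (hc : Nat.Coprime p q ∨ (p = 2 ∧ q = 2)) {U : Submodule ℂ (Fin g ⊕ Fin g → ℂ)}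
    (hU : IrS (LZ Z) U) :
    Rk1 Z U ∧ (∀ (σ : ℂ ≃+* ℂ) (c : ℂ), ∃ u ∈ U, DS Z σ *ᵥ u ≠ c • u) ∧
      ∃ φ α d, KW Z U φ α d ∧ 4 ≤ g + (tr Z U).natAbs ∧ g + (tr Z U).natAbs ≤ 2 * w ∧
        (tr Z U = 0 → g = 4) := by
  have hg : 0 < g := by omega
  obtain ⟨k₁, i₁, s₁, hall⟩ := j7 g Z h hg φ d hq (dE d) (dE_sq hq.pos)
  obtain ⟨k₂, i₂, s₂, -⟩ := j7 g Z h hg φ d hq (-dE d) (by rw [neg_mul_neg, dE_sq hq.pos])
  obtain ⟨e₁, e₂⟩ := pd_EG k₁
  have hsig : ∀ {F : Submodule ℂ (Fin g ⊕ Fin g → ℂ)}, IrS (LZ Z) F →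
      (pd Z F = p ∧ qd Z F = q) ∨ (pd Z F = q ∧ qd Z F = p) := by
    intro F hF
    rcases hall F hF with rfl | rfl
    · exact hpq
    · rw [e₁, e₂]
      rcases hpq with ⟨h1, h2⟩ | ⟨h1, h2⟩
      · exact Or.inr ⟨h2, h1⟩
      · exact Or.inl ⟨h2, h1⟩
  have hkw : ∀ {F : Submodule ℂ (Fin g ⊕ Fin g → ℂ)}, IrS (LZ Z) F →
      ∃ α, KW Z F φ α d ∧ ¬SDu Z F := by
    intro F hF
    rcases hall F hF with rfl | rfl
    · exact ⟨_, k₁, s₁⟩
    · exact ⟨_, k₂, s₂⟩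
  have hpq' : p + q = g := by
    obtain ⟨α, k, -⟩ := hkw hU
    have h1 := pd_add_qd h hU.2.1
    rw [k.dim] at h1
    rcases hsig hU with ⟨h2, h3⟩ | ⟨h2, h3⟩ <;> omega
  have hp0 : 0 < p := by
    rw [Nat.pos_iff_ne_zero]
    rintro rfl
    rcases hc with hc | hc
    · rw [Nat.coprime_zero_left] at hc
      omega
    · omega
  have hq0 : 0 < q := by
    rw [Nat.pos_iff_ne_zero]
    rintro rfl
    rcases hc with hc | hc
    · rw [Nat.coprime_zero_right] at hc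
      omega
    · omega
  refine ⟨?_, nonscalar_of h hU fun F hF _ ε hε hsc => ?_, ?_⟩
  · rcases hc with hc | ⟨rfl, rfl⟩
    · refine j5 g Z h U hU ?_ ?_ ?_
      · rcases hsig hU with ⟨h2, h3⟩ | ⟨h2, h3⟩ <;> omega
      · rcases hsig hU with ⟨h2, h3⟩ | ⟨h2, h3⟩ <;> omega
      · rcases hsig hU with ⟨h2, h3⟩ | ⟨h2, h3⟩
        · rw [h2, h3]
          exact hc
        · rw [h2, h3]
          exact hc.symm
    · obtain ⟨α, k, hns⟩ := hkw hU
      refine j6 g Z h U hU (by rw [k.dim]; omega) (fun σ => ?_) hns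
      rcases hsig (hU.cj gal_LZ σ) with ⟨h2, h3⟩ | ⟨h2, h3⟩ <;> omega
  · rcases hε with rfl | rfl
    · have h1 : F ≤ eig Z 1 := fun u hu => hsc u hu
      have h2 : F ⊓ eig Z (-1) = ⊥ := by
        rw [eq_bot_iff, ← eig_inf (Z := Z) 1 (-1) (by norm_num)]
        exact inf_le_inf h1 le_rfl
      have h3 : qd Z F = 0 := by
        unfold qd
        rw [h2, finrank_bot]
      rcases hsig hF with ⟨h5, h6⟩ | ⟨h5, h6⟩ <;> omega
    · have h1 : F ≤ eig Z (-1) := fun u hu => hsc u hu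
      have h2 : F ⊓ eig Z 1 = ⊥ := by
        rw [eq_bot_iff, ← eig_inf (Z := Z) (-1) 1 (by norm_num)]
        exact inf_le_inf h1 le_rfl
      have h3 : pd Z F = 0 := by
        unfold pd
        rw [h2, finrank_bot]
      rcases hsig hF with ⟨h5, h6⟩ | ⟨h5, h6⟩ <;> omega
  · obtain ⟨α, k, -⟩ := hkw hU
    have h1 : tr Z U = (pd Z U : ℤ) - qd Z U := rfl
    refine ⟨φ, α, d, k, ?_, ?_, fun h0 => ?_⟩
    · rcases hsig hU with ⟨h2, h3⟩ | ⟨h2, h3⟩ <;> omega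
    · rcases hsig hU with ⟨h2, h3⟩ | ⟨h2, h3⟩ <;> omega
    · have h5 : p = q := by
        rcases hsig hU with ⟨h2, h3⟩ | ⟨h2, h3⟩ <;> omega
      rcases hc with hc | hc
      · rw [h5, Nat.coprime_self] at hc
        omega
      · omega

end iq

/-- The condition on the simple factors. -/
def AdmC (m w : ℕ) (Z : Matrix (Fin g) (Fin g) ℂ) : Prop :=
  (HasCM Z → g ≤ m) ∧ (HasCM Z ∨ g ≤ 3 ∨
    (∃ k M A, (Odd k ∨ k = 2) ∧ RMA Z M A ∧ 2 * g = 2 * k * finrank ℚ A) ∨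
    ∃ p q φ d, IQ Z φ d ∧ ((pd Z (EG φ (dE d)) = p ∧ qd Z (EG φ (dE d)) = q) ∨
      (pd Z (EG φ (dE d)) = q ∧ qd Z (EG φ (dE d)) = p)) ∧ p ≤ w ∧ q ≤ w ∧
      (Nat.Coprime p q ∨ (p = 2 ∧ q = 2)))

/-- The classification of the irreducible submodules. -/
theorem cls (j1 : JRM) (j2 : JRMdim) (j3 : JOdd) (j4 : JTwo) (j5 : JCop) (j6 : JTwoTwo)
    (j7 : JIQ) (h : PM Z) (hs : IsSimpleAV Z) (hg : 0 < g) {m w : ℕ} (hw : 2 ≤ w)
    (hA : AdmC m w Z) {U : Submodule ℂ (Fin g ⊕ Fin g → ℂ)} (hU : IrS (LZ Z) U) :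
    (2 ≤ finrank ℂ U → Rk1 Z U ∧ ∀ (σ : ℂ ≃+* ℂ) (c : ℂ), ∃ u ∈ U, DS Z σ *ᵥ u ≠ c • u) ∧
      ((SDu Z U ∧ 2 ≤ finrank ℂ U) ∨ (∃ φ α d, KW Z U φ α d ∧ 4 ≤ g + (tr Z U).natAbs ∧
        g + (tr Z U).natAbs ≤ 2 * w ∧ (tr Z U = 0 → g = 4)) ∨ (finrank ℂ U = 1 ∧ HasCM Z)) := by
  by_cases hg3 : g ≤ 3
  · obtain ⟨h1, h2⟩ := classify2 h hs hg hg3 hU
    refine ⟨fun hn => ⟨h1 hn, fun σ c => nonscalar h hs hg3 hU hn σ c⟩, ?_⟩
    rcases h2 with h2 | ⟨rfl, φ, α, d, k⟩ | h2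
    · exact Or.inl h2
    · refine Or.inr (Or.inl ⟨φ, α, d, k.toKW h, ?_⟩)
      have h3 : tr Z U = (pd Z U : ℤ) - qd Z U := rfl
      rcases k.sgn with h4 | h4
      · have h5 : tr Z U = 1 := by rw [h3, h4]; push_cast; ring
        rw [h5]
        refine ⟨by norm_num, ?_, fun h => absurd h one_ne_zero⟩
        change 3 + 1 ≤ 2 * w
        omega
      · have h5 : tr Z U = -1 := by rw [h3, h4]; push_cast; ring
        rw [h5]
        refine ⟨by norm_num, ?_, fun h => absurd h (by norm_num)⟩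
        change 3 + 1 ≤ 2 * w
        omega
    · exact Or.inr (Or.inr h2)
  · rcases hA.2 with hcm | h3 | ⟨k, M, A, hk, r, hA'⟩ | ⟨p, q, φ, d, hq, hpq, hpw, hqw, hc⟩
    · have h1 := cm_lines h hs hg hcm hU
      exact ⟨fun hn => by omega, Or.inr (Or.inr ⟨h1, hcm⟩)⟩
    · exact absurd h3 hg3
    · obtain ⟨h1, h2, h3, h4⟩ := cls_rm j1 j2 j3 j4 h hs hg r hk hA' hU
      exact ⟨fun _ => ⟨h1, h2⟩, Or.inl ⟨h3, h4⟩⟩
    · obtain ⟨h1, h2, h3⟩ := cls_iq j5 j6 j7 h (by omega) hq hpq hpw hqw hc hU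
      exact ⟨fun _ => ⟨h1, h2⟩, Or.inr (Or.inl h3)⟩

end

end Pool.Agent.Y90.S
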