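import Mathlib
import Pool.Agent.Y90.S.Cls
import Pool.Agent.Y90.S.Blk

/-!
# The irreducible submodules if the simple factors are admissible
-/

set_option linter.unusedSectionVars false

namespace Pool.Agent.Y90.S

open Matrix Module Pool.Agent.W437.HC Pool.Agent.W437.HD Pool.Agent.W548.Odd Pool.Agent.TH504.CB
open Pool.Agent.H204R3.CM (IsHodge)
open Pool.Agent.W437.HP (cK cK_mul cK_one)

noncomputable section

variable {G : ℕ} {Z : Matrix (Fin G) (Fin G) ℂ}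

/-- All simple factors are admissible. -/
def AdmF (m w : ℕ) (Z : Matrix (Fin G) (Fin G) ℂ) : Prop :=
  ∀ (a : ℕ) (Z' : Matrix (Fin a) (Fin a) ℂ) (E : Matrix (Fin G ⊕ Fin G) (Fin a ⊕ Fin a) ℚ)
    (F : Matrix (Fin a ⊕ Fin a) (Fin G ⊕ Fin G) ℚ), Fac Z Z' E F → PM Z' → IsSimpleAV Z' →
    0 < a → AdmC m w Z'

/-- A submodule attached to an imaginary quadratic field. -/
def BlD (w : ℕ) (Z : Matrix (Fin G) (Fin G) ℂ) (U : Submodule ℂ (Fin G ⊕ Fin G → ℂ)) : Prop :=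
  ∃ (a : ℕ) (Z' : Matrix (Fin a) (Fin a) ℂ) (E : Matrix (Fin G ⊕ Fin G) (Fin a ⊕ Fin a) ℚ)
    (F : Matrix (Fin a ⊕ Fin a) (Fin G ⊕ Fin G) ℚ)
    (φ : Matrix (Fin a ⊕ Fin a) (Fin a ⊕ Fin a) ℚ) (α : ℂ) (d : ℚ), Fac Z Z' E F ∧ PM Z' ∧
    (∀ u ∈ U, ml F u = 0 → u = 0) ∧ KW Z' (U.map (ml F)) φ α d ∧
    4 ≤ a + (tr Z' (U.map (ml F))).natAbs ∧ a + (tr Z' (U.map (ml F))).natAbs ≤ 2 * w ∧
    (tr Z' (U.map (ml F)) = 0 → a = 4)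

/-- The classification of the irreducible submodules. -/
theorem loc3 (j1 : JRM) (j2 : JRMdim) (j3 : JOdd) (j4 : JTwo) (j5 : JCop) (j6 : JTwoTwo)
    (j7 : JIQ) (h : PM Z) {m w : ℕ} (hw : 2 ≤ w) (hs : AdmF m w Z)
    {U : Submodule ℂ (Fin G ⊕ Fin G → ℂ)} (hU : IrS (LZ Z) U) :
    (2 ≤ finrank ℂ U → Rk1 Z U ∧ ∀ (σ : ℂ ≃+* ℂ) (c : ℂ), ∃ u ∈ U, DS Z σ *ᵥ u ≠ c • u) ∧
      ((SDu Z U ∧ 2 ≤ finrank ℂ U) ∨ BlD w Z U ∨ LnD m Z U) := by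
  obtain ⟨a, Z', E, F, hf, h', hs', ha, h0⟩ := exists_fac h hU.1
  have hinj := hf.inj hU h0
  have hU' := hf.irr hU h0
  have hA := hs a Z' E F hf h' hs' ha
  obtain ⟨h1, h2⟩ := cls j1 j2 j3 j4 j5 j6 j7 h' hs' ha hw hA hU'
  rw [finrank_ml hinj] at h1 h2
  refine ⟨fun hn => ⟨?_, fun σ c => ?_⟩, ?_⟩
  · obtain ⟨D, hD, N', hN', h3, h4, h5⟩ := (h1 hn).1
    obtain ⟨ε, hε, rfl⟩ : ∃ ε : ℂ, (ε = 1 ∨ ε = -1) ∧ D = ε • DZ Z' := by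
      rcases hD with rfl | rfl
      · exact ⟨1, Or.inl rfl, (one_smul _ _).symm⟩
      · exact ⟨-1, Or.inr rfl, (neg_one_smul _ _).symm⟩
    obtain ⟨N, hN, h6, h7, rfl⟩ := hf.lift_rk h h' ε hε hN' h3 h4
    refine ⟨ε • DZ Z, ?_, N, hN, h6, h7, ?_⟩
    · rcases hε with rfl | rfl
      · exact Or.inl (one_smul _ _)
      · exact Or.inr (neg_one_smul _ _)
    · rw [act_mem hf hN hinj (hU.2.1 N hN)]
      exact h5
  · obtain ⟨u', ⟨u, hu, rfl⟩, hu'⟩ := (h1 hn).2 σ c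
    refine ⟨u, hu, fun h3 => hu' ?_⟩
    have h4 := hf.act (DS_mem σ) u
    rw [h3, hf.fds, Matrix.mul_assoc, hf.fe', Matrix.mul_one] at h4
    rw [← h4, map_smul]
  · rcases h2 with ⟨⟨b, ⟨u', ⟨u, hu, rfl⟩, v', ⟨v, hv, rfl⟩, huv⟩, hb⟩, hn⟩ | ⟨φ, α, d, hk⟩ |
      ⟨hn, hcm'⟩
    · refine Or.inl ⟨⟨b.compl₁₂ (ml F) (ml F), ⟨u, hu, v, hv, huv⟩, fun X hX u hu v hv => ?_⟩, hn⟩
      rw [LinearMap.compl₁₂_apply, LinearMap.compl₁₂_apply, hf.act hX, hf.act hX]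
      exact hb _ (hf.comp hX).1 _ ⟨u, hu, rfl⟩ _ ⟨v, hv, rfl⟩
    · exact Or.inr (Or.inl ⟨a, Z', E, F, φ, α, d, hf, h', hinj, hk⟩)
    · exact Or.inr (Or.inr ⟨hn, a, Z', E, F, hf, h', hs', hcm', hA.1 hcm', hinj, hU'⟩)

section blocks

variable {U : Submodule ℂ (Fin G ⊕ Fin G → ℂ)} {a : ℕ} {Z' : Matrix (Fin a) (Fin a) ℂ}
  {E : Matrix (Fin G ⊕ Fin G) (Fin a ⊕ Fin a) ℚ} {F : Matrix (Fin a ⊕ Fin a) (Fin G ⊕ Fin G) ℚ}

/-- The isomorphism with the image in the simple factor. -/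
def eqvF (hi : ∀ u ∈ U, ml F u = 0 → u = 0) : U ≃ₗ[ℂ] U.map (ml F) :=
  LinearEquiv.ofBijective (((ml F).domRestrict U).codRestrict (U.map (ml F))
    fun u => Submodule.mem_map_of_mem u.2) (by
      constructor
      · rw [injective_iff_map_eq_zero]
        intro u hu
        exact Subtype.ext (hi u u.2 (congrArg Subtype.val hu))
      · rintro ⟨_, u, hu, rfl⟩
        exact ⟨⟨u, hu⟩, rfl⟩)

theorem eqvF_coe (hi : ∀ u ∈ U, ml F u = 0 → u = 0) (u : U) :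
    (eqvF hi u : Fin a ⊕ Fin a → ℂ) = ml F u := rfl

/-- Determinants of the blocks. -/
theorem block_of' (jd : JDisc) (h : PM Z) {m w : ℕ} (hU : Stab (LZ Z) U) (k : BlD w Z U)
    {ι : Type} [Fintype ι] [DecidableEq ι] (f : Basis ι ℂ U)
    (Q : ι → (Fin G ⊕ Fin G → ℂ) →ₗ[ℂ] U)
    (hQ : ∀ y g x, (Q y (RZ Z g x) : Fin G ⊕ Fin G → ℂ) = RZ Z g (Q y x))
    (M : MultilinearMap ℂ (fun _ : ι => Fin G ⊕ Fin G → ℂ) ℂ)
    (hM : ∀ v, M v = f.det (fun y => Q y (v y))) :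
    Blk m w (JR Z) M (fun σ => (tr Z (cjS σ.symm U) : ℂ)) := by
  obtain ⟨a, Z', E, F, φ, α, d, hf, h', hi, k, h4, hw, h0⟩ := k
  have h1 := weil_blk (m := m) (w := w) jd h' k (f.map (eqvF hi)) (J := JR Z)
    (fun y => qmat F (Q y)) (fun y => qmat_span hf h (hQ y)) h4 hw h0 M fun v => ?_
  · have h2 : (fun σ : ℂ ≃+* ℂ => (tr Z (cjS σ.symm U) : ℂ)) =
        fun σ => (tr Z' (cjS σ.symm (U.map (ml F))) : ℂ) := by
      funext σ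
      rw [tr_fac hf hi hU]
    rw [h2]
    exact h1
  · rw [hM]
    change _ = (f.map (eqvF hi)).det fun y => k.pU (qmat F (Q y) *ᵥ v y)
    have h3 : (fun y => k.pU (qmat F (Q y) *ᵥ v y)) = fun y => eqvF hi (Q y (v y)) := by
      funext y
      rw [qmat_mulVec]
      exact k.pU_of_mem (Submodule.mem_map_of_mem (Q y (v y)).2)
    rw [h3, Basis.det_map]
    congr 1
    funext y
    simp

end blocks

end

end Pool.Agent.Y90.S
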