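import Mathlib
import Pool.Agent.Y90.S.Loc
import Pool.Agent.Y90.NAsm

/-!
# Hodge classes belong to the system
-/

set_option linter.unusedSectionVars false

namespace Pool.Agent.Y90.S

open Matrix Module Pool.Agent.W437.HC Pool.Agent.W437.HD Pool.Agent.W548.Odd Pool.Agent.TH504.CB
open Pool.Agent.H204R3.CM (IsHodge)
open Pool.Agent.H204R3.SP (Kills bil2 IsTate)
open Pool.Agent.W522.U (exists_reps exists_st Du)
open Pool.Agent.W437.HP (cK cK_mul cK_one)

noncomputable section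

variable {G : ℕ} {Z : Matrix (Fin G) (Fin G) ℂ} {m w : ℕ}

/-- The alternation of an invariant form is a combination of Hodge classes. -/
theorem altQ_memS (h : PM Z) {κ : Type} [Fintype κ] [DecidableEq κ]
    {F : MultilinearMap ℂ (fun _ : κ => Fin G ⊕ Fin G → ℂ) ℂ}
    (hF : ∀ X ∈ LZ Z, act X (CF F) = 0)
    (hR : ∀ r : (Fin G ⊕ Fin G → ℚ) [⋀^κ]→ₗ[ℚ] ℚ, IsHodge (perOne Z) r →
      Generated m w (perOne Z) κ r) :
    altQ F ∈ RG' m w (perOne Z) κ := by
  obtain ⟨n, c, l, hl⟩ := altQ_expand F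
  have h1 : altQ F = ∑ j, c j • fun v : κ → (Fin G ⊕ Fin G → ℚ) => ((ratA F (l j) v : ℚ) : ℂ) := by
    funext v
    rw [hl v, Finset.sum_apply]
    rfl
  rw [h1]
  refine Submodule.sum_mem _ fun j _ => Submodule.smul_mem _ _ ?_
  exact RG_of (hR _ (h.cht.hodge_rat gal_LZ DZ_mem hF (l j)))

theorem bil_memS (h : PM Z) (b : (Fin G ⊕ Fin G → ℂ) →ₗ[ℂ] (Fin G ⊕ Fin G → ℂ) →ₗ[ℂ] ℂ)
    (hb : ∀ g u v, b (RZ Z g u) (RZ Z g v) = (1 : Gam (GG (LZ Z)) →* ℂ) g * b u v) :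
    bil2 b ∈ NG m w (perOne Z) (Fin 2) := by
  intro i1 i2
  obtain rfl : i1 = Fin.fintype 2 := Subsingleton.elim _ _
  obtain rfl : i2 = instDecidableEqFin 2 := Subsingleton.elim _ _
  refine altQ_memS h (fun X hX => act_of_kills fun v => ?_) fun r hr =>
    Generated.divisor h.isAV (κ := Fin 2) (Nat.card_fin 2) r hr
  have h1 := (rz_bil h stab_top stab_top b).1 (fun g u _ v _ => by
    rw [hb, MonoidHom.one_apply, one_mul]) X hX (v 0) trivial (v 1) trivial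
  rw [Fin.sum_univ_two]
  exact h1

/-- The alternation of an alternating form. -/
theorem altQ_altS (h : PM Z) {κ : Type} [Fintype κ] [DecidableEq κ]
    (f : (Fin G ⊕ Fin G → ℚ) [⋀^κ]→ₗ[ℚ] ℚ)
    (hf : altQ (evalM (cst ℂ (CF f.toMultilinearMap))) ∈ RG' m w (perOne Z) κ) :
    Generated m w (perOne Z) κ f := by
  refine RG_descent h.isAV ?_
  have h1 : (fun v : κ → (Fin G ⊕ Fin G → ℚ) => ((f v : ℚ) : ℂ)) =
      ((Fintype.card (Equiv.Perm κ) : ℂ))⁻¹ • altQ (evalM (cst ℂ (CF f.toMultilinearMap))) := by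
    funext v
    have h2 : ∀ σ : Equiv.Perm κ, ((Equiv.Perm.sign σ : ℤ) : ℂ) *
        evalM (cst ℂ (CF f.toMultilinearMap)) (fun k => cv (v (σ k))) = ((f v : ℚ) : ℂ) := by
      intro σ
      have h3 : evalM (cst ℂ (CF f.toMultilinearMap)) (fun k => cv (v (σ k))) =
          ((f (fun k => v (σ k)) : ℚ) : ℂ) := by
        have h4 := CF_eval f.toMultilinearMap (fun k => v (σ k))
        rw [evalM_apply]
        change _ = ((f.toMultilinearMap (fun k => v (σ k)) : ℚ) : ℂ)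
        rw [h4, evalF_castK]
        rfl
      rw [h3, show (fun k => v (σ k)) = v ∘ σ from rfl, AlternatingMap.map_perm, Units.smul_def,
        zsmul_eq_mul]
      push_cast
      rw [← mul_assoc, ← Int.cast_mul, ← Units.val_mul, Int.units_mul_self, Units.val_one,
        Int.cast_one, one_mul]
    rw [Pi.smul_apply, smul_eq_mul]
    change _ = _ * altQ (evalM (cst ℂ (CF f.toMultilinearMap))) v
    unfold altQ
    rw [Finset.sum_congr rfl fun σ _ => h2 σ, Finset.sum_const, nsmul_eq_mul, Finset.card_univ,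
      ← mul_assoc, inv_mul_cancel₀, one_mul]
    exact_mod_cast Fintype.card_ne_zero
  rw [h1]
  exact Submodule.smul_mem _ _ hf

/-- Balanced products of determinants. -/
theorem reduceS (jd : JDisc) (jc : JCore) (h : PM Z) (hm : 1 ≤ m) {S : Type} [Fintype S]
    (W : S → Submodule ℂ (Fin G ⊕ Fin G → ℂ)) (hW : ∀ q, IrS (LZ Z) (W q))
    (hbl : ∀ q, BlD w Z (W q) ∨ LnD m Z (W q))
    (hsum : ∀ σ : ℂ ≃+* ℂ, ∑ q, (tr Z (cjS σ.symm (W q)) : ℂ) = 0)
    (ι : S → Type) [∀ q, Fintype (ι q)] [∀ q, DecidableEq (ι q)]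
    (f : ∀ q, Basis (ι q) ℂ (W q)) (Q : ∀ q, ι q → (Fin G ⊕ Fin G → ℂ) →ₗ[ℂ] W q)
    (hQ : ∀ q y g x, (Q q y (RZ Z g x) : Fin G ⊕ Fin G → ℂ) = RZ Z g (Q q y x))
    (ψ : MultilinearMap ℂ (fun _ : (Σ q, ι q) => Fin G ⊕ Fin G → ℂ) ℂ)
    (hψ : ∀ v, ψ v = ∏ q, (f q).det (fun y => Q q y (v ⟨q, y⟩))) :
    ψ ∈ NG m w (perOne Z) (Σ q, ι q) := by
  classical
  let p : S → Prop := fun q => BlD w Z (W q)
  have hL : ∀ q, ¬p q → LnD m Z (W q) := fun q hq => (hbl q).resolve_left hq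
  have hL1 : ∀ q, ¬p q → Fintype.card (ι q) = 1 := fun q hq => by
    rw [← finrank_eq_card_basis (f q), (hL q hq).1]
  let eD : {q // p q} ≃ Fin (Fintype.card {q // p q}) := Fintype.equivFin _
  let qs : Fin (Fintype.card {q // p q}) → S := fun j => (eD.symm j).1
  have hy : ∀ q : {q // ¬p q}, ∃ y₀ : ι q.1, ∀ y, y = y₀ := fun q =>
    Fintype.card_eq_one_iff.1 (hL1 q.1 q.2)
  choose y₀ hy₀ using hy
  -- the slots
  let g : ((Σ j, ι (qs j)) ⊕ {q // ¬p q}) → (Σ q, ι q) :=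
    Sum.elim (fun x => ⟨qs x.1, x.2⟩) (fun b => ⟨b.1, y₀ b⟩)
  have hg : Function.Bijective g := by
    constructor
    · rintro (⟨j, y⟩ | b) (⟨j', y'⟩ | b') hxy
      · have h1 : qs j = qs j' := congrArg Sigma.fst hxy
        have h2 : eD.symm j = eD.symm j' := Subtype.ext h1
        obtain rfl := eD.symm.injective h2
        have h3 : y = y' := eq_of_heq (Sigma.mk.inj hxy).2
        rw [h3]
      · have h1 : qs j = b'.1 := congrArg Sigma.fst hxy
        exact absurd (h1 ▸ (eD.symm j).2) b'.2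
      · have h1 : b.1 = qs j' := congrArg Sigma.fst hxy
        exact absurd (h1.symm ▸ (eD.symm j').2) b.2
      · have h1 : b.1 = b'.1 := congrArg Sigma.fst hxy
        rw [Subtype.ext h1]
    · rintro ⟨q, y⟩
      by_cases hq : p q
      · refine ⟨Sum.inl ⟨eD ⟨q, hq⟩, cast (by
          change ι q = ι (eD.symm (eD ⟨q, hq⟩)).1
          rw [Equiv.symm_apply_apply]) y⟩, ?_⟩
        change (⟨(eD.symm (eD ⟨q, hq⟩)).1, _⟩ : Σ q, ι q) = ⟨q, y⟩
        have h1 : (eD.symm (eD ⟨q, hq⟩)).1 = q := by rw [Equiv.symm_apply_apply]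
        exact Sigma.ext h1 (cast_heq _ _)
      · refine ⟨Sum.inr ⟨q, hq⟩, ?_⟩
        change (⟨q, y₀ ⟨q, hq⟩⟩ : Σ q, ι q) = ⟨q, y⟩
        rw [hy₀ ⟨q, hq⟩ y]
  let e := Equiv.ofBijective g hg
  have he : ∀ x, e x = g x := fun _ => rfl
  -- the blocks
  let M : ∀ j : Fin (Fintype.card {q // p q}),
      MultilinearMap ℂ (fun _ : ι (qs j) => Fin G ⊕ Fin G → ℂ) ℂ := fun j =>
    (f (qs j)).det.toMultilinearMap.compLinearMap (Q (qs j))
  have hM : ∀ j v, M j v = (f (qs j)).det (fun y => Q (qs j) y (v y)) := fun j v => rfl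
  let μ : {q // ¬p q} → (Fin G ⊕ Fin G → ℂ) →ₗ[ℂ] ℂ := fun b =>
    ((f b.1).coord (y₀ b)).comp (Q b.1 (y₀ b))
  have hμ : ∀ b v, μ b v = (f b.1).coord (y₀ b) (Q b.1 (y₀ b) v) := fun b v => rfl
  have hc := jc m w hm (Fintype.card {q // p q}) (Fin G ⊕ Fin G) (Fin G → ℂ) (perOne Z) (JR Z)
    h.cht h.isAV (fun j => ι (qs j)) M
    (fun j σ => (tr Z (cjS σ.symm (W (qs j))) : ℂ)) (fun j => ?_) {q // ¬p q} μ
    (fun b σ => (tr Z (cjS σ.symm (W b.1)) : ℂ)) (fun b => ?_) (fun σ => ?_)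
    (ψ.domDomCongr e.symm) fun v => ?_
  · refine (clo_NG h.isAV).reindex e hc ψ fun v => ?_
    rw [MultilinearMap.domDomCongr_apply]
    congr 1
    funext k
    rw [Equiv.apply_symm_apply]
  · exact block_of' jd h (hW _).2.1 (eD.symm j).2 (f (qs j)) (Q (qs j))
      (fun y g x => hQ _ _ g x) _ fun v => hM j v
  · exact line_of h (hW _).2.1 (hL b.1 b.2) _ _ (hQ _ _)
  · rw [← hsum σ, ← Fintype.sum_subtype_add_sum_subtype p]
    congr 1
    exact Equiv.sum_comp eD.symm (fun q : {q // p q} => (tr Z (cjS σ.symm (W q.1)) : ℂ))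
  · rw [MultilinearMap.domDomCongr_apply, hψ, ← Fintype.prod_subtype_mul_prod_subtype p]
    congr 1
    · rw [← Equiv.prod_comp eD.symm]
      refine Finset.prod_congr rfl fun j _ => ?_
      rw [hM]
      congr 1
      funext y
      congr 2
      rw [Equiv.symm_apply_eq, he]
      rfl
    · refine Finset.prod_congr rfl fun b _ => ?_
      rw [hμ]
      have : Unique (ι b.1) := ⟨⟨y₀ b⟩, hy₀ b⟩
      rw [Basis.det_apply, Matrix.det_unique]
      have h1 : (default : ι b.1) = y₀ b := hy₀ b _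
      have h2 : e.symm ⟨b.1, y₀ b⟩ = Sum.inr b := by
        rw [Equiv.symm_apply_eq, he]
        rfl
      rw [h1, Basis.toMatrix_apply, h2]
      rfl

theorem inv_memS (j1 : JRM) (j2 : JRMdim) (j3 : JOdd) (j4 : JTwo) (j5 : JCop) (j6 : JTwoTwo)
    (j7 : JIQ) (jd : JDisc) (jc : JCore) (h : PM Z) (hm : 1 ≤ m) (hw : 2 ≤ w) (hs : AdmF m w Z)
    {n : ℕ} (φ : MultilinearMap ℂ (fun _ : Fin n × Fin 2 => Fin G ⊕ Fin G → ℂ) ℂ)
    (hφ : ∀ (g : Gam (GG (LZ Z))) v, φ (fun k => RZ Z g (v k)) = φ v) :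
    φ ∈ NG m w (perOne Z) (Fin n × Fin 2) := by
  have hSI : ∀ {U}, W522.U.SI (RZ Z) U ↔ IrS (LZ Z) U := fun {U} => si_iff h.genI
  obtain ⟨s, W, hW, hWW, hall⟩ := exists_reps (rz_proj h)
  obtain ⟨st, hst, hDu, hDu'⟩ := exists_st (χ := 1) (rz_proj h) (om G) om_nd (rz_om h) W hW hWW hall
  refine forms_mem3 (χ := 1) (fun Δ hΔ => fi_top Δ hΔ) (om G) om_nd (rz_om h) ?_ ?_ ?_ (rz_proj h)
    W hW hWW hall st hst hDu hDu' (NG m w (perOne Z)) (clo_NG h.isAV) (bil_memS h) ?_ φ ?_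
  · intro U hU hn
    exact rz_unip h ((loc3 j1 j2 j3 j4 j5 j6 j7 h hw hs (hSI.1 hU)).1 hn).1
  · intro U hU hn
    exact rz_line h (hSI.1 hU) hn
  · intro U U' hU hU' hn _ ψ hT
    exact rz_twist h (hSI.1 hU) (hSI.1 hU')
      ((loc3 j1 j2 j3 j4 j5 j6 j7 h hw hs (hSI.1 hU)).1 hn).2 ψ hT
  · intro a ha hag ι _ _ f Q hQ ψ hψ
    have hI : ∀ i, IrS (LZ Z) (W i) := fun i => hSI.1 (hW i)
    refine reduceS jd jc h hm (fun q : (Σ i, Fin (a i).toNat) => W q.1) (fun q => hI q.1)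
      (fun q => ?_) (fun σ => sum_trG h W hI st hst hDu a ha hag σ.symm) ι f Q hQ ψ hψ
    rcases (loc3 j1 j2 j3 j4 j5 j6 j7 h hw hs (hI q.1)).2 with ⟨h1, -⟩ | h1
    · exfalso
      have h2 := hDu' q.1 q.1 ((rz_du h (hI q.1).2.1 (hI q.1).2.1).2 h1)
      have h3 := ha q.1
      rw [← h2] at h3
      have h4 : a q.1 = 0 := by omega
      have h5 := q.2.2
      have h6 : (a q.1).toNat = 0 := by rw [h4]; rfl
      exact absurd (lt_of_lt_of_eq h5 h6) (Nat.not_lt_zero _)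
    · exact h1
  · refine ⟨⊤, inferInstance, fun g _ v => ?_⟩
    rw [MonoidHom.one_apply, one_pow, one_mul]
    exact hφ g v

/-- **Hodge classes belong to the system.** -/
theorem hodge_genS (j1 : JRM) (j2 : JRMdim) (j3 : JOdd) (j4 : JTwo) (j5 : JCop) (j6 : JTwoTwo)
    (j7 : JIQ) (jd : JDisc) (jc : JCore) (h : PM Z) (hm : 1 ≤ m) (hw : 2 ≤ w) (hs : AdmF m w Z)
    {κ : Type} [Finite κ] (f : (Fin G ⊕ Fin G → ℚ) [⋀^κ]→ₗ[ℚ] ℚ) (hf : IsHodge (perOne Z) f) :
    Generated m w (perOne Z) κ f := by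
  classical
  let _ : Fintype κ := Fintype.ofFinite κ
  refine altQ_altS h f ?_
  set φ := evalM (cst ℂ (CF f.toMultilinearMap)) with hφ
  have hinv := hodge_inv h hf
  rcases Nat.even_or_odd (Fintype.card κ) with he | ho
  · obtain ⟨n, hn⟩ := he
    have e : κ ≃ Fin n × Fin 2 := Fintype.equivOfCardEq (by
      rw [Fintype.card_prod, Fintype.card_fin, Fintype.card_fin, hn]
      ring)
    have h1 := inv_memS j1 j2 j3 j4 j5 j6 j7 jd jc h hm hw hs (φ.domDomCongr e) (fun g v => by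
      rw [MultilinearMap.domDomCongr_apply, MultilinearMap.domDomCongr_apply]
      exact hinv g _)
    have h2 : φ ∈ NG m w (perOne Z) κ := (clo_NG h.isAV).reindex e.symm h1 φ fun v => by
      rw [MultilinearMap.domDomCongr_apply]
      congr 1
      funext k
      simp
    exact h2 _ _
  · have h0 : φ = 0 := by
      refine MultilinearMap.ext fun v => ?_
      have h1 := hinv (gt (D := ph _ (DZ Z)) (by rw [← map_mul, DZ_sq h.det, map_one])
        (mem_GG.2 DZ_mem) (-1)) v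
      have h2 : (fun k => RZ Z (gt (D := ph _ (DZ Z)) (by rw [← map_mul, DZ_sq h.det, map_one])
        (mem_GG.2 DZ_mem) (-1)) (v k)) = fun k => (-1 : ℂ) • v k := by
        funext k
        change torE (ph _ (DZ Z)) (-1) (v k) = _
        rw [torE_apply]
        simp only [Units.val_neg, Units.val_one, inv_neg, inv_one]
        module
      rw [h2, MultilinearMap.map_smul_univ, Finset.prod_const, Finset.card_univ,
        Odd.neg_one_pow ho, neg_one_smul] at h1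
      rw [← hφ] at h1
      have h3 : φ v = 0 := by linear_combination (-1 / 2 : ℂ) * h1
      rw [h3]
      rfl
    have h1 : φ ∈ NG m w (perOne Z) κ := by
      rw [h0]
      exact Submodule.zero_mem _
    exact h1 _ _

end

end Pool.Agent.Y90.S
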