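import Mathlib
import Pool.Agent.Y90.S.Asm
import Pool.Agent.Y90.NAb

/-!
# Hodge classes on admissible abelian varieties
-/

set_option linter.unusedSectionVars false

namespace Pool.Agent.Y90.S

open Matrix Module Pool.Agent.W437.HC Pool.Agent.W437.HD Pool.Agent.W548.Odd Pool.Agent.TH504.CB
open Pool.Agent.H204R3.CM (IsHodge)
open Pool.Agent.W437.HP (cK cK_mul cK_one)

noncomputable section

section conv

variable {B B' : Type} [Fintype B] [DecidableEq B] [Fintype B'] [DecidableEq B']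
  {T T' : Type} [AddCommGroup T] [Module ℂ T] [AddCommGroup T'] [Module ℂ T']
  {per : (B → ℚ) →+ T} {per' : (B' → ℚ) →+ T'} {J : Matrix B B ℝ} {J' : Matrix B' B' ℝ}

/-- Homomorphisms commute with the complex structures. -/
theorem cht_conv (h : Cht per J) (h' : Cht per' J') {R : Matrix B' B ℚ} {Ψ : T →ₗ[ℂ] T'}
    (hΨ : ∀ v, Ψ (per v) = per' (R *ᵥ v)) : cK ℂ R * DJ J = DJ J' * cK ℂ R := by
  obtain ⟨-, P, I, p1, p2, p3, p4⟩ := h
  obtain ⟨-, P', I', q1, q2, q3, q4⟩ := h'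
  have h1 : ∀ x : B → ℝ, P' (cK ℝ R *ᵥ x) = Ψ (P x) := by
    have h2 : P' ∘ₗ mulVecLin (cK ℝ R) = (Ψ.restrictScalars ℝ) ∘ₗ P := by
      refine LinearMap.pi_ext' fun b => LinearMap.ext_ring ?_
      have h3 : (Pi.single b 1 : B → ℝ) = fun i => (((Pi.single b 1 : B → ℚ) i : ℚ) : ℝ) := by
        funext i
        by_cases hi : i = b
        · subst hi
          simp
        · simp [Pi.single_eq_of_ne hi]
      have h4 : cK ℝ R *ᵥ (fun i => (((Pi.single b 1 : B → ℚ) i : ℚ) : ℝ)) =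
          fun i => (((R *ᵥ (Pi.single b 1 : B → ℚ)) i : ℚ) : ℝ) := by
        funext i
        simp [cK, mulVec, dotProduct]
      simp only [LinearMap.comp_apply, LinearMap.coe_single, mulVecLin_apply,
        LinearMap.coe_restrictScalars]
      rw [h3, h4, q1, p1, hΨ]
    exact fun x => congrArg (fun f => f x) h2
  refine DJ_of_real ?_
  apply Matrix.toLin'.injective
  refine LinearMap.ext fun x => ?_
  rw [toLin'_apply, toLin'_apply, ← mulVec_mulVec, ← mulVec_mulVec]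
  have h5 : P' (cK ℝ R *ᵥ (J *ᵥ x)) = P' (J' *ᵥ (cK ℝ R *ᵥ x)) := by
    rw [h1, p2, map_smul, q2, h1]
  rw [← q3 (cK ℝ R *ᵥ (J *ᵥ x)), h5, q3]

end conv

section cm

variable {H T : Type} [AddCommGroup H] [Module ℚ H] [AddCommGroup T] [Module ℂ T] {per : H →+ T}
  {a : ℕ} {Z : Matrix (Fin a) (Fin a) ℂ}

/-- Complex multiplication of abelian subvarieties and of period matrices. -/
theorem cm_of_sub (h : PM Z) (hs : IsSimpleAV Z) (ha : 0 < a) {ι : (Fin a ⊕ Fin a → ℚ) →ₗ[ℚ] H}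
    {π : H →ₗ[ℚ] (Fin a ⊕ Fin a → ℚ)} {Ψ₁ : (Fin a → ℂ) →ₗ[ℂ] T} {Ψ₂ : T →ₗ[ℂ] (Fin a → ℂ)}
    (hπι : ∀ y, π (ι y) = y) (g₁ : ∀ y, Ψ₁ (perOne Z y) = per (ι y))
    (g₂ : ∀ v, Ψ₂ (per v) = perOne Z (π v)) (hcm : St.IsCMSub per (LinearMap.range ι)) :
    HasCM Z := by
  have hinj : Function.Injective ι := fun x y hxy => by
    rw [← hπι x, hxy, hπι]
  obtain ⟨A', hc, hr, hD⟩ := hcm
  let e : (Fin a ⊕ Fin a → ℚ) ≃ₗ[ℚ] LinearMap.range ι := LinearEquiv.ofInjective ι hinj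
  have he : ∀ y, (e y : H) = ι y := fun y => rfl
  let Φ : Matrix (Fin a ⊕ Fin a) (Fin a ⊕ Fin a) ℚ ≃ₗ[ℚ]
      (LinearMap.range ι →ₗ[ℚ] LinearMap.range ι) := Matrix.toLin'.trans e.conj
  have hΦ : ∀ M u, Φ M u = e (M *ᵥ e.symm u) := by
    intro M u
    change e.conj (Matrix.toLin' M) u = _
    rw [LinearEquiv.conj_apply_apply, Matrix.toLin'_apply]
  have hΦm : ∀ M N, Φ M ∘ₗ Φ N = Φ (M * N) := by
    intro M N
    refine LinearMap.ext fun u => ?_
    rw [LinearMap.comp_apply, hΦ, hΦ, hΦ, LinearEquiv.symm_apply_apply, mulVec_mulVec]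
  have hrk : finrank ℚ (LinearMap.range ι) = 2 * a := by
    rw [LinearMap.finrank_range_of_inj hinj, finrank_fintype_fun_eq_card, Fintype.card_sum,
      Fintype.card_fin]
    ring
  let S : Set (Matrix (Fin a ⊕ Fin a) (Fin a ⊕ Fin a) ℚ) := {M | Φ M ∈ A'}
  let A := Algebra.adjoin ℚ S
  have hSc : ∀ M ∈ S, ∀ N ∈ S, M * N = N * M := by
    intro M hM N hN
    apply Φ.injective
    rw [← hΦm, ← hΦm]
    exact (hc _ hM _ hN).1
  have hSA : ∀ M ∈ S, ∀ N ∈ A, M * N = N * M := by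
    intro M hM N hN
    induction hN using Algebra.adjoin_induction with
    | mem x hx => exact hSc M hM x hx
    | algebraMap r => exact (Algebra.commutes r M).symm
    | add x y _ _ hx hy => rw [mul_add, add_mul, hx, hy]
    | mul x y _ _ hx hy => rw [← mul_assoc, hx, mul_assoc, hy, mul_assoc]
  have hAA : ∀ M ∈ A, ∀ N ∈ A, M * N = N * M := by
    intro M hM N hN
    induction hM using Algebra.adjoin_induction with
    | mem x hx => exact hSA x hx N hN
    | algebraMap r => exact Algebra.commutes r N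
    | add x y _ _ hx hy => rw [mul_add, add_mul, hx, hy]
    | mul x y _ _ hx hy => rw [mul_assoc, hy, ← mul_assoc, hx, mul_assoc]
  have hSD : ∀ M ∈ S, qm M * DZ Z = DZ Z * qm M := by
    intro M hM
    obtain ⟨Ψ, hΨ⟩ := hD _ hM
    have h1 : ∀ v, (Ψ₂.comp (Ψ.comp Ψ₁)) (perOne Z v) = perOne Z (M *ᵥ v) := by
      intro v
      rw [LinearMap.comp_apply, LinearMap.comp_apply, g₁]
      have h2 := hΨ (e v)
      rw [he, hΦ, LinearEquiv.symm_apply_apply, he] at h2
      rw [h2, g₂, hπι]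
    have h3 := cht_conv h.cht h.cht h1
    rw [DJ_JR] at h3
    exact h3
  have hAD : ∀ M ∈ A, qm M * DZ Z = DZ Z * qm M := by
    intro M hM
    induction hM using Algebra.adjoin_induction with
    | mem x hx => exact hSD x hx
    | algebraMap r =>
      have h1 : qm (algebraMap ℚ (Matrix (Fin a ⊕ Fin a) (Fin a ⊕ Fin a) ℚ) r) =
          (r : ℂ) • 1 := by
        ext i j
        change ((algebraMap ℚ (Matrix (Fin a ⊕ Fin a) (Fin a ⊕ Fin a) ℚ) r i j : ℚ) : ℂ) = _
        rw [Matrix.algebraMap_matrix_apply, Matrix.smul_apply, Matrix.one_apply]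
        split_ifs <;> simp
      rw [h1, smul_mul_assoc, one_mul, mul_smul_comm, mul_one]
    | add x y _ _ hx hy =>
      have h1 : qm (x + y) = qm x + qm y := by
        ext i j
        simp [qm]
      rw [h1, add_mul, mul_add, hx, hy]
    | mul x y _ _ hx hy => rw [qm_mul, mul_assoc, hy, ← mul_assoc, hx, mul_assoc]
  -- the dimension
  let v0 : Fin a ⊕ Fin a → ℚ := Pi.single (Sum.inl ⟨0, ha⟩) 1
  have hv0 : v0 ≠ 0 := by
    intro h0
    have h1 := congrFun h0 (Sum.inl ⟨0, ha⟩)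
    simp [v0] at h1
  let ev : A →ₗ[ℚ] (Fin a ⊕ Fin a → ℚ) :=
    { toFun := fun M => (M : Matrix (Fin a ⊕ Fin a) (Fin a ⊕ Fin a) ℚ) *ᵥ v0
      map_add' := fun a b => add_mulVec _ _ _
      map_smul' := fun c a => smul_mulVec _ _ _ }
  have hev : Function.Injective ev := by
    rw [injective_iff_map_eq_zero]
    intro M hM
    have hM' : (M : Matrix (Fin a ⊕ Fin a) (Fin a ⊕ Fin a) ℚ) *ᵥ v0 = 0 := hM
    rcases hdivZ h.isPer (Set.mem_singleton Z) hs M.1 (by
      intro X hX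
      rw [← img_eq] at hX
      exact (comm_LZ (hAD M.1 M.2) X hX).symm) with h1 | h1
    · exact Subtype.ext h1
    · exfalso
      have h2 := qm_mulVec M.1 v0
      rw [hM'] at h2
      have h3 : (fun i => (((0 : Fin a ⊕ Fin a → ℚ) i : ℚ) : ℂ)) = qm M.1 *ᵥ 0 := by
        rw [mulVec_zero]
        funext i
        simp
      rw [h3] at h2
      have h4 := (Matrix.mulVec_injective_iff_isUnit.2 h1) h2
      apply hv0
      funext i
      have h5 : ((v0 i : ℚ) : ℂ) = 0 := congrFun h4 i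
      rw [Pi.zero_apply]
      exact_mod_cast h5
  have hle : finrank ℚ A ≤ 2 * a := by
    have h1 := LinearMap.finrank_le_finrank_of_injective hev
    rw [Module.finrank_fintype_fun_eq_card, Fintype.card_sum, Fintype.card_fin] at h1
    omega
  have hge : 2 * a ≤ finrank ℚ A := by
    rw [← hrk, ← hr, ← LinearEquiv.finrank_map_eq Φ.symm A']
    refine Submodule.finrank_mono (t := Subalgebra.toSubmodule A) ?_
    rintro _ ⟨b, hb, rfl⟩
    refine Algebra.subset_adjoin ?_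
    change Φ (Φ.symm b) ∈ A'
    rw [LinearEquiv.apply_symm_apply]
    exact hb
  exact ⟨A, hAA, le_antisymm hle hge, hAD⟩

end cm

variable {H T : Type} [AddCommGroup H] [Module ℚ H] [AddCommGroup T] [Module ℂ T] {per : H →+ T}
  {G : ℕ} {Z : Matrix (Fin G) (Fin G) ℂ}

/-- The simple factors of the period matrix are admissible. -/
theorem admF_of (j8 : JTransR) (j9 : JTransQ) (A : H ≃ₗ[ℚ] (Fin G ⊕ Fin G → ℚ))
    (hC : Cht (per.comp A.symm.toLinearMap.toAddMonoidHom) (JR Z)) {m w : ℕ}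
    (hs : Admissible m w per) : AdmF m w Z := by
  intro a Z' E F hfac h' hsim ha
  obtain ⟨Ψ₁, h₁⟩ := h'.cht.hom hC (R := E) (by rw [DJ_JR, DJ_JR]; exact hfac.de.symm)
  obtain ⟨Ψ₂, h₂⟩ := hC.hom h'.cht (R := F) (by rw [DJ_JR, DJ_JR]; exact hfac.fd)
  obtain ⟨ι, hι⟩ : ∃ ι : (Fin a ⊕ Fin a → ℚ) →ₗ[ℚ] H, ∀ y, ι y = A.symm (E *ᵥ y) :=
    ⟨A.symm.toLinearMap.comp (Matrix.mulVecLin E), fun y => rfl⟩
  obtain ⟨π, hπ⟩ : ∃ π : H →ₗ[ℚ] (Fin a ⊕ Fin a → ℚ), ∀ v, π v = F *ᵥ A v :=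
    ⟨(Matrix.mulVecLin F).comp A.toLinearMap, fun y => rfl⟩
  have hπι : ∀ y, π (ι y) = y := by
    intro y
    rw [hπ, hι, LinearEquiv.apply_symm_apply, mulVec_mulVec, hfac.fe, one_mulVec]
  have g₁ : ∀ y, Ψ₁ (perOne Z' y) = per (ι y) := fun y => by
    rw [hι]
    exact h₁ y
  have g₂ : ∀ v, Ψ₂ (per v) = perOne Z' (π v) := fun v => by
    have h3 := h₂ (A v)
    have h4 : (per.comp A.symm.toLinearMap.toAddMonoidHom) (A v) = per v := by
      change per (A.symm (A v)) = per v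
      rw [LinearEquiv.symm_apply_apply]
    rw [h4] at h3
    rw [hπ]
    exact h3
  have hsp : ∀ t : Fin a → ℂ, t ∈ Submodule.span ℝ (Set.range (perOne Z')) := by
    intro t
    rw [perOne_span h']
    trivial
  have hr₁ : ∀ (r : ℝ) t, Ψ₁ (r • t) = r • Ψ₁ t := fun r t => Ψ₁.map_smul_of_tower r t
  have hr₂ : ∀ (r : ℝ) t, Ψ₂ (r • t) = r • Ψ₂ t := fun r t => Ψ₂.map_smul_of_tower r t
  have hinj : Function.Injective ι := fun x y hxy => by
    rw [← hπι x, hxy, hπι]
  obtain ⟨U, hU⟩ : ∃ U : Submodule ℚ H, U = LinearMap.range ι := ⟨_, rfl⟩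
  have hUι : ∀ y, ι y ∈ U := fun y => by
    rw [hU]
    exact ⟨y, rfl⟩
  have hrank : finrank ℚ U = 2 * a := by
    rw [hU, LinearMap.finrank_range_of_inj hinj, finrank_fintype_fun_eq_card, Fintype.card_sum,
      Fintype.card_fin]
    ring
  -- the image of the first map
  have hm₁ : ∀ (S : Set H) (S' : Set (Fin a ⊕ Fin a → ℚ)), (∀ y ∈ S', ι y ∈ S) →
      ∀ t ∈ Submodule.span ℝ (perOne Z' '' S'), Ψ₁ t ∈ Submodule.span ℝ (per '' S) := by
    intro S S' hS t ht
    induction ht using Submodule.span_induction with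
    | mem t ht =>
      obtain ⟨y, hy, rfl⟩ := ht
      rw [g₁]
      exact Submodule.subset_span ⟨_, hS y hy, rfl⟩
    | zero =>
      rw [map_zero]
      exact Submodule.zero_mem _
    | add x y _ _ hx hy =>
      rw [map_add]
      exact Submodule.add_mem _ hx hy
    | smul r x _ hx =>
      rw [hr₁]
      exact Submodule.smul_mem _ _ hx
  have hm₂ : ∀ (S : Set H) (S' : Set (Fin a ⊕ Fin a → ℚ)), (∀ v ∈ S, π v ∈ S') →
      ∀ t ∈ Submodule.span ℝ (per '' S), Ψ₂ t ∈ Submodule.span ℝ (perOne Z' '' S') := by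
    intro S S' hS t ht
    induction ht using Submodule.span_induction with
    | mem t ht =>
      obtain ⟨v, hv, rfl⟩ := ht
      rw [g₂]
      exact Submodule.subset_span ⟨_, hS v hv, rfl⟩
    | zero =>
      rw [map_zero]
      exact Submodule.zero_mem _
    | add x y _ _ hx hy =>
      rw [map_add]
      exact Submodule.add_mem _ hx hy
    | smul r x _ hx =>
      rw [hr₂]
      exact Submodule.smul_mem _ _ hx
  have hΨ : ∀ t, Ψ₂ (Ψ₁ t) = t := by
    intro t
    have ht := hsp t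
    induction ht using Submodule.span_induction with
    | mem t ht =>
      obtain ⟨y, rfl⟩ := ht
      rw [g₁, g₂, hπι]
    | zero => rw [map_zero, map_zero]
    | add x y _ _ hx hy => rw [map_add, map_add, hx, hy]
    | smul r x _ hx => rw [hr₁, hr₂, hx]
  have hsub : St.IsSub per U := by
    intro x hx
    obtain ⟨t, rfl⟩ : ∃ t, x = Ψ₁ t := by
      induction hx using Submodule.span_induction with
      | mem x hx =>
        obtain ⟨v, hv, rfl⟩ := hx
        rw [hU] at hv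
        obtain ⟨y, rfl⟩ := hv
        exact ⟨_, (g₁ y).symm⟩
      | zero => exact ⟨0, (map_zero _).symm⟩
      | add x y _ _ hx hy =>
        obtain ⟨s, rfl⟩ := hx
        obtain ⟨t, rfl⟩ := hy
        exact ⟨s + t, (map_add _ _ _).symm⟩
      | smul r x _ hx =>
        obtain ⟨s, rfl⟩ := hx
        exact ⟨r • s, (hr₁ _ _).symm⟩
    rw [← map_smul]
    refine hm₁ U Set.univ (fun y _ => hUι y) _ ?_
    rw [Set.image_univ]
    exact hsp _
  have hsimple : St.IsSimpleSub per U := by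
    refine ⟨hsub, ?_, fun U' hU' hsub' => ?_⟩
    · intro h0
      rw [h0, finrank_bot] at hrank
      omega
    · have h3 := hsim (U'.comap ι) (fun x hx => by
        have h4 := hm₁ U' (U'.comap ι) (fun y hy => hy) x hx
        have h5 := hsub' _ h4
        have h6 := hm₂ U' (U'.comap ι) (fun v hv => by
          have h7 := hU' hv
          rw [hU] at h7
          obtain ⟨y, rfl⟩ := h7
          change ι (π (ι y)) ∈ U'
          rw [hπι]
          exact hv) _ h5
        rwa [map_smul, hΨ] at h6)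
      rcases h3 with h3 | h3
      · left
        rw [Submodule.eq_bot_iff]
        intro v hv
        have h7 := hU' hv
        rw [hU] at h7
        obtain ⟨y, rfl⟩ := h7
        have h8 : y ∈ U'.comap ι := hv
        rw [h3, Submodule.mem_bot] at h8
        rw [h8, map_zero]
      · right
        refine le_antisymm hU' ?_
        intro v hv
        rw [hU] at hv
        obtain ⟨y, rfl⟩ := hv
        have h8 : y ∈ U'.comap ι := by rw [h3]; trivial
        exact h8
  obtain ⟨h3, h4⟩ := hs U hsimple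
  refine ⟨fun hcm => ?_, ?_⟩
  · suffices hcm' : St.IsCMSub per U by
      have h5 := h3 hcm'
      omega
    obtain ⟨A', hc, hr, hD⟩ := hcm
    let e₀ : (Fin a ⊕ Fin a → ℚ) ≃ₗ[ℚ] LinearMap.range ι := LinearEquiv.ofInjective ι hinj
    let e : (Fin a ⊕ Fin a → ℚ) ≃ₗ[ℚ] U := e₀.trans (LinearEquiv.ofEq _ _ hU.symm)
    have he : ∀ y, (e y : H) = ι y := fun y => rfl
    let Φ : Matrix (Fin a ⊕ Fin a) (Fin a ⊕ Fin a) ℚ ≃ₗ[ℚ] (U →ₗ[ℚ] U) :=
      Matrix.toLin'.trans e.conj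
    have hΦ : ∀ M u, Φ M u = e (M *ᵥ e.symm u) := by
      intro M u
      change e.conj (Matrix.toLin' M) u = _
      rw [LinearEquiv.conj_apply_apply, Matrix.toLin'_apply]
    have hΦm : ∀ M N, Φ M ∘ₗ Φ N = Φ (M * N) := by
      intro M N
      refine LinearMap.ext fun u => ?_
      rw [LinearMap.comp_apply, hΦ, hΦ, hΦ, LinearEquiv.symm_apply_apply, mulVec_mulVec]
    refine ⟨(Subalgebra.toSubmodule A').map Φ.toLinearMap, ?_, ?_, ?_⟩
    · rintro _ ⟨M, hM, rfl⟩ _ ⟨N, hN, rfl⟩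
      change Φ M ∘ₗ Φ N = Φ N ∘ₗ Φ M ∧ Φ M ∘ₗ Φ N ∈ _
      rw [hΦm, hΦm, hc M hM N hN]
      exact ⟨rfl, ⟨N * M, A'.mul_mem hN hM, rfl⟩⟩
    · rw [hrank, ← hr]
      exact LinearEquiv.finrank_map_eq Φ (Subalgebra.toSubmodule A')
    · rintro _ ⟨M, hM, rfl⟩
      obtain ⟨Ψ₃, h₅⟩ := h'.cht.hom h'.cht (R := M) (by rw [DJ_JR]; exact hD M hM)
      refine ⟨Ψ₁.comp (Ψ₃.comp Ψ₂), fun u => ?_⟩
      obtain ⟨y, rfl⟩ := e.surjective u
      rw [LinearMap.comp_apply, LinearMap.comp_apply, he, g₂, hπι, h₅, g₁]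
      change _ = per ((Φ M (e y) : U) : H)
      rw [hΦ, LinearEquiv.symm_apply_apply, he]
  · rw [hU] at h4
    rcases h4 with hcm | h5 | ⟨k, hk, hr⟩ | ⟨p, q, hr, hp, hq, hc⟩
    · exact Or.inl (cm_of_sub h' hsim ha hπι g₁ g₂ hcm)
    · rw [hU] at hrank
      exact Or.inr (Or.inl (by omega))
    · obtain ⟨M, A₁, r, hA⟩ := j8 H T per a Z' h' ι π Ψ₁ Ψ₂ hπι g₁ g₂ k hr
      exact Or.inr (Or.inr (Or.inl ⟨k, M, A₁, hk, r, hA⟩))
    · obtain ⟨d, φ, hq', hpq⟩ := j9 H T per a Z' h' ι π Ψ₁ Ψ₂ hπι g₁ g₂ p q hr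
      exact Or.inr (Or.inr (Or.inr ⟨p, q, φ, d, hq', hpq, hp, hq, hc⟩))

/-- The classes of the system are Hodge classes. -/
theorem Generated.isHodge {m w : ℕ} {κ : Type} {f : H [⋀^κ]→ₗ[ℚ] ℚ}
    (hf : Generated m w per κ f) : Finite κ → IsHodge per f := by
  induction hf with
  | @unit H T _ _ _ _ per hX κ _ f =>
    intro _
    refine ⟨MultilinearMap.constOfIsEmpty ℝ (fun _ => T) ((f 0 : ℚ) : ℝ), fun v => ?_,
      fun z _ u => ?_⟩
    · rw [Subsingleton.elim v 0]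
      rfl
    · rfl
  | divisor hX hκ f hf => exact fun _ => hf
  | weil hX h4 hn f hf => exact fun _ => hf.2.1
  | cm hX hm f hf => exact fun _ => hf
  | add f g _ _ hf hg =>
    intro hκ
    obtain ⟨ψ, h1, h2⟩ := hf hκ
    obtain ⟨ψ', h3, h4⟩ := hg hκ
    refine ⟨ψ + ψ', fun v => ?_, fun z hz u => ?_⟩
    · rw [_root_.add_apply, h1, h3, AlternatingMap.add_apply, Rat.cast_add]
    · rw [_root_.add_apply, _root_.add_apply, h2 z hz, h4 z hz]
  | smul a f _ hf =>
    intro hκ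
    obtain ⟨ψ, h1, h2⟩ := hf hκ
    refine ⟨(a : ℝ) • ψ, fun v => ?_, fun z hz u => ?_⟩
    · rw [_root_.smul_apply, h1, AlternatingMap.smul_apply, smul_eq_mul, smul_eq_mul, Rat.cast_mul]
    · rw [_root_.smul_apply, _root_.smul_apply, h2 z hz]
  | zero hX κ =>
    intro _
    refine ⟨0, fun v => ?_, fun z _ u => rfl⟩
    rw [_root_.zero_apply, AlternatingMap.zero_apply, Rat.cast_zero]
  | reindex e f _ hf =>
    intro hκ
    obtain ⟨ψ, h1, h2⟩ := hf (Finite.of_equiv _ e.symm)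
    refine ⟨ψ.domDomCongr e, fun v => ?_, fun z hz u => ?_⟩
    · rw [MultilinearMap.domDomCongr_apply, AlternatingMap.domDomCongr_apply]
      exact h1 _
    · rw [MultilinearMap.domDomCongr_apply, MultilinearMap.domDomCongr_apply]
      exact h2 z hz _
  | @cup H T _ _ _ _ per κ κ' _ _ _ _ f g _ _ h hh hf hg =>
    intro _
    obtain ⟨ψ, h1, h2⟩ := hf inferInstance
    obtain ⟨ψ', h3, h4⟩ := hg inferInstance
    have h5 : h = MultilinearMap.alternatization
        (prd f.toMultilinearMap g.toMultilinearMap) := by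
      ext v
      rw [hh, MultilinearMap.alternatization_apply]
      refine Finset.sum_congr rfl fun σ _ => ?_
      rw [MultilinearMap.domDomCongr_apply, prd_apply, Units.smul_def, zsmul_eq_mul]
      rfl
    rw [h5]
    refine isHodge_alt (prd ψ ψ') (fun v => ?_) fun z hz u => ?_
    · rw [prd_apply, prd_apply, h1, h3]
      push_cast
      rfl
    · rw [prd_apply, prd_apply, h2 z hz, h4 z hz]
  | pull hX f _ h hh hf =>
    intro hκ
    obtain ⟨Ψ, hΨ⟩ := hh
    exact isHodge_comp h Ψ hΨ (hf hκ)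
  | push hX hY e f _ g hg hf =>
    intro hκ
    exact isHodge_push hY e (hf inferInstance) hg

/-- **Hodge classes** on admissible abelian varieties. -/
theorem hodge_admissible' (j1 : JRM) (j2 : JRMdim) (j3 : JOdd) (j4 : JTwo) (j5 : JCop)
    (j6 : JTwoTwo) (j7 : JIQ) (j8 : JTransR) (j9 : JTransQ) (jd : JDisc) (jc : JCore)
    (m w : ℕ) (hm : 1 ≤ m) (hw : 2 ≤ w) (per : H →+ T) (hX : St.IsAV per)
    (hs : Admissible m w per) {κ : Type} [Finite κ] (f : H [⋀^κ]→ₗ[ℚ] ℚ) :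
    IsHodge per f ↔ Generated m w per κ f := by
  refine ⟨fun hf => ?_, fun hf => hf.isHodge inferInstance⟩
  obtain ⟨a, Z, h, A, hC⟩ := exists_ppav hX
  have hsf := admF_of j8 j9 A hC hs
  obtain ⟨Ψ₁, h₁⟩ := h.cht.hom hC (R := 1) (by rw [cK_one, Matrix.one_mul, Matrix.mul_one])
  obtain ⟨Ψ₂, h₂⟩ := hC.hom h.cht (R := 1) (by rw [cK_one, Matrix.one_mul, Matrix.mul_one])
  have e₁ : ∀ w, Ψ₁ (perOne Z w) = per (A.symm w) := fun w => by
    rw [h₁, one_mulVec]
    rfl
  have e₂ : ∀ v, Ψ₂ (per v) = perOne Z (A v) := fun v => by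
    have h3 := h₂ (A v)
    have h4 : (per.comp A.symm.toLinearMap.toAddMonoidHom) (A v) = per v := by
      change per (A.symm (A v)) = per v
      rw [LinearEquiv.symm_apply_apply]
    rwa [h4, one_mulVec] at h3
  have h5 : IsHodge (perOne Z) (f.compLinearMap A.symm.toLinearMap) :=
    isHodge_comp A.symm.toLinearMap Ψ₁ e₁ hf
  have h6 := hodge_genS (m := m) (w := w) j1 j2 j3 j4 j5 j6 j7 jd jc h hm hw hsf _ h5
  have h7 := Generated.pull hX _ h6 A.toLinearMap ⟨Ψ₂, e₂⟩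
  have h8 : (f.compLinearMap A.symm.toLinearMap).compLinearMap A.toLinearMap = f := by
    ext v
    rw [AlternatingMap.compLinearMap_apply, AlternatingMap.compLinearMap_apply]
    congr 1
    funext k
    exact A.symm_apply_apply (v k)
  rwa [h8] at h7

end

end Pool.Agent.Y90.S
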